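import Pool.Agent.Lib.Sm.P.Par

/-!
# SMITH for Jacobians, block P, module Par: the growth of an alternating tower, general dimension

`Sm/P/Par.lean` for `dim Kp = d` (`d = 2 g` for a Jacobian of dimension `g`).
-/

set_option autoImplicit false

namespace Pool.Agent.SmJ

open Module Pool.Agent.Sm

namespace Tower

open Pool.Agent.Sm.Tower

variable {F M : Type*} [AddCommGroup F] [Module (ZMod 2) F] [AddCommGroup M] {W : Tower F M}

private theorem Par_cardF {E : Type*} [AddCommGroup E] [Module (ZMod 2) E]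
    [Module.Finite (ZMod 2) E] : Nat.card E = 2 ^ finrank (ZMod 2) E := by
  rw [Module.natCard_eq_pow_finrank (K := ZMod 2), Nat.card_eq_fintype_card, ZMod.card]

private theorem Par_card_L (h : W.Ok) (j : ℕ) :
    Nat.card (W.L j) = 2 ^ finrank (ZMod 2) (W.L j) := by
  have hfF := h.fin
  have : Module.Finite (ZMod 2) F := Module.Finite.of_finite
  exact Par_cardF

private theorem Par_exists (h : W.Ok) {d k : ℕ} (hk : Nat.card (W.Z k) < (2 ^ (d + 2)) ^ k) :
    ∃ j, 1 ≤ j ∧ j ≤ k ∧ finrank (ZMod 2) (W.L j) ≤ d + 1 := by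
  by_contra hcon
  push Not at hcon
  refine absurd (pow_le_card_Z h (B := 2 ^ (d + 2)) fun j h1 h2 => ?_) (not_le.mpr hk)
  rw [Par_card_L h]
  exact Nat.pow_le_pow_right (by norm_num) (hcon j h1 h2)

private theorem Par_le (h : W.Ok) {d : ℕ} (hK : finrank (ZMod 2) W.Kp = d) {j : ℕ} (hj : 1 ≤ j) :
    d ≤ finrank (ZMod 2) (W.L j) := by
  have hfF := h.fin
  have : Module.Finite (ZMod 2) F := Module.Finite.of_finite
  rw [← hK]
  exact Submodule.finrank_mono (kp_le_L h hj)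

/-- Even case: `#Z i` grows like `2 ^ (d i)`. -/
theorem card_Z_even (h : W.Ok) (ha : W.Altn) {d : ℕ} (hd : Even d)
    (hK : finrank (ZMod 2) W.Kp = d) (hev : Even (finrank (ZMod 2) W.Fs)) {k : ℕ}
    (hk : Nat.card (W.Z k) < (2 ^ (d + 2)) ^ k) :
    ∃ B : ℕ, ∀ i, Nat.card (W.Z i) ≤ B * (2 ^ d) ^ i := by
  obtain ⟨j, h1, h2, h3⟩ := Par_exists h hk
  have h4 := (even_L h ha h1).mpr hev
  have h6 := Par_le h hK h1
  have h5 : finrank (ZMod 2) (W.L j) = d := by
    rw [Nat.even_iff] at h4 hd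
    omega
  exact ⟨_, card_Z_le_pow h (B := 2 ^ d) h1 (by rw [Par_card_L h, h5]) Nat.one_le_two_pow⟩

/-- Even case: `L j` is the group of the torsion codes from some level on. -/
theorem L_eq_Kp (h : W.Ok) (ha : W.Altn) {d : ℕ} (hd : Even d)
    (hK : finrank (ZMod 2) W.Kp = d) (hev : Even (finrank (ZMod 2) W.Fs)) {k : ℕ}
    (hk : Nat.card (W.Z k) < (2 ^ (d + 2)) ^ k) :
    ∀ i, k ≤ i → W.L i = W.Kp := by
  intro i hi
  obtain ⟨j, h1, h2, h3⟩ := Par_exists h hk
  have hfF := h.fin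
  have : Module.Finite (ZMod 2) F := Module.Finite.of_finite
  have hi1 : 1 ≤ i := h1.trans (h2.trans hi)
  have h3' : finrank (ZMod 2) (W.L i) ≤ d + 1 :=
    (Submodule.finrank_mono (L_anti h h1 (h2.trans hi))).trans h3
  have h4 := (even_L h ha hi1).mpr hev
  have h6 := Par_le h hK hi1
  have h5 : finrank (ZMod 2) (W.L i) = d := by
    rw [Nat.even_iff] at h4 hd
    omega
  exact (Submodule.eq_of_le_of_finrank_eq (kp_le_L h hi1) (by rw [hK, h5])).symm

/-- Odd case: `#Z i` grows like `2 ^ ((d + 1) i)`. -/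
theorem card_Z_odd (h : W.Ok) (ha : W.Altn) {d : ℕ} (hd : Even d)
    (hK : finrank (ZMod 2) W.Kp = d) (hod : ¬ Even (finrank (ZMod 2) W.Fs)) {k : ℕ}
    (hk : Nat.card (W.Z k) < (2 ^ (d + 2)) ^ k) :
    (∀ i, (2 ^ (d + 1)) ^ i ≤ Nat.card (W.Z i)) ∧
      ∃ B : ℕ, ∀ i, Nat.card (W.Z i) ≤ B * (2 ^ (d + 1)) ^ i := by
  constructor
  · intro i
    refine pow_le_card_Z h (B := 2 ^ (d + 1)) fun j h1 _ => ?_
    have h2 := Par_le h hK h1
    have h3 : ¬ Even (finrank (ZMod 2) (W.L j)) := fun h4 => hod ((even_L h ha h1).mp h4)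
    rw [Par_card_L h]
    refine Nat.pow_le_pow_right (by norm_num) ?_
    rw [Nat.even_iff] at h3 hd
    omega
  · obtain ⟨j, h1, h2, h3⟩ := Par_exists h hk
    refine ⟨_, card_Z_le_pow h (B := 2 ^ (d + 1)) h1 ?_ Nat.one_le_two_pow⟩
    rw [Par_card_L h]
    exact Nat.pow_le_pow_right (by norm_num) h3

end Tower

/-- A space with a nondegenerate alternating form has even dimension. -/
theorem even_finrank_of_alt {V1 : Type*} [AddCommGroup V1] [Module (ZMod 2) V1] [Finite V1]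
    (e : V1 →ₗ[ZMod 2] V1 →ₗ[ZMod 2] ZMod 2) (he : ∀ w, e w w = 0)
    (hn : ∀ w, (∀ w', e w w' = 0) → w = 0) : Even (finrank (ZMod 2) V1) := by
  have : Module.Finite (ZMod 2) V1 := Module.Finite.of_finite
  obtain ⟨n, hn'⟩ := Par_rad e he ⊥ (fun a => ⟨fun h b => by
    rw [(Submodule.mem_bot _).mp h, map_zero, LinearMap.zero_apply],
    fun h => (Submodule.mem_bot _).mpr (hn a h)⟩)
  rw [finrank_bot, zero_add] at hn'
  exact ⟨n, by rw [hn', two_mul]⟩

end Pool.Agent.SmJ
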