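import Pool.Agent.Lib.SmJ.G.Kum
import Pool.Agent.Lib.SmFJ.V

/-!
# SMITH for Jacobians, parity, module MULT: the abstract part

`mem_W_of_orth`: the Kummer groups are maximal isotropic. `card_inf`: if the inertia values of the
elements of the Kummer groups of two unramified twists `chi`, `chi'`, different at `phi v`, lie in
`{0, w0}` and one value is `≠ 0`, then `2 * #(W chi v ⊓ W chi' v) = #V1`.
-/

set_option autoImplicit false

namespace Pool.Agent.SmJ.Mult

open Pool.Agent.SmJ Sys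

variable {G V Pl : Type*} {V1 : Type} [Group G] [AddCommGroup V] [DistribMulAction G V]
  [AddCommGroup V1] [Module (ZMod 2) V1] {S : Sys G V V1 Pl}

theorem zc (a : ZMod 2) : a = 0 ∨ a = 1 := by
  revert a; decide

/-- the kummer groups are maximal isotropic -/
theorem mem_W_of_orth (h : S.Ok) {chi : G → ZMod 2} (hchi : S.HomG chi) (v : Pl) (x : V1 × V1)
    (hx : ∀ y ∈ S.W chi v, S.sy v x y = 0) : x ∈ S.W chi v := by
  have hfin : Finite V1 := h.fin1
  let L : Submodule (ZMod 2) (Unit → V1 × V1) :=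
    AddSubgroup.toZModSubmodule 2 (AddSubgroup.pi Set.univ fun _ : Unit => S.W chi v)
  have hL : ∀ y : Unit → V1 × V1, y ∈ L ↔ y () ∈ S.W chi v := by
    intro y
    change y ∈ AddSubgroup.pi Set.univ (fun _ : Unit => S.W chi v) ↔ _
    rw [AddSubgroup.mem_pi]
    exact ⟨fun h => h () (Set.mem_univ _), fun h i _ => h⟩
  have hcL : Nat.card L = Nat.card V1 := by
    rw [← card_W h hchi v]
    exact Nat.card_congr ⟨fun y => ⟨y.1 (), (hL _).1 y.2⟩, fun y => ⟨fun _ => y.1, (hL _).2 y.2⟩,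
      fun y => Subtype.ext (funext fun _ => rfl), fun y => rfl⟩
  have hcU : Nat.card (Unit → V1 × V1) = Nat.card V1 ^ 2 := by
    rw [Nat.card_pi, Finset.univ_unique, Finset.prod_singleton, Nat.card_prod, sq]
  have hiso : ∀ y ∈ L, ∀ z ∈ L, SmFJ.frm S.e (fun _ : Unit => S.eps v) y z = 0 := by
    intro y hy z hz
    rw [SmFJ.frm_apply, Finset.univ_unique, Finset.sum_singleton]
    exact h.isot chi hchi v _ ((hL _).1 hy) _ ((hL _).1 hz)
  obtain ⟨l, hl, u, hu, hxe⟩ := SmF.lag (SmFJ.frm S.e fun _ : Unit => S.eps v)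
    (SmFJ.frm_nondeg h.e_alt h.e_nondeg _) (SmFJ.frm_symm h.e_alt _) L L hiso hiso
    (by rw [hcL, hcU]) (by rw [hcL, hcU])
    (fun _ => x) (by
      intro b hb _
      rw [SmFJ.frm_apply, Finset.univ_unique, Finset.sum_singleton]
      exact hx _ ((hL _).1 hb))
  have h1 := congrFun hxe ()
  have h3 : x = l () + u () := h1
  rw [h3]
  exact (S.W chi v).add_mem ((hL _).1 hl) ((hL _).1 hu)

/-- the unramified pairs `(0, u)` with `e u w0 = 0` -/
def Nw (S : Sys G V V1 Pl) (w0 : V1) : AddSubgroup (V1 × V1) where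
  carrier := {x | x.1 = 0 ∧ S.e x.2 w0 = 0}
  zero_mem' := ⟨rfl, by simp⟩
  add_mem' := by
    rintro x y ⟨h1, h2⟩ ⟨h3, h4⟩
    refine ⟨?_, ?_⟩
    · rw [Prod.fst_add, h1, h3, add_zero]
    · rw [Prod.snd_add, map_add, LinearMap.add_apply, h2, h4, add_zero]
  neg_mem' := by
    rintro x ⟨h1, h2⟩
    refine ⟨?_, ?_⟩
    · rw [Prod.fst_neg, h1, neg_zero]
    · rw [Prod.snd_neg, map_neg, LinearMap.neg_apply, h2, neg_zero]

theorem mem_Nw {w0 : V1} {x : V1 × V1} : x ∈ Nw S w0 ↔ x.1 = 0 ∧ S.e x.2 w0 = 0 := Iff.rfl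

theorem card_Nw (h : S.Ok) {w0 : V1} (hw0 : w0 ≠ 0) : 2 * Nat.card (Nw S w0) = Nat.card V1 := by
  let f : V1 →+ ZMod 2 := ((S.e).flip w0).toAddMonoidHom
  have hf : ∀ u, f u = S.e u w0 := fun u => rfl
  have hsurj : Function.Surjective f := by
    have hne : ∃ u, S.e u w0 ≠ 0 := by
      by_contra hc
      push Not at hc
      apply hw0
      refine h.e_nondeg w0 fun u => ?_
      rw [SmFJ.e_comm h.e_alt]
      exact hc u
    obtain ⟨u, hu⟩ := hne
    intro a
    rcases zc a with rfl | rfl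
    · exact ⟨0, map_zero f⟩
    · refine ⟨u, ?_⟩
      rw [hf]
      rcases zc (S.e u w0) with h1 | h1
      · exact absurd h1 hu
      · exact h1
  have h1 := card_hom f
  rw [AddMonoidHom.range_eq_top.mpr hsurj, AddSubgroup.card_top, Nat.card_zmod] at h1
  have h3 : Nat.card f.ker = Nat.card (Nw S w0) := by
    refine Nat.card_congr ⟨fun u => ⟨(0, u.1), rfl, AddMonoidHom.mem_ker.mp u.2⟩,
      fun x => ⟨x.1.2, AddMonoidHom.mem_ker.mpr x.2.2⟩, fun _ => rfl, fun x => ?_⟩
    exact Subtype.ext (Prod.ext x.2.1.symm rfl)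
  rw [← h1, h3, mul_comm]

/-- the pairs in `Nw` belong to the Kummer group if the inertia values lie in `{0, w0}` -/
theorem Nw_le (h : S.Ok) {chi : G → ZMod 2} (hchi : S.HomG chi) {v : Pl} {w0 : V1}
    (hW : ∀ x ∈ S.W chi v, x.1 = 0 ∨ x.1 = w0) : Nw S w0 ≤ S.W chi v := by
  rintro x ⟨h1, h2⟩
  refine mem_W_of_orth h hchi v _ fun y hy => ?_
  unfold Sys.sy sym
  rw [h1]
  simp only [map_zero, LinearMap.zero_apply, zero_add, mul_zero, add_zero]
  rcases hW y hy with h3 | h3
  · rw [h3, map_zero]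
  · rw [h3, h2]

/-- **the intersection** -/
theorem card_inf (h : S.Ok) {chi chi' : G → ZMod 2} (hchi : S.HomG chi)
    (hchi' : S.HomG chi') {v : Pl} (h0 : chi (S.sg v) = 0) (h0' : chi' (S.sg v) = 0)
    (hne : chi (S.phi v) ≠ chi' (S.phi v)) {w0 : V1} (hw0 : w0 ≠ 0)
    (hW : ∀ x ∈ S.W chi v, x.1 = 0 ∨ x.1 = w0) (hW' : ∀ x ∈ S.W chi' v, x.1 = 0 ∨ x.1 = w0)
    (hram : (∃ x ∈ S.W chi v, x.1 ≠ 0) ∨ ∃ x ∈ S.W chi' v, x.1 ≠ 0) :
    2 * Nat.card (S.W chi v ⊓ S.W chi' v : AddSubgroup (V1 × V1)) = Nat.card V1 := by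
  have hfin : Finite V1 := h.fin1
  have hne' : S.W chi v ≠ S.W chi' v := by
    intro he
    -- the unramified elements
    have hU : ∀ w : V1, ((0, w) : V1 × V1) ∈ S.W chi v := by
      intro w
      obtain ⟨z, hz⟩ := h.half (S.iota w)
      have hd2 : ∀ (c : G → ZMod 2) (s : G), (2 : ℕ) • dl c z s = 0 := by
        intro c s
        rw [← dl_nsmul, hz, dl_iota h]
      have hx1 : (S.un (dl chi z (S.sg v)), S.un (dl chi z (S.phi v))) ∈ S.W chi v :=
        ⟨z, fun s _ => hd2 chi s, (iota_un h (hd2 _ _)).symm, (iota_un h (hd2 _ _)).symm⟩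
      have hx2 : (S.un (dl chi' z (S.sg v)), S.un (dl chi' z (S.phi v))) ∈ S.W chi v := by
        rw [he]
        exact ⟨z, fun s _ => hd2 chi' s, (iota_un h (hd2 _ _)).symm, (iota_un h (hd2 _ _)).symm⟩
      have e1 : dl chi z (S.sg v) = dl chi' z (S.sg v) := by
        unfold dl tw
        rw [h0, h0']
      have e2 : dl chi z (S.phi v) - dl chi' z (S.phi v) = S.iota w := by
        have hs : S.phi v • (z + z) = z + z := by
          rw [← two_nsmul, hz, h.iota_fix]
        have hzz : z + z = S.iota w := by rw [← two_nsmul, hz]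
        have hneg : -(z + z) = z + z := by
          rw [hzz]
          exact neg_iota S w
        have s0 : sgn 0 = 1 := rfl
        have s1 : sgn 1 = -1 := rfl
        rw [smul_add] at hs
        unfold dl tw
        rcases zc (chi (S.phi v)) with ha | ha <;> rcases zc (chi' (S.phi v)) with hb | hb
        · exact absurd (ha.trans hb.symm) hne
        · rw [ha, hb, s0, s1, one_smul, neg_one_smul]
          have : S.phi v • z - z - (-(S.phi v • z) - z) = S.phi v • z + S.phi v • z := by abel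
          rw [this, hs, hzz]
        · rw [ha, hb, s0, s1, one_smul, neg_one_smul]
          have : -(S.phi v • z) - z - (S.phi v • z - z) = -(S.phi v • z + S.phi v • z) := by abel
          rw [this, hs, hneg, hzz]
        · exact absurd (ha.trans hb.symm) hne
      have h5 := (S.W chi v).sub_mem hx1 hx2
      have h6 : ((S.un (dl chi z (S.sg v)), S.un (dl chi z (S.phi v))) -
          (S.un (dl chi' z (S.sg v)), S.un (dl chi' z (S.phi v))) : V1 × V1) = (0, w) := by
        refine Prod.ext ?_ ?_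
        · change S.un (dl chi z (S.sg v)) - S.un (dl chi' z (S.sg v)) = 0
          rw [e1, sub_self]
        · change S.un (dl chi z (S.phi v)) - S.un (dl chi' z (S.phi v)) = w
          apply h.iota_inj
          rw [map_sub, iota_un h (hd2 _ _), iota_un h (hd2 _ _), e2]
      rw [h6] at h5
      exact h5
    have hle : Ur ≤ S.W chi v := by
      intro x hx
      have h1 : x = (0, x.2) := Prod.ext (mem_Ur.mp hx) rfl
      rw [h1]
      exact hU _
    have hUr : Ur = S.W chi v := by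
      apply SetLike.coe_injective
      refine Set.eq_of_subset_of_ncard_le hle ?_ (Set.toFinite _)
      rw [← Nat.card_coe_set_eq, ← Nat.card_coe_set_eq]
      have e1 : Nat.card (S.W chi v : Set (V1 × V1)) = Nat.card V1 := card_W h hchi v
      have e2 : Nat.card ((Ur : AddSubgroup (V1 × V1)) : Set (V1 × V1)) = Nat.card V1 := card_Ur
      rw [e1, e2]
    rcases hram with ⟨x, hx, hx1⟩ | ⟨x, hx, hx1⟩
    · rw [← hUr] at hx
      exact hx1 (mem_Ur.mp hx)
    · rw [← he, ← hUr] at hx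
      exact hx1 (mem_Ur.mp hx)
  -- counting
  have hN := card_Nw h hw0
  have hNle : Nw S w0 ≤ S.W chi v ⊓ S.W chi' v := le_inf (Nw_le h hchi hW) (Nw_le h hchi' hW')
  obtain ⟨t, ht⟩ := AddSubgroup.card_dvd_of_le hNle
  obtain ⟨r, hr⟩ : Nat.card (S.W chi v ⊓ S.W chi' v : AddSubgroup (V1 × V1)) ∣ Nat.card V1 := by
    rw [← card_W h hchi v]
    exact AddSubgroup.card_dvd_of_le inf_le_left
  have hpos : 0 < Nat.card (Nw S w0) := Nat.card_pos
  have hrt : 2 = t * r := by
    apply Nat.eq_of_mul_eq_mul_left hpos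
    rw [← mul_assoc, ← ht, ← hr, ← hN, mul_comm]
  have hr1 : r ≠ 1 := by
    rintro rfl
    rw [mul_one] at hr
    apply hne'
    have key : ∀ A : AddSubgroup (V1 × V1), (S.W chi v ⊓ S.W chi' v) ≤ A →
        Nat.card A = Nat.card V1 → S.W chi v ⊓ S.W chi' v = A := by
      intro A hA hcA
      apply SetLike.coe_injective
      refine Set.eq_of_subset_of_ncard_le hA ?_ (Set.toFinite _)
      rw [← Nat.card_coe_set_eq, ← Nat.card_coe_set_eq]
      have e1 : Nat.card (A : Set (V1 × V1)) = Nat.card V1 := hcA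
      have e2 : Nat.card ((S.W chi v ⊓ S.W chi' v : AddSubgroup (V1 × V1)) : Set (V1 × V1)) =
        Nat.card V1 := hr.symm
      rw [e1, e2]
    exact (key _ inf_le_left (card_W h hchi v)).symm.trans
      (key _ inf_le_right (card_W h hchi' v))
  have hrd : r ∣ 2 := ⟨t, by rw [hrt, mul_comm]⟩
  have hr2 : r = 2 := by
    rcases (Nat.dvd_prime Nat.prime_two).mp hrd with h1 | h1
    · exact absurd h1 hr1
    · exact h1
  rw [hr, hr2, mul_comm]

end Pool.Agent.SmJ.Mult
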