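import Pool.Agent.Lib.SmJ.P.MultK
import Pool.Agent.Lib.SmJ.P.MultAbs
import Pool.Agent.Lib.SmJ.E.Iota
import Pool.Agent.Lib.SmJ.L.GenGraph
import Pool.Agent.Lib.Sm.Inst.Inst

/-!
# SMITH for Jacobians, parity, module MULT: the local Kummer groups at a place of multiplicative
reduction

`card_inf_mult`: `P` divides `a i - a j` to an odd power and no other difference of the roots
(an edge of `brGraph a`); then the local Kummer groups at `P` of two unramified twists which differ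
at the Frobenius intersect in a group with `#V1 / 2` elements.
The structure `S` is any instance of `Sys` with decomposition groups, Frobenius and inertia elements
those of block D and a homomorphism `J` from `V` to the class group `JJ (ff b)` compatible with the
Galois action and with the 2-torsion, `b` = the images of the roots in `Ω`.
-/

set_option autoImplicit false

open Polynomial Pool.Agent.BSDFF Pool.Agent.Lib.SmD Pool.Agent.BSDP.R

namespace Pool.Agent.SmJ.Mult

open Pool.Agent.SmJ Sys L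

theorem dd_ne {g : ℕ} {i j : Fin (2 * g + 1)} (h : i ≠ j) : (dd i j : EV g) ≠ 0 := by
  intro h0
  have h1 := congrFun (congrArg Subtype.val h0) i
  rw [dd_apply, if_pos rfl, if_neg h, add_zero] at h1
  exact one_ne_zero h1

theorem even_card_filter {g : ℕ} (x : EV g) :
    Even (Finset.univ.filter fun i => x.1 i = 1).card := by
  have h1 : ∑ i, x.1 i = ((Finset.univ.filter (fun i => x.1 i = 1)).card : ZMod 2) := by
    rw [Finset.card_filter, Nat.cast_sum]
    refine Finset.sum_congr rfl fun i _ => ?_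
    rcases zc (x.1 i) with h | h
    · rw [h]
      simp
    · rw [h, if_pos rfl]
      simp
  have h2 : ∑ i, x.1 i = 0 := x.2
  rw [h2] at h1
  exact (ZMod.natCast_eq_zero_iff_even).mp h1.symm

/-- even vectors supported in `{i, j}` -/
theorem eq_of_sub {g : ℕ} {i j : Fin (2 * g + 1)} (hij : i ≠ j) (x : EV g)
    (h : ∀ k, x.1 k = 1 → k = i ∨ k = j) : x = 0 ∨ x = dd i j := by
  have h0 : ∀ k, k ≠ i → k ≠ j → x.1 k = 0 := by
    intro k h1 h2
    rcases zc (x.1 k) with h3 | h3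
    · exact h3
    · exact absurd (h k h3) (by push Not; exact ⟨h1, h2⟩)
  have hs : x.1 i + x.1 j = 0 := by
    have h2 : ∑ r, x.1 r = 0 := x.2
    rw [← Finset.add_sum_erase _ _ (Finset.mem_univ i),
      ← Finset.add_sum_erase _ _ (Finset.mem_erase.mpr ⟨hij.symm, Finset.mem_univ j⟩),
      Finset.sum_eq_zero, add_zero] at h2
    · exact h2
    · intro r hr
      rw [Finset.mem_erase, Finset.mem_erase] at hr
      exact h0 r hr.2.1 hr.1
  have hj : x.1 i = x.1 j := by
    have h5 : ∀ c d : ZMod 2, c + d = 0 → c = d := by decide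
    exact h5 _ _ hs
  rcases zc (x.1 i) with h3 | h3
  · left
    apply Subtype.ext
    funext r
    by_cases h1 : r = i
    · rw [h1, h3]; rfl
    · by_cases h2 : r = j
      · rw [h2, ← hj, h3]; rfl
      · rw [h0 r h1 h2]; rfl
  · right
    apply Subtype.ext
    funext r
    rw [dd_apply]
    by_cases h1 : r = i
    · rw [if_pos h1, h1, if_neg hij, h3, add_zero]
    · by_cases h2 : r = j
      · rw [if_neg h1, if_pos h2, h2, ← hj, h3, zero_add]
      · rw [if_neg h1, if_neg h2, h0 r h1 h2, add_zero]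

/-- the even vector with a zero at `i` only -/
def ci {g : ℕ} (i : Fin (2 * g + 1)) : EV g :=
  ⟨fun r => if r = i then 0 else 1, by
    change ∑ r, (if r = i then (0 : ZMod 2) else 1) = 0
    have h1 : ∀ r, (if r = i then (0 : ZMod 2) else 1) = 1 + (if r = i then 1 else 0) := by
      intro r
      by_cases h : r = i
      · rw [if_pos h, if_pos h]
        decide
      · rw [if_neg h, if_neg h, add_zero]
    simp only [h1, Finset.sum_add_distrib, Finset.sum_const, Finset.card_univ, Fintype.card_fin,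
      nsmul_eq_mul, mul_one, Finset.sum_ite_eq', Finset.mem_univ, if_true]
    have h4 : ((2 * g + 1 : ℕ) : ZMod 2) = 1 := by
      rw [ZMod.natCast_eq_one_iff_odd]
      exact ⟨g, rfl⟩
    rw [h4]
    decide⟩

section io

variable {Om : Type} [Field Om] {g : ℕ} (b : Fin (2 * g + 1) → Om) [HypA b]

theorem io_eq_sum (x : Fin (2 * g + 1) → ZMod 2) :
    io b x = ∑ i ∈ Finset.univ.filter (fun i => x i = 1), ee b i := by
  rw [io_eq, cls_PS]

theorem io_ci (i : Fin (2 * g + 1)) : io b (ci i).1 = ee b i := by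
  have e : (Finset.univ.filter fun r => (ci i).1 r = 1) = ({i} : Finset (Fin (2 * g + 1)))ᶜ := by
    ext r
    simp only [Finset.mem_filter, Finset.mem_univ, true_and, Finset.mem_compl,
      Finset.mem_singleton]
    change (if r = i then (0 : ZMod 2) else 1) = 1 ↔ _
    by_cases h : r = i
    · simp [h]
    · simp [h]
  rw [io_eq, e, cls_PS_compl, cls_PS, Finset.sum_singleton]

end io

variable {k : Type} [Field k] [Finite k] {Ω : Type} [Field Ω] [Algebra (RatFunc k) Ω]
  [IsSepClosure (RatFunc k) Ω] {g : ℕ}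

open scoped Classical in
/-- **The intersection at a place of multiplicative reduction**, general form. -/
theorem card_inf_place {V : Type*} [AddCommGroup V] [DistribMulAction (Ω ≃ₐ[RatFunc k] Ω) V]
    (h2 : (2 : k) ≠ 0) {S : Sys (Ω ≃ₐ[RatFunc k] Ω) V (EV g) (Place k (RatFunc k))} (h : S.Ok)
    (hNN : S.NN = SmD.NN (RatFunc k) Ω) (hD : ∀ v, S.D v = dv Ω v) (hsg : ∀ v, S.sg v = sg Ω v)
    {b : Fin (2 * g + 1) → Ω} [HypA b] (hb : ∀ s : Ω ≃ₐ[RatFunc k] Ω, ∀ l, s (b l) = b l)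
    (J : V →+ JJ (ff b))
    (hJ : ∀ (s : Ω ≃ₐ[RatFunc k] Ω) (Q : V),
      J (s • Q) = act (s : Ω ≃+* Ω) (map_ff _ (hb s)) (J Q))
    (hio : ∀ x : EV g, J (S.iota x) = io b x.1) {v : Place k (RatFunc k)} {π : v.ring}
    (hπ : Irreducible π) {i j : Fin (2 * g + 1)} (hij : i ≠ j)
    (hun : ∀ r, r ≠ i → r ≠ j → ∀ s, s ≠ r → (ab Ω v).valuation (b r - b s) = 1) {n : ℤ}
    (hn : (ab Ω v).valuation (b i - b j) =
      (ab Ω v).valuation (algebraMap (RatFunc k) Ω (π : RatFunc k)) ^ (2 * n + 1))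
    {chi chi' : (Ω ≃ₐ[RatFunc k] Ω) → ZMod 2} (hchi : S.HomG chi) (hchi' : S.HomG chi')
    (h0 : chi (S.sg v) = 0) (h0' : chi' (S.sg v) = 0)
    (hph : chi (S.phi v) ≠ chi' (S.phi v)) :
    2 * Nat.card (S.W chi v ⊓ S.W chi' v : AddSubgroup (EV g × EV g)) = Nat.card (EV g) := by
  have : IsSepClosed Ω := IsSepClosure.sep_closed (RatFunc k)
  have : IsGalois (RatFunc k) Ω := inferInstance
  have : Infinite (RatFunc k) :=
    Infinite.of_injective (algebraMap k[X] (RatFunc k)) (IsFractionRing.injective _ _)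
  have hL := locHyp_ab (Om := Ω) h2 v hπ
  have h20 : (2 : Ω) ≠ 0 := HypA.two b
  obtain ⟨ρ, hρ⟩ := Pool.Agent.Lib.SmD.exists_sqrt h20 (algebraMap (RatFunc k) Ω (π : RatFunc k))
  have hsgI : sg Ω v ∈ iner (RatFunc k) (ab Ω v) := sg_iner h2 v
  have hsgρ : sg Ω v ρ = -ρ := by
    have h1 := SmF.chi_spec hρ (sg Ω v)
    rw [chi_sg_irr h2 v hπ, ZMod.val_one, pow_one, neg_one_mul] at h1
    exact h1
  have hs0 : sgn 0 = 1 := rfl
  -- unramified characters vanish on the inertia group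
  have hI : ∀ {e : (Ω ≃ₐ[RatFunc k] Ω) → ZMod 2}, S.HomG e → e (S.sg v) = 0 →
      ∀ s ∈ iner (RatFunc k) (ab Ω v), e s = 0 := by
    intro e he he0
    obtain ⟨⟨N, hN, hN'⟩, hmul⟩ := he
    rw [hNN] at hN
    rw [hsg] at he0
    exact homI h2 v e ⟨N, hN, fun s _ n hn _ => hN' s n hn⟩ (fun s _ t _ => hmul s t) he0
  -- the constraint
  have hcon : ∀ {e : (Ω ≃ₐ[RatFunc k] Ω) → ZMod 2}, S.HomG e → e (S.sg v) = 0 →
      ∀ x ∈ S.W e v, x.1 = 0 ∨ x.1 = dd i j := by
    rintro e he he0 x ⟨Q, hQ, hx1, -⟩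
    have hI' := hI he he0
    have hdl : ∀ s ∈ iner (RatFunc k) (ab Ω v), dl e Q s = s • Q - Q := by
      intro s hs
      unfold dl tw
      rw [hI' s hs, hs0, one_smul]
    refine eq_of_sub hij x.1 ?_
    have hact : act (sg Ω v : Ω ≃+* Ω) (map_ff _ (hb (sg Ω v))) (J Q) =
        J Q + ∑ r ∈ Finset.univ.filter (fun r => x.1.1 r = 1), ee b r := by
      rw [← hJ, ← io_eq_sum, ← hio, ← hx1, hsg, hdl _ hsgI, map_sub]
      abel
    have h5 := sub_pair hL hb hun (Q := J Q) ?_ hsgI (even_card_filter x.1) hact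
    · intro r hr
      exact h5 r (Finset.mem_filter.mpr ⟨Finset.mem_univ r, hr⟩)
    · intro s hs hm
      have h1 := hQ s (by rw [hD]; exact iner_le_dec _ _ hs)
      rw [hdl s hs] at h1
      have h3 : s • ((2 : ℕ) • Q) = (2 : ℕ) • Q := by
        rw [smul_sub, sub_eq_zero] at h1
        rw [smul_comm]
        exact h1
      have h4 := congrArg J h3
      rw [hJ, map_nsmul] at h4
      exact h4
  -- ramified elements
  have hram : ∃ x ∈ S.W chi v, x.1 ≠ 0 := by
    obtain ⟨z, hz⟩ := h.half (S.iota (ci i))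
    have hd2 : ∀ s, (2 : ℕ) • dl chi z s = 0 := by
      intro s
      rw [← dl_nsmul, hz, dl_iota h]
    refine ⟨(S.un (dl chi z (S.sg v)), S.un (dl chi z (S.phi v))),
      ⟨z, fun s _ => hd2 s, (iota_un h (hd2 _)).symm, (iota_un h (hd2 _)).symm⟩, ?_⟩
    have h1 : dl chi z (S.sg v) = S.iota (S.un (dl chi z (S.sg v))) := (iota_un h (hd2 _)).symm
    change S.un (dl chi z (S.sg v)) ≠ 0
    generalize S.un (dl chi z (S.sg v)) = xi at h1 ⊢
    rintro rfl
    unfold dl tw at h1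
    rw [h0, hs0, one_smul, map_zero, sub_eq_zero, hsg] at h1
    have hact : act (sg Ω v : Ω ≃+* Ω) (map_ff _ (hb (sg Ω v))) (J z) =
        J z + ∑ r ∈ (∅ : Finset (Fin (2 * g + 1))), ee b r := by
      rw [← hJ, h1, Finset.sum_empty, add_zero]
    have h6 := mem_of_odd hL hb hij hn (Q := J z) ?_ hsgI hρ hsgρ (S := ∅) (by simp) hact
    · exact absurd h6 (Finset.notMem_empty j)
    · rw [← map_nsmul, hz, hio, io_ci]
  exact card_inf h hchi hchi' h0 h0' hph (dd_ne hij) (hcon hchi h0) (hcon hchi' h0') (Or.inl hram)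

open scoped Classical in
/-- **Module MULT**: an edge of `brGraph a`. -/
theorem card_inf_mult {V : Type*} [AddCommGroup V] [DistribMulAction (Ω ≃ₐ[RatFunc k] Ω) V]
    (h2 : (2 : k) ≠ 0) {S : Sys (Ω ≃ₐ[RatFunc k] Ω) V (EV g) (Place k (RatFunc k))} (h : S.Ok)
    (hNN : S.NN = SmD.NN (RatFunc k) Ω) (hD : ∀ v, S.D v = dv Ω v) (hsg : ∀ v, S.sg v = sg Ω v)
    {a : Fin (2 * g + 1) → k[X]} {b : Fin (2 * g + 1) → Ω} [HypA b]
    (hab : ∀ l, b l = algebraMap (RatFunc k) Ω (algebraMap k[X] (RatFunc k) (a l)))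
    (J : V →+ JJ (ff b))
    (hJ : ∀ (s : Ω ≃ₐ[RatFunc k] Ω) (hs : (ff b).map ((s : Ω ≃+* Ω) : Ω →+* Ω) = ff b) (Q : V),
      J (s • Q) = act (s : Ω ≃+* Ω) hs (J Q))
    (hio : ∀ x : EV g, J (S.iota x) = io b x.1) {P : k[X]} (hP : Irreducible P)
    {i j : Fin (2 * g + 1)} (hij : i ≠ j) (hodd : Odd (multiplicity P (a i - a j)))
    (hun : ∀ r s, r ≠ s → ¬ ((r = i ∧ s = j) ∨ (r = j ∧ s = i)) → ¬ P ∣ a r - a s)
    {chi chi' : (Ω ≃ₐ[RatFunc k] Ω) → ZMod 2} (hchi : S.HomG chi) (hchi' : S.HomG chi')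
    (h0 : chi (S.sg (placeOf P hP)) = 0) (h0' : chi' (S.sg (placeOf P hP)) = 0)
    (hph : chi (S.phi (placeOf P hP)) ≠ chi' (S.phi (placeOf P hP))) :
    2 * Nat.card (S.W chi (placeOf P hP) ⊓ S.W chi' (placeOf P hP) :
      AddSubgroup (EV g × EV g)) = Nat.card (EV g) := by
  have hb : ∀ s : Ω ≃ₐ[RatFunc k] Ω, ∀ l, s (b l) = b l := by
    intro s l
    rw [hab, s.commutes]
  have hdiff : ∀ r s, b r - b s =
      algebraMap (RatFunc k) Ω (algebraMap k[X] (RatFunc k) (a r - a s)) := by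
    intro r s
    rw [hab, hab, map_sub, map_sub]
  have hne : a i - a j ≠ 0 := by
    intro h3
    have h4 := hdiff i j
    rw [h3, map_zero, map_zero, sub_eq_zero] at h4
    exact hij (HypA.inj (a := b) h4)
  obtain ⟨n, hn⟩ := hodd
  have hfin : FiniteMultiplicity P (a i - a j) :=
    FiniteMultiplicity.of_not_isUnit hP.not_isUnit hne
  refine card_inf_place h2 h hNN hD hsg hb J (fun s Q => hJ s _ Q) hio (SmF.unif_placeOf hP) hij
    (n := n) ?_ ?_ hchi hchi' h0 h0' hph
  · intro r hr hr' s hs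
    rw [hdiff]
    refine val_poly_eq_one hP (hun r s hs.symm ?_)
    rintro (⟨h3, -⟩ | ⟨h3, -⟩)
    · exact hr h3
    · exact hr' h3
  · obtain ⟨c, hc, hc'⟩ := hfin.exists_eq_pow_mul_and_not_dvd
    rw [hdiff, hc, map_mul, map_mul, map_mul, val_poly_eq_one hP hc', mul_one, map_pow, map_pow,
      map_pow, hn]
    have hz : ∀ q : (ab Ω (placeOf P hP)).ValueGroup, q ^ (2 * n + 1) = q ^ (2 * (n : ℤ) + 1) := by
      intro q
      rw [← zpow_natCast]
      congr 1
    exact hz _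

end Pool.Agent.SmJ.Mult
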