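import Pool.Agent.Lib.SmD.ValIner
import Mathlib

/-!
# SMITH for Jacobians, parity, module MULT: parity of valuations at simple roots

`even_val`: `F` the inertia field, `u, V` polynomials over `F`, `u` monic,
`u ∣ V ^ 2 - ∏ (X - a_l)`, an odd number of `a_l` in `F` integral at `w`, `a_k - a_l` a unit for all
`l ≠ k`, `u (a_k) ≠ 0`. Then the value of `u (a_k)` is even.
-/

set_option autoImplicit false

open Polynomial Pool.Agent.Lib.SmD

namespace Pool.Agent.SmJ.Mult

variable {K Om : Type} [Field K] [Field Om] [Algebra K Om] {w : ValuationSubring Om} {π : K}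
  {ι : Type} [Fintype ι] [DecidableEq ι]

section part

/-- the part of the product over the roots with a property `p` stable under inertia -/
theorem even_part [IsGalois K Om] (hL : LocHyp K w π) {R : Multiset Om} {e : Om} {V : Om[X]}
    (hR : ∀ s ∈ iner K w, R.map s = R) (he : ∀ s ∈ iner K w, s e = e)
    (hV : ∀ s ∈ iner K w, V.map (s : Om →+* Om) = V) (hne : ∀ x ∈ R, x ≠ e) (p : Om → Prop)
    [DecidablePred p] (hp : ∀ s ∈ iner K w, ∀ x, p (s x) ↔ p x) {c : ℕ} (hc : Odd c)
    (hval : ∀ x ∈ R, p x → w.valuation (V.eval x) ^ 2 = w.valuation (x - e) ^ c) :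
    ∃ m : ℤ, w.valuation (((R.filter p).map fun x => x - e).prod) =
      w.valuation (algebraMap K Om π) ^ (2 * m) := by
  have hRp : ∀ s ∈ iner K w, (R.filter p).map s = R.filter p := by
    intro s hs
    conv_rhs => rw [← hR s hs]
    rw [Multiset.filter_map]
    congr 1
    refine Multiset.filter_congr fun x _ => ?_
    exact (hp s hs x).symm
  set N := ((R.filter p).map fun x => x - e).prod with hN
  set M := ((R.filter p).map fun x => V.eval x).prod with hM
  have hNf : ∀ s ∈ iner K w, s N = N := by
    intro s hs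
    rw [hN, map_multiset_prod, Multiset.map_map]
    conv_rhs => rw [← hRp s hs, Multiset.map_map]
    congr 1
    refine Multiset.map_congr rfl fun x _ => ?_
    simp only [Function.comp_apply, map_sub, he s hs]
  have hMf : ∀ s ∈ iner K w, s M = M := by
    intro s hs
    rw [hM, map_multiset_prod, Multiset.map_map]
    conv_rhs => rw [← hRp s hs, Multiset.map_map]
    congr 1
    refine Multiset.map_congr rfl fun x _ => ?_
    simp only [Function.comp_apply]
    conv_rhs => rw [← hV s hs]
    exact (eval_map_apply (s : Om →+* Om) x).symm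
  have hN0 : N ≠ 0 := by
    rw [hN]
    refine Multiset.prod_ne_zero ?_
    rw [Multiset.mem_map]
    rintro ⟨x, hx, hx0⟩
    exact hne x (Multiset.mem_of_mem_filter hx) (sub_eq_zero.mp hx0)
  have hMN : w.valuation M ^ 2 = w.valuation N ^ c := by
    rw [hM, hN, map_multiset_prod, map_multiset_prod, Multiset.map_map, Multiset.map_map,
      ← Multiset.prod_map_pow, ← Multiset.prod_map_pow]
    congr 1
    refine Multiset.map_congr rfl fun x hx => ?_
    exact hval x (Multiset.mem_of_mem_filter hx) (Multiset.of_mem_filter hx)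
  have hM0 : M ≠ 0 := by
    intro h0
    rw [h0, map_zero, zero_pow two_ne_zero] at hMN
    exact pow_ne_zero c ((Valuation.ne_zero_iff _).mpr hN0) hMN.symm
  obtain ⟨i, hi⟩ := value_iner hL hN0 hNf
  obtain ⟨j, hj⟩ := value_iner hL hM0 hMf
  rw [hi, hj, ← zpow_natCast, ← zpow_natCast, ← zpow_mul, ← zpow_mul] at hMN
  have h1 := hL.zpow_inj hMN
  obtain ⟨r, hr⟩ := hc
  refine ⟨j - r * i, ?_⟩
  rw [hi]
  congr 1
  rw [hr] at h1
  push_cast at h1
  linarith

end part

theorem prod_split {α Γ : Type*} [LinearOrder Γ] [CommMonoid Γ] (R : Multiset α) (f : α → Γ) :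
    (R.map f).prod = ((R.filter fun x => f x < 1).map f).prod *
      ((R.filter fun x => 1 < f x).map f).prod := by
  induction R using Multiset.induction_on with
  | empty => simp
  | cons x R ih =>
    rw [Multiset.map_cons, Multiset.prod_cons, ih]
    rcases lt_trichotomy (f x) 1 with h | h | h
    · rw [Multiset.filter_cons_of_pos (p := fun x => f x < 1) R h,
        Multiset.filter_cons_of_neg (p := fun x => 1 < f x) R (not_lt.mpr h.le),
        Multiset.map_cons, Multiset.prod_cons, mul_assoc]
    · rw [Multiset.filter_cons_of_neg (p := fun x => f x < 1) R (by rw [h]; exact lt_irrefl _),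
        Multiset.filter_cons_of_neg (p := fun x => 1 < f x) R (by rw [h]; exact lt_irrefl _), h,
        one_mul]
    · rw [Multiset.filter_cons_of_neg (p := fun x => f x < 1) R (not_lt.mpr h.le),
        Multiset.filter_cons_of_pos (p := fun x => 1 < f x) R h,
        Multiset.map_cons, Multiset.prod_cons, mul_left_comm]

/-- the split case -/
theorem even_val_split [IsGalois K Om] (hL : LocHyp K w π) (hodd : Odd (Fintype.card ι))
    (a : ι → Om) (ha : ∀ l, ∀ s ∈ iner K w, s (a l) = a l) (k : ι)
    (hk : ∀ l, l ≠ k → w.valuation (a k - a l) = 1) (u V : Om[X]) (hu : u.Monic)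
    (huI : ∀ s ∈ iner K w, u.map (s : Om →+* Om) = u)
    (hVI : ∀ s ∈ iner K w, V.map (s : Om →+* Om) = V)
    (hdvd : u ∣ V ^ 2 - ∏ l, (X - C (a l))) (hne : u.eval (a k) ≠ 0) (hsp : u.Splits) :
    ∃ m : ℤ, w.valuation (u.eval (a k)) = w.valuation (algebraMap K Om π) ^ (2 * m) := by
  classical
  set R := u.roots with hRdef
  have hR : ∀ s ∈ iner K w, R.map s = R := by
    intro s hs
    have h1 := hsp.roots_map (s : Om →+* Om)
    rw [huI s hs] at h1
    exact h1.symm
  have hy : ∀ x ∈ R, (V.eval x) ^ 2 = ∏ l, (x - a l) := by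
    intro x hx
    have hx0 : u.eval x = 0 := (mem_roots'.mp hx).2
    obtain ⟨q, hq⟩ := hdvd
    have h1 := congrArg (Polynomial.eval x) hq
    rw [eval_mul, hx0, zero_mul, eval_sub, eval_pow, eval_prod, sub_eq_zero] at h1
    simpa using h1
  have hne' : ∀ x ∈ R, x ≠ a k := by
    rintro x hx rfl
    exact hne (mem_roots'.mp hx).2
  have hvy : ∀ x ∈ R, w.valuation (V.eval x) ^ 2 = ∏ l, w.valuation (x - a l) := by
    intro x hx
    rw [← map_pow, hy x hx, map_prod]
  have hkk : ∀ l, w.valuation (a k - a l) ≤ 1 := by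
    intro l
    by_cases h : l = k
    · rw [h, sub_self, map_zero]
      exact zero_le_one
    · exact (hk l h).le
  -- the two parts
  obtain ⟨m1, hm1⟩ := even_part hL hR (ha k) hVI hne' (fun x => w.valuation (x - a k) < 1) (by
    intro s hs x
    have h1 := dec_val_lt K (iner_le_dec K w hs) (x - a k)
    rw [map_sub, ha k s hs] at h1
    exact h1) (c := 1) odd_one (by
    intro x hx hlt
    rw [hvy x hx, pow_one, ← Finset.mul_prod_erase _ _ (Finset.mem_univ k)]
    rw [Finset.prod_eq_one, mul_one]
    intro l hl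
    have e : x - a l = (a k - a l) + (x - a k) := by ring
    have h1 := hk l (Finset.ne_of_mem_erase hl)
    rw [e, Valuation.map_add_eq_of_lt_left _ (by rw [h1]; exact hlt), h1])
  obtain ⟨m2, hm2⟩ := even_part hL hR (ha k) hVI hne' (fun x => 1 < w.valuation (x - a k)) (by
    intro s hs x
    have h1 := dec_val_le K (iner_le_dec K w hs) (x - a k)
    rw [map_sub, ha k s hs] at h1
    rw [← not_le, ← not_le, not_iff_not]
    exact h1) (c := Fintype.card ι) hodd (by
    intro x hx hlt
    rw [hvy x hx, ← Finset.card_univ, ← Finset.prod_const]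
    refine Finset.prod_congr rfl fun l _ => ?_
    have e : x - a l = (x - a k) + (a k - a l) := by ring
    rw [e, Valuation.map_add_eq_of_lt_left _ ((hkk l).trans_lt hlt)])
  -- the whole product
  have htot : w.valuation (u.eval (a k)) = (R.map fun x => w.valuation (x - a k)).prod := by
    rw [hsp.eval_eq_prod_roots_of_monic hu, map_multiset_prod, Multiset.map_map]
    congr 1
    refine Multiset.map_congr rfl fun x _ => ?_
    exact Valuation.map_sub_swap _ _ _
  have hsplit : (R.map fun x => w.valuation (x - a k)).prod =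
      w.valuation (((R.filter fun x => w.valuation (x - a k) < 1).map fun x => x - a k).prod) *
      w.valuation (((R.filter fun x => 1 < w.valuation (x - a k)).map fun x => x - a k).prod) := by
    rw [map_multiset_prod, map_multiset_prod, Multiset.map_map, Multiset.map_map]
    exact prod_split R fun x => w.valuation (x - a k)
  refine ⟨m1 + m2, ?_⟩
  rw [htot, hsplit, hm1, hm2, ← zpow_add₀ (by
    rw [Ne, Valuation.zero_iff, map_eq_zero]
    exact hL.pi_ne)]
  congr 1
  ring

/-- a power of Frobenius makes a monic polynomial over a separably closed field split -/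
theorem exists_split [IsSepClosed Om] (p : ℕ) [ExpChar Om p] (u : Om[X]) :
    ∃ n : ℕ, (u.map (iterateFrobenius Om p n)).Splits := by
  classical
  let A := AlgebraicClosure Om
  have : ExpChar A p := expChar_of_injective_algebraMap (algebraMap Om A).injective p
  have hpi : IsPurelyInseparable Om A := inferInstance
  have hx : ∀ x : A, ∃ n : ℕ, x ^ p ^ n ∈ (algebraMap Om A).range := fun x =>
    IsPurelyInseparable.pow_mem Om p x
  choose N hN using hx
  set R := (u.map (algebraMap Om A)).roots with hRdef
  set n := R.toFinset.sup N with hn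
  refine ⟨n, ?_⟩
  have hsA : (u.map (algebraMap Om A)).Splits := IsAlgClosed.splits _
  have hcomm : (algebraMap Om A).comp (iterateFrobenius Om p n) =
      (iterateFrobenius A p n).comp (algebraMap Om A) := by
    ext x
    simp only [RingHom.comp_apply, iterateFrobenius_def, map_pow]
  refine Splits.of_splits_map (algebraMap Om A) (IsAlgClosed.splits _) ?_
  intro z hz
  rw [Polynomial.map_map, hcomm, ← Polynomial.map_map, hsA.roots_map, Multiset.mem_map] at hz
  obtain ⟨x, hx, rfl⟩ := hz
  have hle : N x ≤ n := Finset.le_sup (f := N) (Multiset.mem_toFinset.mpr hx)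
  obtain ⟨y, hy⟩ := hN x
  refine ⟨y ^ p ^ (n - N x), ?_⟩
  rw [map_pow, hy, iterateFrobenius_def, ← pow_mul, ← pow_add]
  congr 2
  omega

/-- **Parity of valuations at simple roots.** -/
theorem even_val [IsGalois K Om] [IsSepClosed Om] (hL : LocHyp K w π)
    (hodd : Odd (Fintype.card ι))
    (a : ι → Om) (ha : ∀ l, ∀ s ∈ iner K w, s (a l) = a l) (k : ι)
    (hk : ∀ l, l ≠ k → w.valuation (a k - a l) = 1) (u V : Om[X]) (hu : u.Monic)
    (huI : ∀ s ∈ iner K w, u.map (s : Om →+* Om) = u)
    (hVI : ∀ s ∈ iner K w, V.map (s : Om →+* Om) = V)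
    (hdvd : u ∣ V ^ 2 - ∏ l, (X - C (a l))) (hne : u.eval (a k) ≠ 0) :
    ∃ m : ℤ, w.valuation (u.eval (a k)) = w.valuation (algebraMap K Om π) ^ (2 * m) := by
  obtain ⟨p, hp⟩ := ExpChar.exists Om
  -- the exponent is odd
  have hpodd : Odd p := by
    rcases hp with _ | hp'
    · exact odd_one
    · rcases hp'.eq_two_or_odd' with h | h
      · exfalso
        subst h
        exact hL.two_ne (CharP.cast_eq_zero Om 2)
      · exact h
  obtain ⟨n, hn⟩ := exists_split p u
  set F := iterateFrobenius Om p n with hF
  have hFx : ∀ x : Om, F x = x ^ p ^ n := fun x => iterateFrobenius_def ..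
  have hsF : ∀ (s : Om ≃ₐ[K] Om), (s : Om →+* Om).comp F = F.comp (s : Om →+* Om) := by
    intro s
    ext x
    simp only [RingHom.comp_apply, hFx, map_pow]
  have hmapF : ∀ (f : Om[X]) (s : Om ≃ₐ[K] Om), f.map (s : Om →+* Om) = f →
      (f.map F).map (s : Om →+* Om) = f.map F := by
    intro f s hs
    rw [Polynomial.map_map, hsF, ← Polynomial.map_map, hs]
  have hvF : ∀ x : Om, w.valuation (F x) = w.valuation x ^ p ^ n := by
    intro x
    rw [hFx, map_pow]
  obtain ⟨m, hm⟩ := even_val_split hL hodd (fun l => F (a l))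
    (fun l s hs => by
      have h1 := RingHom.congr_fun (hsF s) (a l)
      simp only [RingHom.comp_apply] at h1
      refine h1.trans ?_
      exact congrArg F (ha l s hs))
    k (fun l hl => by rw [← map_sub, hvF, hk l hl, one_pow]) (u.map F) (V.map F) (hu.map F)
    (fun s hs => hmapF u s (huI s hs)) (fun s hs => hmapF V s (hVI s hs))
    (by
      have h1 := Polynomial.map_dvd F hdvd
      rw [Polynomial.map_sub, Polynomial.map_pow, Polynomial.map_prod] at h1
      simpa only [Polynomial.map_sub, map_X, map_C] using h1)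
    (by
      rw [eval_map_apply]
      intro h0
      apply hne
      rw [hFx] at h0
      exact pow_eq_zero_iff (pow_ne_zero n hpodd.pos.ne') |>.mp h0)
    hn
  rw [eval_map_apply, hvF] at hm
  -- the value of `u (a k)`
  obtain ⟨i, hi⟩ := value_iner hL hne (by
    intro s hs
    have h1 := eval_map_apply (s : Om →+* Om) (p := u) (a k)
    rw [huI s hs] at h1
    have h2 : (s : Om →+* Om) (a k) = a k := ha k s hs
    rw [h2] at h1
    exact h1.symm)
  rw [hi, ← zpow_natCast, ← zpow_mul] at hm
  have h3 := hL.zpow_inj hm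
  obtain ⟨r, hr⟩ := hpodd.pow (n := n)
  refine ⟨m - r * i, ?_⟩
  rw [hi]
  congr 1
  rw [hr] at h3
  push_cast at h3
  linarith

end Pool.Agent.SmJ.Mult
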