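import Pool.Agent.Lib.SmJ.E.KF
import Pool.Agent.Lib.SmJ.E.MumfC
import Pool.Agent.Lib.SmJ.P.MultS
import Pool.Agent.Lib.Sm.P.MultA

/-!
# SMITH for Jacobians, parity, module MULT: the inertia values at a place of multiplicative
reduction, in terms of classes

`w` a valuation, `s` in the inertia group, `a` the (rational) roots, `s Q = Q + ∑ r ∈ S, ee r`,
`S` even.
`sub_pair`: if `2 Q` is fixed by inertia and `a k - a l` is a unit for all `k` different from `i`,
`j` and all `l ≠ k`, then `S ⊆ {i, j}`.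
`mem_of_odd`: if `2 Q = ee i`, the value of `a j - a i` is odd and `s` moves the square root of the
uniformizer, then `j ∈ S`.
-/

set_option autoImplicit false

open Polynomial Pool.Agent.Lib.SmD

namespace Pool.Agent.SmJ.Mult

open Pool.Agent.SmJ

variable {K Om : Type} [Field K] [Field Om] [Algebra K Om] {w : ValuationSubring Om} {π : K}
  {g : ℕ} {a : Fin (2 * g + 1) → Om} [HypA a]

theorem infinite_fixed [Infinite K] (H : Set (Om ≃ₐ[K] Om)) :
    {τ : Om | ∀ σ ∈ (fun s : Om ≃ₐ[K] Om => (s : Om ≃+* Om)) '' H, σ τ = τ}.Infinite := by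
  refine Set.Infinite.mono ?_ (Set.infinite_range_of_injective (algebraMap K Om).injective)
  rintro τ ⟨c, rfl⟩ σ ⟨s, -, rfl⟩
  exact s.commutes c

/-- a class fixed by a set of automorphisms has a fixed reduced pair -/
theorem exists_fixed {H : Set (Om ≃ₐ[K] Om)} (ha : ∀ s ∈ H, ∀ l, s (a l) = a l) {C : JJ (ff a)}
    (hC : ∀ s ∈ H, ∀ h : (ff a).map ((s : Om ≃+* Om) : Om →+* Om) = ff a,
      act (s : Om ≃+* Om) h C = C) :
    ∃ U V W : Om[X], U.Monic ∧ U.natDegree ≤ g ∧ V.degree < U.degree ∧ V ^ 2 - U * W = ff a ∧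
      (∀ s ∈ H, U.map ((s : Om ≃+* Om) : Om →+* Om) = U) ∧
      (∀ s ∈ H, V.map ((s : Om ≃+* Om) : Om →+* Om) = V) ∧ mcl (ff a) U V = C := by
  obtain ⟨U, V, hU, hg, hV, ⟨D, hD⟩, hc⟩ := exists_red (natDegree_ff a) C
  have hfix : ∀ s ∈ H, U.map ((s : Om ≃+* Om) : Om →+* Om) = U ∧
      V.map ((s : Om ≃+* Om) : Om →+* Om) = V := by
    intro s hs
    have hm : (ff a).map ((s : Om ≃+* Om) : Om →+* Om) = ff a := map_ff _ (ha s hs)
    refine fixed_pair (natDegree_ff a) _ hm hU hg hV ⟨D, hD⟩ ?_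
    rw [hc]
    exact hC s hs hm
  exact ⟨U, V, -D, hU, hg, hV, by linear_combination -hD, fun s hs => (hfix s hs).1,
    fun s hs => (hfix s hs).2, hc⟩

/-- **Inertia values**: `S ⊆ {i, j}`. -/
theorem sub_pair [Infinite K] [IsGalois K Om] [IsSepClosed Om] (hL : LocHyp K w π)
    (ha : ∀ s : Om ≃ₐ[K] Om, ∀ l, s (a l) = a l) {i j : Fin (2 * g + 1)}
    (hk : ∀ k, k ≠ i → k ≠ j → ∀ l, l ≠ k → w.valuation (a k - a l) = 1) {Q : JJ (ff a)}
    (hQ : ∀ s ∈ iner K w, ∀ h : (ff a).map ((s : Om ≃+* Om) : Om →+* Om) = ff a,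
      act (s : Om ≃+* Om) h (2 • Q) = 2 • Q)
    {s : Om ≃ₐ[K] Om} (hs : s ∈ iner K w) {S : Finset (Fin (2 * g + 1))} (hS : Even S.card)
    (hact : act (s : Om ≃+* Om) (map_ff _ (ha s)) Q = Q + ∑ r ∈ S, ee a r) :
    ∀ k ∈ S, k = i ∨ k = j := by
  obtain ⟨U, V, W, hU, hg, hV, he, hfU, hfV, hc⟩ := exists_fixed
    (H := (iner K w : Set (Om ≃ₐ[K] Om))) (fun s _ => ha s) hQ
  obtain ⟨ρ, hρ, hρ'⟩ := kform hU hV hg he hc
    (H := (fun s : Om ≃ₐ[K] Om => (s : Om ≃+* Om)) '' (iner K w : Set (Om ≃ₐ[K] Om)))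
    (infinite_fixed _) (by rintro σ ⟨t, ht, rfl⟩; exact hfU t ht)
    (by rintro σ ⟨t, ht, rfl⟩; exact hfV t ht)
  intro k hkS
  by_contra hne
  push Not at hne
  have h20 : (2 : Om) ≠ 0 := HypA.two a
  have hu := hk k hne.1 hne.2
  have hdvd : U ∣ V ^ 2 - ff a := ⟨W, by linear_combination he⟩
  -- the value of `al`
  have hev : ∃ m : ℤ, w.valuation (ρ k ^ 2) = w.valuation (algebraMap K Om π) ^ (2 * m) := by
    have hodd : Odd (Fintype.card (Fin (2 * g + 1))) := ⟨g, by simp⟩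
    rw [hρ k, al, map_mul, map_pow, Valuation.map_neg, map_one, one_pow, one_mul]
    by_cases h0 : U.eval (a k) = 0
    · rw [if_pos h0]
      obtain ⟨d1, d2⟩ := W_deg hU hV hg he
      have hWm : (-W).Monic := by rw [Monic, leadingCoeff_neg, d2, neg_neg]
      have hfW : ∀ t ∈ iner K w, (-W).map ((t : Om ≃+* Om) : Om →+* Om) = -W := by
        intro t ht
        have h3 : U * (W.map ((t : Om ≃+* Om) : Om →+* Om)) = U * W := by
          have h4 := congrArg (Polynomial.map ((t : Om ≃+* Om) : Om →+* Om)) he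
          rw [map_ff _ (ha t), Polynomial.map_sub, Polynomial.map_pow, Polynomial.map_mul,
            hfU t ht, hfV t ht] at h4
          linear_combination he - h4
        rw [Polynomial.map_neg, mul_left_cancel₀ hU.ne_zero h3]
      obtain ⟨m, hm⟩ := even_val hL hodd a (fun l t _ => ha t l) k hu (-W) V hWm
        (fun t ht => hfW t ht) (fun t ht => hfV t ht)
        ⟨-U, by
          change V ^ 2 - ff a = _
          linear_combination he⟩ (by
          rw [eval_neg]
          exact neg_ne_zero.mpr (W_eval_ne he h0).2)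
      refine ⟨m, ?_⟩
      rw [eval_neg, Valuation.map_neg] at hm
      exact hm
    · rw [if_neg h0]
      exact even_val hL hodd a (fun l t _ => ha t l) k hu U V hU (fun t ht => hfU t ht)
        (fun t ht => hfV t ht) hdvd h0
  obtain ⟨m, hm⟩ := hev
  -- the two descriptions of `s ρ`
  have h1 := (hρ' _ ⟨s, hs, rfl⟩ (map_ff _ (ha s)) id (fun l => ha s l) S hS hact k).2 hkS
  have h2 : s (ρ k) = -ρ k := h1
  have h3 : s (ρ k) = ρ k := by
    refine Pool.Agent.Sm.Mult.fix_even hL hs (n := m) ?_ hm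
    rw [map_pow, h2, neg_sq]
  have h4 : ρ k = 0 := by
    have h5 : 2 * ρ k = 0 := by linear_combination h2 - h3
    exact (mul_eq_zero.mp h5).resolve_left h20
  have h6 := hρ k
  rw [h4, zero_pow two_ne_zero] at h6
  exact al_ne_zero he k h6.symm

/-- the class of a branch point as a Mumford pair -/
theorem mcl_br (i : Fin (2 * g + 1)) : mcl (ff a) (X - C (a i)) 0 = ee a i := by
  have h := mumf_pt (br a i)
  have e : (C (br a i).y : Om[X]) = 0 := by
    change (C (0 : Om) : Om[X]) = 0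
    exact C_0
  change mcl (ff a) (X - C (a i)) (C (br a i).y) = _ at h
  rw [e] at h
  exact h

omit [HypA a] in
theorem ff_split (i : Fin (2 * g + 1)) : (0 : Om[X]) ^ 2 -
    (X - C (a i)) * (-∏ l ∈ Finset.univ.erase i, (X - C (a l))) = ff a := by
  rw [ff, ← Finset.mul_prod_erase _ _ (Finset.mem_univ i)]
  ring

/-- **Ramified elements**: `j ∈ S`. -/
theorem mem_of_odd [Infinite K] (hL : LocHyp K w π) (ha : ∀ s : Om ≃ₐ[K] Om, ∀ l, s (a l) = a l)
    {i j : Fin (2 * g + 1)} (hij : i ≠ j) {n : ℤ}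
    (hn : w.valuation (a i - a j) = w.valuation (algebraMap K Om π) ^ (2 * n + 1))
    {Q : JJ (ff a)} (hQ : 2 • Q = ee a i) {s : Om ≃ₐ[K] Om} (hs : s ∈ iner K w) {r : Om}
    (hr : r ^ 2 = algebraMap K Om π) (hsr : s r = -r) {S : Finset (Fin (2 * g + 1))}
    (hS : Even S.card)
    (hact : act (s : Om ≃+* Om) (map_ff _ (ha s)) Q = Q + ∑ r ∈ S, ee a r) : j ∈ S := by
  have h20 : (2 : Om) ≠ 0 := HypA.two a
  have hg : 1 ≤ g := by
    by_contra hg
    have h1 := i.2
    have h2 := j.2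
    exact hij (Fin.ext (by omega))
  have he := ff_split (a := a) i
  obtain ⟨ρ, hρ, hρ'⟩ := kform (monic_X_sub_C (a i)) (by
      rw [degree_zero, degree_X_sub_C]
      exact bot_lt_iff_ne_bot.mpr (by decide)) (by rw [natDegree_X_sub_C]; exact hg) he
    ((mcl_br i).trans hQ.symm)
    (H := (fun s : Om ≃ₐ[K] Om => (s : Om ≃+* Om)) '' ({s} : Set (Om ≃ₐ[K] Om)))
    (infinite_fixed _) (by
      rintro σ ⟨t, -, rfl⟩
      rw [Polynomial.map_sub, map_X, map_C]
      congr 2
      exact ha t i) (by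
      rintro σ ⟨t, -, rfl⟩
      exact Polynomial.map_zero _)
  by_contra hj
  have h1 := (hρ' _ ⟨s, rfl, rfl⟩ (map_ff _ (ha s)) id (fun l => ha s l) S hS hact j).1 hj
  have h2 : s (ρ j) = ρ j := h1
  have hne : a j - a i ≠ 0 := fun h => hij ((HypA.inj (a := a)) (sub_eq_zero.mp h).symm)
  have hρj : ρ j ^ 2 = -(a j - a i) := by
    rw [hρ j, al, natDegree_X_sub_C, pow_one, if_neg (by simpa using hne)]
    simp
  have h3 : s (ρ j) = -ρ j := by
    refine Pool.Agent.Sm.Mult.move_odd hL hs hr hsr (n := n) ?_ ?_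
    · rw [map_pow, h2]
    · rw [hρj, neg_sub]
      exact hn
  have h4 : ρ j = 0 := by
    have h5 : 2 * ρ j = 0 := by linear_combination h3 - h2
    exact (mul_eq_zero.mp h5).resolve_left h20
  rw [h4, zero_pow two_ne_zero] at hρj
  exact hne (neg_eq_zero.mp hρj.symm)

end Pool.Agent.SmJ.Mult
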