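import Pool.Agent.Lib.SmJ.P.Par
import Pool.Agent.Lib.SmJ.P.AltW
import Pool.Agent.Lib.SmJ.G.TowerJ

/-!
# SMITH for Jacobians, block P, module ParJ: the parity theorem for the tower of a vector of primes

If the tower is alternating (`altn_twJ_weil`: Weil pairings and the reciprocity `RecipM`), the number
of Selmer cocycles of level `i` of the twist by `∏ j, p j` grows like `#V1 ^ i` if `#Sel1` is a power
of `4`, and like `(2 #V1) ^ i` if not, provided `#SelZ n < (4 #V1) ^ n` for some `n`.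
-/

set_option autoImplicit false

open Polynomial Module

namespace Pool.Agent.SmJ

variable {k : Type} [Field k] {G V V1 Pl : Type} {M : Type*} [Group G] [AddCommGroup V]
  [DistribMulAction G V] [AddCommGroup V1] [Module (ZMod 2) V1]
  [AddCommGroup M] [DistribMulAction G M]
variable {S : Sys G V V1 Pl} {ch : k[X] → G → ZMod 2} {d : TwData k V1} {J : Type}
  [Fintype J] {p : J → k[X]}

/-- The tower is alternating. -/
theorem altn_twJ_weil (h : S.Ok) (hc : CodeOk S ch d p) {e : ℕ → V → V → M} {z : ZMod 2 →+ M}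
    (hw : Weil S e z) (hR : S.RecipM z) :
    (twJ S h ch d p).Altn := fun _ _ hm => Weil.ct_top_self h hw hR hc.chi hm

theorem kapJ_inj (h : S.Ok) (hc : CodeOk S ch d p) : Function.Injective (kapJ d J) := by
  intro w w' hw
  obtain ⟨z, hz⟩ := h.half (S.iota w)
  obtain ⟨z', hz'⟩ := h.half (S.iota w')
  have h1 : ∀ s, dl (chiJ ch p) (z - z') s = 0 := fun s => by
    rw [dl_sub, ← hc.kap w z hz s, ← hc.kap w' z' hz' s, hw, sub_self]
  have h2 := hc.inv h h1
  rw [smul_sub, hz, hz', sub_eq_zero] at h2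
  exact h.iota_inj h2

theorem card_Kp_twJ (h : S.Ok) (hc : CodeOk S ch d p) :
    Nat.card (twJ S h ch d p).Kp = Nat.card V1 := by
  let f : V1 → (twJ S h ch d p).Kp := fun w => ⟨kapJ d J w, (mem_twJ_Kp h hc _).mpr ⟨w, rfl⟩⟩
  have hs : Function.Surjective f := by
    rintro ⟨a, ha⟩
    obtain ⟨w, rfl⟩ := (mem_twJ_Kp h hc a).mp ha
    exact ⟨w, rfl⟩
  have hi : Function.Injective f := fun w w' hw => kapJ_inj h hc (congrArg Subtype.val hw)
  exact (Nat.card_congr (Equiv.ofBijective f ⟨hi, hs⟩)).symm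

private theorem ParJ_card {E : Type*} [AddCommGroup E] [Module (ZMod 2) E]
    [Module.Finite (ZMod 2) E] : Nat.card E = 2 ^ finrank (ZMod 2) E := by
  rw [Module.natCard_eq_pow_finrank (K := ZMod 2), Nat.card_eq_fintype_card, ZMod.card]

theorem finrank_Kp_twJ (h : S.Ok) (hc : CodeOk S ch d p) :
    finrank (ZMod 2) (twJ S h ch d p).Kp = finrank (ZMod 2) V1 := by
  have hf1 := h.fin1
  have hfC : Finite (CodeJ d J) := (twJ_ok h hc).fin
  have hm1 : Module.Finite (ZMod 2) V1 := Module.Finite.of_finite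
  have hmC : Module.Finite (ZMod 2) (CodeJ d J) := Module.Finite.of_finite
  have h1 := card_Kp_twJ h hc
  rw [ParJ_card, ParJ_card (E := V1)] at h1
  exact Nat.pow_right_injective le_rfl h1

theorem card_Sel1_twJ (h : S.Ok) (hc : CodeOk S ch d p) :
    Nat.card (S.Sel1 h (chiJ ch p)) = 2 ^ finrank (ZMod 2) (twJ S h ch d p).Fs := by
  have hfC : Finite (CodeJ d J) := (twJ_ok h hc).fin
  have hmC : Module.Finite (ZMod 2) (CodeJ d J) := Module.Finite.of_finite
  let f : (twJ S h ch d p).Fs → S.Sel1 h (chiJ ch p) := fun a => ⟨homJ ch d p a.1, a.2⟩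
  have hs : Function.Surjective f := by
    rintro ⟨b, hb⟩
    obtain ⟨c, rfl⟩ := hc.surj b hb
    exact ⟨⟨c, (mem_twJ_Fs S h ch d p c).mpr hb⟩, rfl⟩
  have hi : Function.Injective f := fun a b hab =>
    Subtype.ext (hc.inj (congrArg Subtype.val hab))
  rw [← Nat.card_congr (Equiv.ofBijective f ⟨hi, hs⟩), ParJ_card]

theorem even_Fs_iff (h : S.Ok) (hc : CodeOk S ch d p) :
    Even (finrank (ZMod 2) (twJ S h ch d p).Fs) ↔
      ∃ r : ℕ, Nat.card (S.Sel1 h (chiJ ch p)) = 4 ^ r := by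
  rw [card_Sel1_twJ h hc]
  constructor
  · rintro ⟨r, hr⟩
    exact ⟨r, by rw [hr, ← two_mul, pow_mul]; norm_num⟩
  · rintro ⟨r, hr⟩
    refine ⟨r, ?_⟩
    have h1 : (2 : ℕ) ^ finrank (ZMod 2) (twJ S h ch d p).Fs = 2 ^ (r + r) := by
      rw [hr, ← two_mul, pow_mul]; norm_num
    exact Nat.pow_right_injective le_rfl h1

private theorem ParJ_four (h : S.Ok) :
    4 * Nat.card V1 = 2 ^ (finrank (ZMod 2) V1 + 2) ∧
      2 * Nat.card V1 = 2 ^ (finrank (ZMod 2) V1 + 1) ∧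
      Nat.card V1 = 2 ^ finrank (ZMod 2) V1 := by
  have hf1 := h.fin1
  have hm1 : Module.Finite (ZMod 2) V1 := Module.Finite.of_finite
  have h1 : Nat.card V1 = 2 ^ finrank (ZMod 2) V1 := ParJ_card
  rw [h1, pow_add, pow_add]
  exact ⟨by ring, by ring, rfl⟩

/-- Parity theorem, even case. -/
theorem selZ_even (h : S.Ok) (hc : CodeOk S ch d p) (ha : (twJ S h ch d p).Altn) {n : ℕ}
    (hn : Nat.card (S.SelZ h (chiJ ch p) n) < (4 * Nat.card V1) ^ n)
    (hr : ∃ r : ℕ, Nat.card (S.Sel1 h (chiJ ch p)) = 4 ^ r) :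
    ∃ B : ℕ, ∀ i, Nat.card (S.SelZ h (chiJ ch p) i) ≤ B * (Nat.card V1) ^ i := by
  have hf1 := h.fin1
  obtain ⟨h4, -, h1⟩ := ParJ_four h
  rw [h4] at hn
  rw [h1]
  exact Tower.card_Z_even (twJ_ok h hc) ha (even_finrank_of_alt S.e h.e_alt h.e_nondeg)
    (finrank_Kp_twJ h hc) ((even_Fs_iff h hc).mpr hr) hn

/-- Parity theorem, odd case. -/
theorem selZ_odd (h : S.Ok) (hc : CodeOk S ch d p) (ha : (twJ S h ch d p).Altn) {n : ℕ}
    (hn : Nat.card (S.SelZ h (chiJ ch p) n) < (4 * Nat.card V1) ^ n)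
    (hr : ¬ ∃ r : ℕ, Nat.card (S.Sel1 h (chiJ ch p)) = 4 ^ r) :
    (∀ i, (2 * Nat.card V1) ^ i ≤ Nat.card (S.SelZ h (chiJ ch p) i)) ∧
      ∃ B : ℕ, ∀ i, Nat.card (S.SelZ h (chiJ ch p) i) ≤ B * (2 * Nat.card V1) ^ i := by
  have hf1 := h.fin1
  obtain ⟨h4, h2, -⟩ := ParJ_four h
  rw [h4] at hn
  rw [h2]
  exact Tower.card_Z_odd (twJ_ok h hc) ha (even_finrank_of_alt S.e h.e_alt h.e_nondeg)
    (finrank_Kp_twJ h hc) (fun h1 => hr ((even_Fs_iff h hc).mp h1)) hn

end Pool.Agent.SmJ
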