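import Pool.Agent.Lib.SmJ.P.RedM
import Pool.Agent.Lib.Sm.P.MuLoc
import Pool.Agent.Lib.SmD.Main

/-!
# SMITH for Jacobians, block P (parity), module MInst: the facts `MOk` for `MuT Ω` over `k(t)`
-/

set_option autoImplicit false

open Polynomial Pool.Agent.BSDFF Pool.Agent.Lib.SmD

namespace Pool.Agent.SmJ

section

variable {G V V1 Pl M : Type*} [Group G] [AddCommGroup V] [DistribMulAction G V]
  [AddCommGroup V1] [Module (ZMod 2) V1] [AddCommGroup M] [DistribMulAction G M]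

namespace Sys

variable {S : Sys G V V1 Pl}

/-- A 2-finite cocycle on `D v` with values in `M` is determined by its values at `sg v`, `phi v`. -/
theorem cocM_zero (h : S.Ok) (v : Pl) {c : G → M} (hf : S.TFOn (S.D v) c)
    (hc : ∀ s ∈ S.D v, ∀ t ∈ S.D v, c (s * t) = c s + s • c t)
    (h1 : c (S.sg v) = 0) (h2 : c (S.phi v) = 0) : ∀ s ∈ S.D v, c s = 0 := by
  have hcl : Subgroup.closure {S.phi v, S.sg v} ≤ S.D v := by
    rw [Subgroup.closure_le]
    rintro x (rfl | rfl)
    · exact h.phi_mem v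
    · exact h.sg_mem v
  have hone : c 1 = 0 := by
    have := hc 1 (one_mem _) 1 (one_mem _)
    rw [one_mul, one_smul] at this
    exact left_eq_add.mp this
  have hz : ∀ x ∈ Subgroup.closure {S.phi v, S.sg v}, c x = 0 := by
    intro x hx
    refine Subgroup.closure_induction (p := fun x _ => c x = 0) ?_ hone ?_ ?_ hx
    · rintro y (rfl | rfl)
      · exact h2
      · exact h1
    · intro a b ha hb ha' hb'
      rw [hc a (hcl ha) b (hcl hb), ha', hb', smul_zero, add_zero]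
    · intro a ha ha'
      have := hc a⁻¹ ((S.D v).inv_mem (hcl ha)) a (hcl ha)
      rw [inv_mul_cancel, hone, ha', smul_zero, add_zero] at this
      exact this.symm
  intro s hs
  obtain ⟨N, hN, hNc⟩ := hf
  obtain ⟨t, ht, hts⟩ := gen h v hN hs
  have := hNc t (hcl ht) (t⁻¹ * s) hts ((S.D v).mul_mem ((S.D v).inv_mem (hcl ht)) hs)
  rw [mul_inv_cancel_left] at this
  rw [this, hz t ht]

/-- Kummer theory in the form: every value at `sg v` is attained by a cocycle, `sg v` acts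
trivially on `M` and `phi v - 1` is surjective on `M`. -/
theorem l90_of (h : S.Ok) (v : Pl) (half : ∀ m : M, ∃ m', (2 : ℕ) • m' = m)
    (act : ∀ m : M, ∃ N ∈ S.NN, ∀ s ∈ N, s • m = m)
    (kum : ∀ m : M, ∃ κ : G → M, S.TFOn (S.D v) κ ∧
      (∀ s ∈ S.D v, ∀ t ∈ S.D v, κ (s * t) = κ s + s • κ t) ∧ κ (S.sg v) = m)
    (hsg : ∀ m : M, S.sg v • m = m) (hphi : ∀ m : M, ∃ m', S.phi v • m' - m' = m)
    (z : G → M) (hz : S.TFOn (S.D v) z)
    (hzc : ∀ s ∈ S.D v, ∀ t ∈ S.D v, z (s * t) = z s + s • z t) :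
    ∃ (z' : G → M) (m : M), S.TFOn (S.D v) z' ∧
      (∀ s ∈ S.D v, ∀ t ∈ S.D v, z' (s * t) = z' s + s • z' t) ∧
      ∀ s ∈ S.D v, z s = (2 : ℕ) • z' s + (s • m - m) := by
  obtain ⟨a, ha⟩ := half (z (S.sg v))
  obtain ⟨κ, hκ, hκc, hκs⟩ := kum a
  obtain ⟨m, hm⟩ := hphi (z (S.phi v) - (2 : ℕ) • κ (S.phi v))
  obtain ⟨N, hN, hN'⟩ := act m
  refine ⟨κ, m, hκ, hκc, fun s hs => ?_⟩
  have h5 : S.TFOn (S.D v) (fun s : G => s • m) :=
    ⟨N, hN, fun s _ n hn _ => by beta_reduce; rw [mul_smul, hN' n hn]⟩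
  have key := cocM_zero h v (c := fun s => z s - (2 : ℕ) • κ s - (s • m - m))
    (TFOn.comp₂ h (TFOn.comp₂ h hz hκ (fun a b => a - (2 : ℕ) • b)) h5 (fun a b => a - (b - m)))
    (fun s hs t ht => by
      beta_reduce
      rw [hzc s hs t ht, hκc s hs t ht, mul_smul]
      simp only [smul_sub, smul_add, smul_comm s (2 : ℕ)]
      abel)
    (by
      beta_reduce
      rw [hκs, ha, hsg]
      abel)
    (by
      beta_reduce
      rw [hm]
      abel) s hs
  beta_reduce at key
  rw [sub_sub, sub_eq_zero] at key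
  exact key

end Sys

end

section

open Pool.Agent.SmP

variable {k : Type} [Field k] [Finite k] {Ω : Type} [Field Ω] [Algebra (RatFunc k) Ω]
  [IsSepClosure (RatFunc k) Ω] {V V1 : Type*} [AddCommGroup V]
  [DistribMulAction (Ω ≃ₐ[RatFunc k] Ω) V] [AddCommGroup V1] [Module (ZMod 2) V1]

/-- The facts on `M` for every system over `k(t)` with the concrete groups. -/
theorem Sys.mok_ratFunc {S : Sys (Ω ≃ₐ[RatFunc k] Ω) V V1 (Place k (RatFunc k))}
    (h2 : (2 : k) ≠ 0) (hok : S.Ok) (hNN : S.NN = SmD.NN (RatFunc k) Ω)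
    (hsg : ∀ v, S.sg v = Pool.Agent.Lib.SmD.sg Ω v) (hph : ∀ v, S.phi v = ph Ω v) :
    S.MOk (hfM Ω) := by
  have hsc : IsSepClosed Ω := IsSepClosure.sep_closed (RatFunc k)
  have hgal : IsGalois (RatFunc k) Ω := inferInstance
  obtain ⟨p, hp⟩ := CharP.exists k
  have hpp : p.Prime := CharP.char_is_prime k p
  have hfp : Fact p.Prime := ⟨hpp⟩
  have hpK : CharP (RatFunc k) p :=
    charP_of_injective_algebraMap (algebraMap k (RatFunc k)).injective p
  have hpΩ : CharP Ω p :=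
    charP_of_injective_algebraMap (algebraMap (RatFunc k) Ω).injective p
  have h20 : (2 : Ω) ≠ 0 := by
    rw [← map_ofNat (algebraMap (RatFunc k) Ω) 2, ← map_ofNat (algebraMap k (RatFunc k)) 2]
    exact (map_ne_zero_iff _ (algebraMap (RatFunc k) Ω).injective).2
      ((map_ne_zero_iff _ (algebraMap k (RatFunc k)).injective).2 h2)
  have hodd : Odd p := by
    rcases hpp.eq_two_or_odd' with h | h
    · exfalso
      apply h2
      have := CharP.cast_eq_zero k p
      rw [h] at this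
      exact_mod_cast this
    · exact h
  have hact : ∀ m : MuT Ω, ∃ N ∈ S.NN, ∀ s ∈ N, s • m = m := by
    rw [hNN]
    exact MuT.act h20
  refine
    { half := MuT.half h20
      tors := MuT.tors
      inj := hfM_inj h20
      two := MuT.two h20
      act := hact
      l90 := fun v z hz hzc => ?_ }
  refine Sys.l90_of hok v (MuT.half h20) hact (fun m => ?_) (fun m => ?_) (fun m => ?_)
    z hz hzc
  · obtain ⟨π, hπ, hL⟩ := exists_locHyp (Om := Ω) h2 v
    obtain ⟨κ, ⟨N, hN, h1⟩, h3, h4⟩ := exists_kummer h20 hL.pi_ne (chi_sg_irr (Om := Ω) h2 v hπ) m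
    exact ⟨κ, ⟨N, by rw [hNN]; exact hN, fun s _ n hn _ => h1 s n hn⟩, fun s _ t _ => h3 s t,
      by rw [hsg]; exact h4⟩
  · rw [hsg]
    exact MuT.smul_iner hodd (sg_iner (Om := Ω) h2 v) m
  · rw [hph]
    have hfin := finite_residue_below (Om := Ω) v
    refine MuT.frob_sub h20 hodd (ph_frob (Om := Ω) v) ?_ m
    exact Finite.one_lt_card

end

end Pool.Agent.SmJ
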