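import Pool.Agent.Lib.SmJ.P.Mult
import Pool.Agent.Lib.SmJ.P.MInst
import Pool.Agent.Lib.SmJ.Inst.Inst

/-!
# SMITH for Jacobians, parity: the modules MULT and MInst for the instance `sysOf`
-/

set_option autoImplicit false

open Polynomial Pool.Agent.BSDFF Pool.Agent.Lib.SmD Pool.Agent.BSDP.R

namespace Pool.Agent.SmJ

open L Sys Pool.Agent.SmP

variable {k : Type} [Field k] [Finite k] {Ω : Type} [Field Ω] [Algebra (RatFunc k) Ω]
  [IsSepClosure (RatFunc k) Ω] {g : ℕ}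

/-- An edge of `brGraph a`: the Kummer groups of two unramified twists which differ at the
Frobenius intersect in a group with `#V1 / 2` elements. -/
theorem sysOf_card_inf (a : Fin (2 * g + 1) → k[X]) [HypP a] (h : (sysOf Ω a).Ok) {P : k[X]}
    (hP : Irreducible P) {i j : Fin (2 * g + 1)} (hij : i ≠ j)
    (hodd : Odd (multiplicity P (a i - a j)))
    (hun : ∀ r s, r ≠ s → ¬ ((r = i ∧ s = j) ∨ (r = j ∧ s = i)) → ¬ P ∣ a r - a s)
    {chi chi' : (Ω ≃ₐ[RatFunc k] Ω) → ZMod 2} (hchi : (sysOf Ω a).HomG chi)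
    (hchi' : (sysOf Ω a).HomG chi') (h0 : chi (sg Ω (placeOf P hP)) = 0)
    (h0' : chi' (sg Ω (placeOf P hP)) = 0)
    (hph : chi (ph Ω (placeOf P hP)) ≠ chi' (ph Ω (placeOf P hP))) :
    2 * Nat.card ((sysOf Ω a).W chi (placeOf P hP) ⊓ (sysOf Ω a).W chi' (placeOf P hP) :
      AddSubgroup (EV g × EV g)) = Nat.card (EV g) :=
  Mult.card_inf_mult (HypP.two a) h rfl (fun _ => rfl) (fun _ => rfl)
    (b := rts Ω (rfa a)) (fun _ => rfl) (VJ Ω (rfa a)).subtype
    (fun _ _ _ => rfl) (fun _ => rfl) hP hij hodd hun hchi hchi' h0 h0' hph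

/-- The hypotheses on the roots of unity. -/
theorem sysOf_mok (a : Fin (2 * g + 1) → k[X]) [HypP a] (h : (sysOf Ω a).Ok) :
    (sysOf Ω a).MOk (hfM Ω) :=
  mok_ratFunc (HypP.two a) h rfl (fun _ => rfl) (fun _ => rfl)

end Pool.Agent.SmJ
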