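import Pool.Agent.Lib.SmJ.P.WJ2
import Pool.Agent.Lib.SmJ.P.Weil
import Pool.Agent.Lib.SmJ.L.GenGraph
import Pool.Agent.Lib.Sm.P.Mu

/-!
# SMITH for Jacobians, block P, module WJ3: the Weil pairing as an instance of `SmJ.Weil`

`wM m x y : MuT Om` is the pairing on the `2 ^ m`-torsion of `JJ f`, written additively;
`weil_inst`: for every `S : Sys G V (EV g) Pl` with a map `inc : V →+ JJ (ff a)` which
respects the action and with the usual `iota`, `e` the functions `wM m (inc x) (inc y)` are a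
compatible family of alternating pairings.
-/

set_option autoImplicit false
set_option linter.unusedSectionVars false

open Polynomial

namespace Pool.Agent.SmJ

open Pool.Agent.SmP Pool.Agent.SmJ.L

variable {Om : Type} [Field Om]

section wM

variable {f : Om[X]} [Hyp f] [Infinite Om]

theorem wM_aux {m : ℕ} {x y : JJ f}
    (h : 1 ≤ m ∧ (2 : ℕ) ^ m • x = 0 ∧ (2 : ℕ) ^ m • y = 0) : wn (2 ^ m) x y ^ 2 ^ m = 1 :=
  wn_pow ((Nat.even_pow.2 ⟨even_two, by omega⟩)) h.2.1 h.2.2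

open Classical in
/-- The Weil pairing on the `2 ^ m`-torsion. -/
noncomputable def wM (m : ℕ) (x y : JJ f) : MuT Om :=
  if h : 1 ≤ m ∧ (2 : ℕ) ^ m • x = 0 ∧ (2 : ℕ) ^ m • y = 0 then
    MuT.mk (wn (2 ^ m) x y) m (wM_aux h) else 0

theorem wM_el {m : ℕ} {x y : JJ f}
    (h : 1 ≤ m ∧ (2 : ℕ) ^ m • x = 0 ∧ (2 : ℕ) ^ m • y = 0) : (wM m x y).el = wn (2 ^ m) x y := by
  rw [wM, dif_pos h, MuT.el_mk]

theorem wM_zero (x y : JJ f) : wM 0 x y = 0 := by
  rw [wM, dif_neg]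
  rintro ⟨h, -⟩
  omega

theorem even_pow {m : ℕ} (h : 1 ≤ m) : Even (2 ^ m) := Nat.even_pow.2 ⟨even_two, by omega⟩

theorem wM_add_left (m : ℕ) {x x' y : JJ f} (hx : (2 : ℕ) ^ m • x = 0) (hx' : (2 : ℕ) ^ m • x' = 0)
    (hy : (2 : ℕ) ^ m • y = 0) : wM m (x + x') y = wM m x y + wM m x' y := by
  rcases Nat.eq_zero_or_pos m with rfl | h
  · rw [wM_zero, wM_zero, wM_zero, add_zero]
  · apply MuT.el_inj
    rw [MuT.el_add, wM_el ⟨h, by rw [smul_add, hx, hx', add_zero], hy⟩, wM_el ⟨h, hx, hy⟩,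
      wM_el ⟨h, hx', hy⟩, wn_add_left (even_pow h) hx hx' hy]

theorem wM_add_right (m : ℕ) {x y y' : JJ f} (hx : (2 : ℕ) ^ m • x = 0) (hy : (2 : ℕ) ^ m • y = 0)
    (hy' : (2 : ℕ) ^ m • y' = 0) : wM m x (y + y') = wM m x y + wM m x y' := by
  rcases Nat.eq_zero_or_pos m with rfl | h
  · rw [wM_zero, wM_zero, wM_zero, add_zero]
  · apply MuT.el_inj
    rw [MuT.el_add, wM_el ⟨h, hx, by rw [smul_add, hy, hy', add_zero]⟩, wM_el ⟨h, hx, hy⟩,
      wM_el ⟨h, hx, hy'⟩, wn_add_right (even_pow h) hx hy hy']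

theorem wM_alt (m : ℕ) {x y : JJ f} (hx : (2 : ℕ) ^ m • x = 0) (hxy : (2 : ℕ) • y = x) :
    wM m x x = 0 := by
  rcases Nat.eq_zero_or_pos m with rfl | h
  · rw [wM_zero]
  · apply MuT.el_inj
    rw [MuT.el_zero, wM_el ⟨h, hx, hx⟩, wn_alt (even_pow h) hxy hx]

theorem wM_comp (m : ℕ) {x y : JJ f} (hx : (2 : ℕ) ^ m • x = 0)
    (hy : (2 : ℕ) ^ (m + 1) • y = 0) : wM (m + 1) x y = wM m x ((2 : ℕ) • y) := by
  have hx1 : (2 : ℕ) ^ (m + 1) • x = 0 := by rw [pow_succ', mul_smul, hx, smul_zero]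
  rcases Nat.eq_zero_or_pos m with rfl | h
  · rw [pow_zero, one_smul] at hx
    subst hx
    rw [wM_zero]
    apply MuT.el_inj
    rw [MuT.el_zero, wM_el ⟨le_rfl, smul_zero _, hy⟩, wn_swap (even_pow le_rfl) hy (smul_zero _),
      wn_zero_right (even_pow le_rfl) hy, inv_one]
  · apply MuT.el_inj
    rw [wM_el ⟨by omega, hx1, hy⟩, wM_el ⟨h, hx, by rw [← mul_smul, ← pow_succ]; exact hy⟩]
    rw [pow_succ] at hy ⊢
    exact wn_comp (even_pow h) hx hy

end wM

section inst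

variable {g : ℕ} (a : Fin (2 * g + 1) → Om) [HypA a]

/-- The set of the indices where `x` is `1`. -/
def sup1 (x : EV g) : Finset (Fin (2 * g + 1)) := Finset.univ.filter fun i => x.1 i = 1

theorem sum_sup1 (x : Fin (2 * g + 1) → ZMod 2) :
    ((Finset.univ.filter fun i => x i = 1).card : ZMod 2) = ∑ i, x i := by
  have h01 : ∀ t : ZMod 2, t = if t = 1 then 1 else 0 := by decide
  rw [Finset.sum_congr rfl fun i _ => h01 (x i), Finset.sum_boole]

theorem sup1_even (x : EV g) : Even (sup1 x).card := by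
  have h : ((sup1 x).card : ZMod 2) = 0 := by
    rw [sup1, sum_sup1]
    exact x.2
  rw [even_iff_two_dvd]
  exact (ZMod.natCast_eq_zero_iff _ 2).1 h

theorem dotE_card (x y : EV g) : dotE g x y = ((sup1 x ∩ sup1 y).card : ZMod 2) := by
  rw [dotE_apply, ← sum_sup1]
  congr 2
  ext i
  rw [Finset.mem_filter, Finset.mem_inter, sup1, sup1, Finset.mem_filter, Finset.mem_filter]
  have h : ∀ s t : ZMod 2, s * t = 1 ↔ s = 1 ∧ t = 1 := by decide
  rw [h]
  simp

variable [IsSepClosed Om] [Infinite Om]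

theorem el_hfM_natCast (n : ℕ) (h2 : (2 : Om) ≠ 0) : (hfM Om (n : ZMod 2)).el = (-1) ^ n := by
  have h := hfM_intCast (Ω := Om) (n : ℤ)
  rw [Int.cast_natCast] at h
  rw [h, natCast_zsmul, MuT.el_nsmul, el_zet_one h2]

theorem wM_one (x y : EV g) : wM 1 (∑ i ∈ sup1 x, ee a i) (∑ i ∈ sup1 y, ee a i) =
    hfM Om (dotE g x y) := by
  have h1 : ∀ S : Finset (Fin (2 * g + 1)), (2 : ℕ) ^ 1 • ∑ i ∈ S, ee a i = 0 := by
    intro S
    rw [pow_one, Finset.smul_sum]
    exact Finset.sum_eq_zero fun i _ => wj_two_ee a i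
  apply MuT.el_inj
  rw [wM_el ⟨le_rfl, h1 _, h1 _⟩, dotE_card, el_hfM_natCast _ (HypA.two a), pow_one,
    wn_two a _ _ (sup1_even y)]

/-- **The Weil pairing.** -/
theorem weil_inst {K : Type} [Field K] [Algebra K Om] {V Pl : Type*} [AddCommGroup V]
    [DistribMulAction (Om ≃ₐ[K] Om) V] (S : Sys (Om ≃ₐ[K] Om) V (EV g) Pl) (inc : V →+ JJ (ff a))
    (ha : ∀ (s : Om ≃ₐ[K] Om) (i), s (a i) = a i)
    (hact : ∀ (s : Om ≃ₐ[K] Om) (x : V),
      inc (s • x) = act (s : Om ≃+* Om) (map_ff (s : Om ≃+* Om) (ha s)) (inc x))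
    (hi : ∀ x : EV g, inc (S.iota x) = ∑ i ∈ sup1 x, ee a i) (he : S.e = dotE g)
    (half : ∀ Q : V, ∃ R, (2 : ℕ) • R = Q) :
    Weil S (fun m x y => wM m (inc x) (inc y)) (hfM Om) where
  add_left m x x' y hx hx' hy := by
    rw [map_add]
    exact wM_add_left m (by rw [← map_nsmul, hx, map_zero]) (by rw [← map_nsmul, hx', map_zero])
      (by rw [← map_nsmul, hy, map_zero])
  add_right m x y y' hx hy hy' := by
    rw [map_add]
    exact wM_add_right m (by rw [← map_nsmul, hx, map_zero]) (by rw [← map_nsmul, hy, map_zero])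
      (by rw [← map_nsmul, hy', map_zero])
  alt m x hx := by
    obtain ⟨R, hR⟩ := half x
    exact wM_alt m (by rw [← map_nsmul, hx, map_zero]) (y := inc R) (by rw [← map_nsmul, hR])
  comp m x y hx hy := by
    rw [map_nsmul]
    exact wM_comp m (by rw [← map_nsmul, hx, map_zero]) (by rw [← map_nsmul, hy, map_zero])
  equiv m s x y hx hy := by
    have hx' : (2 : ℕ) ^ m • inc x = 0 := by rw [← map_nsmul, hx, map_zero]
    have hy' : (2 : ℕ) ^ m • inc y = 0 := by rw [← map_nsmul, hy, map_zero]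
    rw [hact, hact]
    rcases Nat.eq_zero_or_pos m with rfl | h
    · rw [wM_zero, wM_zero, smul_zero]
    · apply MuT.el_inj
      rw [MuT.el_smul, wM_el ⟨h, hx', hy'⟩, wM_el ⟨h, by rw [← map_nsmul, hx', map_zero],
        by rw [← map_nsmul, hy', map_zero]⟩, wn_act (even_pow h) _ _ hx' hy']
      rfl
  one w w' := by
    rw [hi, hi, he, wM_one]
  fix s t := by
    obtain ⟨n, rfl⟩ := ZMod.natCast_zmod_surjective t
    apply MuT.el_inj
    rw [MuT.el_smul, el_hfM_natCast _ (HypA.two a), map_pow, map_neg, map_one]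

end inst

end Pool.Agent.SmJ
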