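import Pool.Agent.Lib.Sm.P.Equi
import Pool.Agent.Lib.SmJ.P.Kramer
import Pool.Agent.Lib.SmJ.P.ParJ
import Pool.Agent.Lib.SmJ.I.Code
import Pool.Agent.Lib.SmK.Grid

/-!
SMITH for Jacobians over `F_q(t)` (MP_950c68_ag), block P (P5), general `V1`: the parity of the
dimension of the 2-Selmer group of the twist by `D` as a function of the symbols of `D` modulo the
bad primes.

`W_cmp_good`, `W_eq_of_agree` : the local Kummer groups of two twists at one place;
`finite_Sel1`, `card_Sel1_pow` : the 2-Selmer group of the twist by `D` is a finite 2-group;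
`parity_same` : if `D`, `D'` have degrees of the same parity and the same symbols, the parities agree;
`flip` : if `D`, `D'` have degrees of the same parity and the same symbols except at a place at which
the local Kummer groups meet in `2 ^ c` elements, `c` odd, then exactly one of the 2-Selmer groups
has order a power of 4;
`half_even` : so half of the `D` have a 2-Selmer group of order a power of 4;
`parity_const` : if at all finite bad places the local Kummer groups are equal or intersect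
trivially, then the parity depends only on the parity of the degree.
-/

set_option autoImplicit false

open Polynomial Finset

namespace Pool.Agent.SmJP

open Pool.Agent.SmJ Pool.Agent.SmJ.Sys
open Pool.Agent.Sm (leg Irr PD)

section abstract

variable {G V V1 Pl : Type*} [Group G] [AddCommGroup V] [DistribMulAction G V]
  [AddCommGroup V1] [Module (ZMod 2) V1] {S : Sys G V V1 Pl}

private theorem HalfP_z01 : ∀ x : ZMod 2, x = 0 ∨ x = 1 := by decide

/-- The local Kummer groups depend only on the values of the character at `sg` and `phi`. -/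
theorem W_eq_of_agree (h : S.Ok) {chi chi' : G → ZMod 2} (hchi : S.HomG chi)
    (hchi' : S.HomG chi') {v : Pl} (h1 : chi (S.sg v) = chi' (S.sg v))
    (h2 : chi (S.phi v) = chi' (S.phi v)) : S.W chi v = S.W chi' v := by
  have hall : ∀ s ∈ S.D v, chi s = chi' s := by
    intro s hs
    have h3 : ∀ s ∈ S.D v, (fun s => chi s + chi' s) s = 0 := by
      refine h.homD v (fun s => chi s + chi' s) ?_ ?_ ?_ ?_
      · obtain ⟨N, hN, hN'⟩ := hchi.1
        obtain ⟨N₂, hN₂, hN₂'⟩ := hchi'.1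
        refine ⟨N ⊓ N₂, h.inf_mem N hN N₂ hN₂, fun s _ n hn _ => ?_⟩
        show chi (s * n) + chi' (s * n) = chi s + chi' s
        rw [hN' s n hn.1, hN₂' s n hn.2]
      · intro s _ t _
        simp only [hchi.2 s t, hchi'.2 s t]
        ring
      · simp only [h1]
        exact CharTwo.add_self_eq_zero _
      · simp only [h2]
        exact CharTwo.add_self_eq_zero _
    have h4 := h3 s hs
    simp only at h4
    have key : ∀ a b : ZMod 2, a + b = 0 → a = b := by decide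
    exact key _ _ h4
  have hdl : ∀ (Q : V), ∀ s ∈ S.D v, dl chi Q s = dl chi' Q s := by
    intro Q s hs
    unfold dl tw
    rw [hall s hs]
  ext x
  rw [mem_W, mem_W]
  constructor
  · rintro ⟨Q, hQ1, hQ2, hQ3⟩
    exact ⟨Q, fun s hs => by rw [← hdl Q s hs]; exact hQ1 s hs,
      by rw [← hdl Q _ (h.sg_mem v)]; exact hQ2, by rw [← hdl Q _ (h.phi_mem v)]; exact hQ3⟩
  · rintro ⟨Q, hQ1, hQ2, hQ3⟩
    exact ⟨Q, fun s hs => by rw [hdl Q s hs]; exact hQ1 s hs,
      by rw [hdl Q _ (h.sg_mem v)]; exact hQ2, by rw [hdl Q _ (h.phi_mem v)]; exact hQ3⟩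

private theorem HalfP_ram_unr (h : S.Ok) {chi chi' : G → ZMod 2} (hchi : S.HomG chi) {v : Pl}
    (hv : v ∈ S.good) (h1 : chi (S.sg v) = 0) (h2 : chi' (S.sg v) = 1) :
    S.W chi v ⊓ S.W chi' v = ⊥ := by
  rw [eq_bot_iff]
  rintro x ⟨hx1, hx2⟩
  rw [AddSubgroup.mem_bot]
  have h3 : x.1 = 0 := (mem_Wl_good h hchi hv h1 x).1 hx1
  exact Wl_ram_ext h hv h2 hx2 (S.W chi' v).zero_mem h3

/-- At a good place the local Kummer groups of two twists are equal or intersect trivially. -/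
theorem W_cmp_good (h : S.Ok) {chi chi' : G → ZMod 2} (hchi : S.HomG chi) (hchi' : S.HomG chi')
    {v : Pl} (hv : v ∈ S.good) : S.W chi v = S.W chi' v ∨ S.W chi v ⊓ S.W chi' v = ⊥ := by
  rcases HalfP_z01 (chi (S.sg v)) with h1 | h1 <;> rcases HalfP_z01 (chi' (S.sg v)) with h2 | h2
  · left
    rw [W_good h hchi hv h1, W_good h hchi' hv h2]
  · exact Or.inr (HalfP_ram_unr h hchi hv h1 h2)
  · right
    rw [inf_comm]
    exact HalfP_ram_unr h hchi' hv h2 h1
  · by_cases h3 : chi (S.phi v) = chi' (S.phi v)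
    · exact Or.inl (W_eq_of_agree h hchi hchi' (h1.trans h2.symm) h3)
    · right
      rw [eq_bot_iff]
      rintro x ⟨hx1, hx2⟩
      rw [AddSubgroup.mem_bot]
      obtain ⟨z, hz⟩ := h.half (S.iota x.1)
      have e1 := (mem_Wl_ram h hv h1 x hz).mp hx1
      have e2 := (mem_Wl_ram h hv h2 x hz).mp hx2
      have e3 : tw chi (S.phi v) z = tw chi' (S.phi v) z := by
        have := e1.trans e2.symm
        unfold dl at this
        exact sub_left_injective this
      have e4 : (2 : ℕ) • (S.phi v • z) = 0 := by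
        unfold tw sgn at e3
        rcases HalfP_z01 (chi (S.phi v)) with h4 | h4 <;>
          rcases HalfP_z01 (chi' (S.phi v)) with h5 | h5
        · exact absurd (h4.trans h5.symm) h3
        · rw [h4, h5, if_pos rfl, if_neg one_ne_zero, one_smul, neg_smul, one_smul] at e3
          rw [two_nsmul]
          nth_rewrite 1 [e3]
          exact neg_add_cancel _
        · rw [h4, h5, if_pos rfl, if_neg one_ne_zero, one_smul, neg_smul, one_smul] at e3
          rw [two_nsmul]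
          nth_rewrite 1 [← e3]
          exact neg_add_cancel _
        · exact absurd (h4.trans h5.symm) h3
      have e5 : x.1 = 0 := by
        have e6 : S.phi v • ((2 : ℕ) • z) = 0 := by
          rw [two_nsmul, smul_add, ← two_nsmul]
          exact e4
        rw [hz, h.iota_fix] at e6
        exact h.iota_inj (by rw [e6, map_zero])
      exact Wl_ram_ext h hv h1 hx1 (S.W chi v).zero_mem e5

end abstract

section chars

variable {k : Type} [Field k] {G V V1 Pl : Type} [Group G] [AddCommGroup V]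
  [DistribMulAction G V] [AddCommGroup V1] [Module (ZMod 2) V1] {S : Sys G V V1 Pl}
  {ch : k[X] → G → ZMod 2} {d : TwData k V1} {pl : k[X] → Pl}

theorem ch_one (hc : ChOk S ch d pl) (s : G) : ch 1 s = 0 := by
  have h1 := hc.mul 1 1 one_ne_zero one_ne_zero s
  rw [one_mul] at h1
  exact left_eq_add.mp h1

theorem chiJ_eq (hc : ChOk S ch d pl) {J : Type} [Fintype J] {p : J → k[X]}
    (hp : ∀ j, p j ≠ 0) : chiJ ch p = ch (∏ j, p j) := by
  classical
  funext s
  unfold chiJ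
  have key : ∀ T : Finset J, ∑ j ∈ T, ch (p j) s = ch (∏ j ∈ T, p j) s := by
    intro T
    induction T using Finset.induction_on with
    | empty => rw [sum_empty, prod_empty, ch_one hc]
    | insert a T ha ih =>
      rw [sum_insert ha, prod_insert ha, hc.mul _ _ (hp a) (prod_ne_zero_iff.2 fun j _ => hp j),
        ih]
  exact key univ

/-- At the infinite place the character of a monic polynomial depends only on the parity of the
degree. -/
theorem ch_inf (hc : ChOk S ch d pl) {D D' : k[X]} (hD : D.Monic) (hD' : D'.Monic)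
    (hpar : D.natDegree % 2 = D'.natDegree % 2) :
    ch D (S.sg S.inf) = ch D' (S.sg S.inf) ∧ ch D (S.phi S.inf) = ch D' (S.phi S.inf) := by
  have key : ∀ D D' : k[X], D.Monic → D'.Monic → D.natDegree % 2 = D'.natDegree % 2 →
      D.natDegree ≤ D'.natDegree →
      ch D (S.sg S.inf) = ch D' (S.sg S.inf) ∧ ch D (S.phi S.inf) = ch D' (S.phi S.inf) := by
    intro D D' hD hD' hpar hle
    set m := (D'.natDegree - D.natDegree) / 2 with hm
    have hX : (X ^ m * X ^ m : k[X]).Monic := (monic_X_pow m).mul (monic_X_pow m)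
    have hX0 : (X ^ m : k[X]) ≠ 0 := (monic_X_pow m).ne_zero
    have hmon : (D * (X ^ m * X ^ m)).Monic := hD.mul hX
    have hdeg : (D * (X ^ m * X ^ m)).natDegree = D'.natDegree := by
      rw [hD.natDegree_mul hX, (monic_X_pow m).natDegree_mul (monic_X_pow m), natDegree_X_pow]
      omega
    have hval : ∀ s, ch (D * (X ^ m * X ^ m)) s = ch D s := by
      intro s
      rw [hc.mul _ _ hD.ne_zero hX.ne_zero, hc.mul _ _ hX0 hX0, CharTwo.add_self_eq_zero,
        add_zero]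
    rw [← hval, ← hval (S.phi S.inf)]
    exact ⟨hc.inf_sg _ _ hmon hD' hdeg, hc.inf_phi _ _ hmon hD' hdeg⟩
  rcases le_total D.natDegree D'.natDegree with hle | hle
  · exact key D D' hD hD' hpar hle
  · obtain ⟨h1, h2⟩ := key D' D hD' hD hpar.symm hle
    exact ⟨h1.symm, h2.symm⟩

variable [Finite k]

/-- The primes of `D`. -/
theorem pvec_PD {B : Finset k[X]} (hB : ∀ P, P ∈ B ↔ ∃ i, d.ell i = P) {n : ℕ} {D : k[X]}
    (hD : D ∈ SmK.DD B n) : PVec d (fun P : PD D => P.1) where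
  monic P := ((SmK.mem_primesOf (SmK.mem_DD.1 hD).1.ne_zero).1 P.2).1
  irr P := ((SmK.mem_primesOf (SmK.mem_DD.1 hD).1.ne_zero).1 P.2).2.1
  inj := Subtype.val_injective
  ne P i hP := by
    have h1 := (SmK.mem_primesOf (SmK.mem_DD.1 hD).1.ne_zero).1 P.2
    exact (SmK.mem_DD.1 hD).2.2.2 _ ((hB _).2 ⟨i, rfl⟩) (hP ▸ h1.2.2)

theorem prod_PD {B : Finset k[X]} {n : ℕ} {D : k[X]} (hD : D ∈ SmK.DD B n) :
    ∏ P : PD D, P.1 = D := by
  have h1 := SmK.mem_DD.1 hD
  conv_rhs => rw [← SmK.prod_primesOf h1.1 h1.2.2.1]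
  exact prod_coe_sort (BSDP.R.primesOf D) fun P => P

/-- The 2-Selmer group of the twist by `D` is finite. -/
theorem finite_Sel1 (h : S.Ok) (hc : ChOk S ch d pl) {B : Finset k[X]}
    (hB : ∀ P, P ∈ B ↔ ∃ i, d.ell i = P) {n : ℕ} {D : k[X]} (hD : D ∈ SmK.DD B n) :
    Finite (S.Sel1 h (ch D)) := by
  classical
  have hf1 := h.fin1
  have h1 := SmK.mem_DD.1 hD
  set Q : Finset k[X] := B ∪ BSDP.R.primesOf D with hQ
  have hQ1 : ∀ P ∈ Q, P.Monic ∧ Irreducible P := by
    intro P hP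
    rcases mem_union.1 hP with hP | hP
    · obtain ⟨i, rfl⟩ := (hB P).1 hP
      exact ⟨d.ell_monic i, d.ell_irr i⟩
    · have h2 := (SmK.mem_primesOf h1.1.ne_zero).1 hP
      exact ⟨h2.1, h2.2.1⟩
  let f : V1 × (Q → V1) → (G → V1) := fun x s =>
    ch (C d.u) s • x.1 + ∑ P : Q, ch P.1 s • x.2 P
  have hfin : (Set.range f).Finite := Set.finite_range f
  refine (hfin.subset ?_).to_subtype
  intro b hb
  have hb' : S.IsSel1 (ch D) b := hb
  obtain ⟨w, hw⟩ := hc.unr_expand_V1 h hb'.1 Q hQ1 (by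
    intro P hP hP' hPQ
    rw [hQ, mem_union, not_or] at hPQ
    have hg : pl P ∈ S.good := (hc.good P hP hP').2 fun i hi => hPQ.1 ((hB P).2 ⟨i, hi.symm⟩)
    have hnd : ¬ P ∣ D := fun hd =>
      hPQ.2 ((SmK.mem_primesOf h1.1.ne_zero).2 ⟨hP, hP', hd⟩)
    exact (mem_Wl_good h (hc.hom D h1.1.ne_zero) hg (hc.sg_off P D hP hP' hnd) _).1
      (hb'.2 (pl P)))
  refine ⟨(w, fun P => b (S.sg (pl P.1))), ?_⟩
  funext s
  rw [hw s]
  change ch (C d.u) s • w + ∑ P : Q, ch P.1 s • b (S.sg (pl P.1)) = _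
  rw [← sum_coe_sort Q]

theorem card_Sel1_pow (h : S.Ok) (hc : ChOk S ch d pl) {B : Finset k[X]}
    (hB : ∀ P, P ∈ B ↔ ∃ i, d.ell i = P) {n : ℕ} {D : k[X]}
    (hD : D ∈ SmK.DD B n) : ∃ i : ℕ, Nat.card (S.Sel1 h (ch D)) = 2 ^ i := by
  have hfin := finite_Sel1 h hc hB hD
  have h2 : ∀ x : S.Sel1 h (ch D), (2 : ℕ) • x = 0 := by
    intro x
    apply Subtype.ext
    funext s
    change (2 : ℕ) • (x.1 s) = 0
    rw [two_nsmul]
    exact ZModModule.add_self _
  let hmod : Module (ZMod 2) (S.Sel1 h (ch D)) := AddCommGroup.zmodModule h2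
  have hmf : Module.Finite (ZMod 2) (S.Sel1 h (ch D)) := Module.Finite.of_finite
  refine ⟨Module.finrank (ZMod 2) (S.Sel1 h (ch D)), ?_⟩
  rw [Module.natCard_eq_pow_finrank (K := ZMod 2), Nat.card_eq_fintype_card, ZMod.card]

private theorem HalfP_four {i : ℕ} : (∃ r : ℕ, 2 ^ i = 4 ^ r) ↔ Even i := by
  constructor
  · rintro ⟨r, hr⟩
    have h1 : (2 : ℕ) ^ i = 2 ^ (r + r) := by
      rw [hr, ← two_mul, pow_mul]
      norm_num
    exact ⟨r, Nat.pow_right_injective le_rfl h1⟩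
  · rintro ⟨r, rfl⟩
    exact ⟨r, by rw [← two_mul, pow_mul]; norm_num⟩

private theorem HalfP_sq {i : ℕ} (hi : IsSquare (2 ^ i)) : Even i := by
  obtain ⟨r, hr⟩ := hi
  obtain ⟨a, -, ha⟩ := (Nat.dvd_prime_pow Nat.prime_two).1 (show r ∣ 2 ^ i from ⟨r, hr⟩)
  rw [ha, ← pow_add] at hr
  exact ⟨a, Nat.pow_right_injective le_rfl hr⟩

/-- The places at which two twists are compared. -/
private theorem HalfP_cmp (h : S.Ok) (hc : ChOk S ch d pl) {B : Finset k[X]}
    (hB : ∀ P, P ∈ B ↔ ∃ i, d.ell i = P) {n n' : ℕ} (hnn : n % 2 = n' % 2) {D D' : k[X]}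
    (hD : D ∈ SmK.DD B n) (hD' : D' ∈ SmK.DD B n') (v : Pl)
    (hv : ∀ i, v = pl (d.ell i) → leg (d.ell i) D = leg (d.ell i) D' ∨
      S.W (ch D) v ⊓ S.W (ch D') v = ⊥ ∨ S.W (ch D) v = S.W (ch D') v) :
    S.W (ch D) v = S.W (ch D') v ∨ S.W (ch D) v ⊓ S.W (ch D') v = ⊥ := by
  have h1 := SmK.mem_DD.1 hD
  have h1' := SmK.mem_DD.1 hD'
  have hchi := hc.hom D h1.1.ne_zero
  have hchi' := hc.hom D' h1'.1.ne_zero
  rcases hc.pl_cases v with rfl | ⟨P, hP, hP', rfl⟩
  · left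
    obtain ⟨e1, e2⟩ := ch_inf hc h1.1 h1'.1 (by rw [h1.2.1, h1'.2.1, hnn])
    exact W_eq_of_agree h hchi hchi' e1 e2
  · by_cases hPB : ∃ i, P = d.ell i
    · obtain ⟨i, rfl⟩ := hPB
      have h3 : ¬ d.ell i ∣ D := h1.2.2.2 _ ((hB _).2 ⟨i, rfl⟩)
      have h3' : ¬ d.ell i ∣ D' := h1'.2.2.2 _ ((hB _).2 ⟨i, rfl⟩)
      rcases hv i rfl with h4 | h4 | h4
      · left
        refine W_eq_of_agree h hchi hchi' ?_ ?_
        · rw [hc.sg_off _ _ hP hP' h3, hc.sg_off _ _ hP hP' h3']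
        · rw [hc.ph _ _ hP hP' h3, hc.ph _ _ hP hP' h3', h4]
      · exact Or.inr h4
      · exact Or.inl h4
    · push Not at hPB
      exact W_cmp_good h hchi hchi' ((hc.good P hP hP').2 hPB)

/-- If the degrees have the same parity and the symbols at every finite bad place agree, or the
local Kummer groups there are equal or intersect trivially, then the parities agree. -/
theorem parity_same' (h : S.Ok) (hc : ChOk S ch d pl) {qv : Pl → V1 × V1 → ZMod 2}
    (hq : S.QOk qv) {B : Finset k[X]} (hB : ∀ P, P ∈ B ↔ ∃ i, d.ell i = P) {n n' : ℕ}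
    (hnn : n % 2 = n' % 2) {D D' : k[X]} (hD : D ∈ SmK.DD B n) (hD' : D' ∈ SmK.DD B n')
    (heq : ∀ i, leg (d.ell i) D = leg (d.ell i) D' ∨
      S.W (ch D) (pl (d.ell i)) ⊓ S.W (ch D') (pl (d.ell i)) = ⊥ ∨
      S.W (ch D) (pl (d.ell i)) = S.W (ch D') (pl (d.ell i))) :
    (∃ r : ℕ, Nat.card (S.Sel1 h (ch D)) = 4 ^ r) ↔
      ∃ r : ℕ, Nat.card (S.Sel1 h (ch D')) = 4 ^ r := by
  classical
  have h1 := SmK.mem_DD.1 hD
  have h1' := SmK.mem_DD.1 hD'
  have hchi := hc.hom D h1.1.ne_zero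
  have hchi' := hc.hom D' h1'.1.ne_zero
  obtain ⟨a, ha⟩ := card_Sel1_pow h hc hB hD
  obtain ⟨b, hb⟩ := card_Sel1_pow h hc hB hD'
  have key := parity_rel h hq hchi hchi' ∅ (by
    intro v _
    refine HalfP_cmp h hc hB hnn hD hD' v fun i hi => ?_
    subst hi
    exact heq i)
  rw [prod_empty, mul_one, ha, hb, ← pow_add] at key
  have h4 := HalfP_sq key
  rw [ha, hb, HalfP_four, HalfP_four]
  rw [Nat.even_add] at h4
  exact h4

/-- If the degrees have the same parity and the symbols at the finite bad places agree, then the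
parities agree. -/
theorem parity_same (h : S.Ok) (hc : ChOk S ch d pl) {qv : Pl → V1 × V1 → ZMod 2}
    (hq : S.QOk qv) {B : Finset k[X]} (hB : ∀ P, P ∈ B ↔ ∃ i, d.ell i = P) {n n' : ℕ}
    (hnn : n % 2 = n' % 2) {D D' : k[X]} (hD : D ∈ SmK.DD B n) (hD' : D' ∈ SmK.DD B n')
    (heq : ∀ i, leg (d.ell i) D = leg (d.ell i) D') :
    (∃ r : ℕ, Nat.card (S.Sel1 h (ch D)) = 4 ^ r) ↔
      ∃ r : ℕ, Nat.card (S.Sel1 h (ch D')) = 4 ^ r :=
  parity_same' h hc hq hB hnn hD hD' fun i => Or.inl (heq i)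

/-- If the symbols differ exactly at a place at which the Kummer groups of two unramified twists
meet in `2 ^ c` elements, `c` odd, then the parities differ. -/
theorem flip (h : S.Ok) (hc : ChOk S ch d pl) {qv : Pl → V1 × V1 → ZMod 2} (hq : S.QOk qv)
    {B : Finset k[X]} (hB : ∀ P, P ∈ B ↔ ∃ i, d.ell i = P) (i0 : Fin d.h)
    (hM : ∀ chi chi' : G → ZMod 2, S.HomG chi → S.HomG chi' →
      chi (S.sg (pl (d.ell i0))) = 0 → chi' (S.sg (pl (d.ell i0))) = 0 →
      chi (S.phi (pl (d.ell i0))) ≠ chi' (S.phi (pl (d.ell i0))) → ∃ c : ℕ, Odd c ∧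
      Nat.card (S.W chi (pl (d.ell i0)) ⊓ S.W chi' (pl (d.ell i0)) : AddSubgroup (V1 × V1)) =
        2 ^ c)
    {n n' : ℕ} (hnn : n % 2 = n' % 2) {D D' : k[X]} (hD : D ∈ SmK.DD B n)
    (hD' : D' ∈ SmK.DD B n')
    (heq : ∀ i, i ≠ i0 → leg (d.ell i) D = leg (d.ell i) D')
    (hne : leg (d.ell i0) D ≠ leg (d.ell i0) D') :
    (∃ r : ℕ, Nat.card (S.Sel1 h (ch D)) = 4 ^ r) ↔
      ¬ ∃ r : ℕ, Nat.card (S.Sel1 h (ch D')) = 4 ^ r := by
  classical
  have h1 := SmK.mem_DD.1 hD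
  have h1' := SmK.mem_DD.1 hD'
  have hchi := hc.hom D h1.1.ne_zero
  have hchi' := hc.hom D' h1'.1.ne_zero
  obtain ⟨a, ha⟩ := card_Sel1_pow h hc hB hD
  obtain ⟨b, hb⟩ := card_Sel1_pow h hc hB hD'
  have h3 : ¬ d.ell i0 ∣ D := h1.2.2.2 _ ((hB _).2 ⟨i0, rfl⟩)
  have h3' : ¬ d.ell i0 ∣ D' := h1'.2.2.2 _ ((hB _).2 ⟨i0, rfl⟩)
  have hmi := d.ell_monic i0
  have hii := d.ell_irr i0
  obtain ⟨c, hcodd, hcard⟩ := hM (ch D) (ch D') hchi hchi' (hc.sg_off _ _ hmi hii h3)
    (hc.sg_off _ _ hmi hii h3') (by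
      rw [hc.ph _ _ hmi hii h3, hc.ph _ _ hmi hii h3']
      exact hne)
  have key := parity_rel h hq hchi hchi' {pl (d.ell i0)} (by
    intro v hv
    rw [mem_singleton] at hv
    refine HalfP_cmp h hc hB hnn hD hD' v fun i hi => Or.inl (heq i ?_)
    rintro rfl
    exact hv hi)
  rw [prod_singleton, hcard, ha, hb] at key
  have e : 2 ^ a * 2 ^ b * 2 ^ c = 2 ^ (a + b + c) := by ring
  rw [e] at key
  have h4 := HalfP_sq key
  rw [ha, hb, HalfP_four, HalfP_four]
  rw [Nat.even_add, Nat.even_add] at h4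
  have h5 : ¬ Even c := Nat.not_even_iff_odd.2 hcodd
  tauto

open Classical in
/-- **Half of the twists.** If at one of the finite bad places the Kummer groups of two unramified
twists meet in `2 ^ c` elements, `c` odd (for example: multiplicative reduction), the order of the
2-Selmer group is a power of 4 for `(1/2 + o(1)) #DD` of the `D`. -/
theorem half_even (h : S.Ok) (hc : ChOk S ch d pl) {qv : Pl → V1 × V1 → ZMod 2} (hq : S.QOk qv)
    {B : Finset k[X]} (hB : ∀ P, P ∈ B ↔ ∃ i, d.ell i = P) (i0 : Fin d.h)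
    (hM : ∀ chi chi' : G → ZMod 2, S.HomG chi → S.HomG chi' →
      chi (S.sg (pl (d.ell i0))) = 0 → chi' (S.sg (pl (d.ell i0))) = 0 →
      chi (S.phi (pl (d.ell i0))) ≠ chi' (S.phi (pl (d.ell i0))) → ∃ c : ℕ, Odd c ∧
      Nat.card (S.W chi (pl (d.ell i0)) ⊓ S.W chi' (pl (d.ell i0)) : AddSubgroup (V1 × V1)) =
        2 ^ c)
    (ε : ℝ) (hε : 0 < ε) : ∃ n0 : ℕ, ∀ n : ℕ, n0 ≤ n →
    |(({D ∈ SmK.DD B n | ∃ r : ℕ, Nat.card (S.Sel1 h (ch D)) = 4 ^ r} : Finset k[X]).card : ℝ) -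
      (SmK.DD B n).card / 2| ≤ ε * (SmK.DD B n).card :=
  SmP.half_of_flip d.ell B hc.two d.ell_monic d.ell_irr d.ell_inj hB i0
    (fun D => ∃ r : ℕ, Nat.card (S.Sel1 h (ch D)) = 4 ^ r)
    (fun _ _ hD _ hD' heq hne => flip h hc hq hB i0 hM rfl hD hD' heq hne) ε hε

/-- If at every finite bad place the local Kummer groups of two unramified twists are equal or
intersect trivially (additive reduction), then the parity depends only on the parity of the
degree. -/
theorem parity_const (h : S.Ok) (hc : ChOk S ch d pl) {qv : Pl → V1 × V1 → ZMod 2}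
    (hq : S.QOk qv) {B : Finset k[X]} (hB : ∀ P, P ∈ B ↔ ∃ i, d.ell i = P)
    (hA : ∀ i, ∀ chi chi' : G → ZMod 2, S.HomG chi → S.HomG chi' →
      chi (S.sg (pl (d.ell i))) = 0 → chi' (S.sg (pl (d.ell i))) = 0 →
      S.W chi (pl (d.ell i)) ⊓ S.W chi' (pl (d.ell i)) = ⊥ ∨
        S.W chi (pl (d.ell i)) = S.W chi' (pl (d.ell i)))
    {n n' : ℕ} (hnn : n % 2 = n' % 2) {D D' : k[X]} (hD : D ∈ SmK.DD B n)
    (hD' : D' ∈ SmK.DD B n') :
    (∃ r : ℕ, Nat.card (S.Sel1 h (ch D)) = 4 ^ r) ↔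
      ∃ r : ℕ, Nat.card (S.Sel1 h (ch D')) = 4 ^ r := by
  have h1 := SmK.mem_DD.1 hD
  have h1' := SmK.mem_DD.1 hD'
  exact parity_same' h hc hq hB hnn hD hD' fun i => Or.inr (hA i _ _
    (hc.hom D h1.1.ne_zero) (hc.hom D' h1'.1.ne_zero)
    (hc.sg_off _ _ (d.ell_monic i) (d.ell_irr i) (h1.2.2.2 _ ((hB _).2 ⟨i, rfl⟩)))
    (hc.sg_off _ _ (d.ell_monic i) (d.ell_irr i) (h1'.2.2.2 _ ((hB _).2 ⟨i, rfl⟩))))

end chars

end Pool.Agent.SmJP
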