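import Pool.Agent.Lib.SmJ.P.Sign

/-!
SMITH for Jacobians, block P / Weil pairing: the degree filtration of `F[x, y] / (y ^ 2 - f)`,
`f` monic of odd degree `n`: `x` has degree `2`, `y` has degree `n`.
-/

set_option autoImplicit false

open Polynomial

namespace Pool.Agent.SmJ

variable {F : Type*} [Field F] {f : F[X]} {n : ℕ}

/-- the elements of degree `< d` -/
def degL (f : F[X]) (n d : ℕ) : Submodule F (QuadraticAlgebra F[X] f 0) where
  carrier := {z | (∀ i, d ≤ 2 * i → z.re.coeff i = 0) ∧ (∀ i, d ≤ 2 * i + n → z.im.coeff i = 0)}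
  add_mem' := by
    rintro z w ⟨h1, h2⟩ ⟨h3, h4⟩
    refine ⟨fun i hi => ?_, fun i hi => ?_⟩
    · rw [QuadraticAlgebra.re_add, coeff_add, h1 i hi, h3 i hi, add_zero]
    · rw [QuadraticAlgebra.im_add, coeff_add, h2 i hi, h4 i hi, add_zero]
  zero_mem' := ⟨fun i _ => by simp, fun i _ => by simp⟩
  smul_mem' := by
    rintro c z ⟨h1, h2⟩
    refine ⟨fun i hi => ?_, fun i hi => ?_⟩
    · rw [QuadraticAlgebra.re_smul, coeff_smul, h1 i hi, smul_zero]
    · rw [QuadraticAlgebra.im_smul, coeff_smul, h2 i hi, smul_zero]

theorem mem_degL {d : ℕ} {z : QuadraticAlgebra F[X] f 0} : z ∈ degL f n d ↔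
    (∀ i, d ≤ 2 * i → z.re.coeff i = 0) ∧ (∀ i, d ≤ 2 * i + n → z.im.coeff i = 0) := Iff.rfl

/-- the coefficient of degree `d` -/
def degT (f : F[X]) (n d : ℕ) : (QuadraticAlgebra F[X] f 0) →ₗ[F] F where
  toFun z := if d % 2 = 0 then z.re.coeff (d / 2) else
    if n ≤ d then z.im.coeff ((d - n) / 2) else 0
  map_add' z w := by
    split_ifs
    · rw [QuadraticAlgebra.re_add, coeff_add]
    · rw [QuadraticAlgebra.im_add, coeff_add]
    · rw [add_zero]
  map_smul' c z := by
    simp only [RingHom.id_apply]
    split_ifs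
    · rw [QuadraticAlgebra.re_smul, coeff_smul]
    · rw [QuadraticAlgebra.im_smul, coeff_smul]
    · rw [smul_zero]

theorem degT_even {d : ℕ} (hd : d % 2 = 0) (z : QuadraticAlgebra F[X] f 0) :
    degT f n d z = z.re.coeff (d / 2) := if_pos hd

theorem degT_odd {d : ℕ} (hd : d % 2 = 1) (h : n ≤ d) (z : QuadraticAlgebra F[X] f 0) :
    degT f n d z = z.im.coeff ((d - n) / 2) := by
  change (if d % 2 = 0 then _ else _) = _
  rw [if_neg (by omega), if_pos h]

theorem degT_odd' {d : ℕ} (hd : d % 2 = 1) (h : d < n) (z : QuadraticAlgebra F[X] f 0) :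
    degT f n d z = 0 := by
  change (if d % 2 = 0 then _ else _) = _
  rw [if_neg (by omega), if_neg (by omega)]

theorem re_deg {d : ℕ} {z : QuadraticAlgebra F[X] f 0} (hz : z ∈ degL f n (d + 1)) :
    z.re.natDegree ≤ d / 2 := by
  rw [natDegree_le_iff_coeff_eq_zero]
  intro N hN
  exact hz.1 N (by omega)

theorem im_deg {d : ℕ} {z : QuadraticAlgebra F[X] f 0} (hz : z ∈ degL f n (d + 1)) :
    z.im.natDegree ≤ (d - n) / 2 := by
  rw [natDegree_le_iff_coeff_eq_zero]
  intro N hN
  exact hz.2 N (by omega)

theorem im_zero {d : ℕ} {z : QuadraticAlgebra F[X] f 0} (hz : z ∈ degL f n (d + 1)) (h : d < n) :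
    z.im = 0 := by
  ext i
  rw [hz.2 i (by omega), coeff_zero]

theorem re_mul' (z w : QuadraticAlgebra F[X] f 0) :
    (z * w).re = z.re * w.re + f * (z.im * w.im) := by
  rw [QuadraticAlgebra.re_mul]
  ring

theorem im_mul' (z w : QuadraticAlgebra F[X] f 0) :
    (z * w).im = z.re * w.im + z.im * w.re := by
  rw [QuadraticAlgebra.im_mul]
  ring

theorem coeff_big {p : F[X]} {i N : ℕ} (h : p.natDegree ≤ N) (hi : N < i) : p.coeff i = 0 :=
  coeff_eq_zero_of_natDegree_lt (lt_of_le_of_lt h hi)

/-- The degree filtration. -/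
def degF (hf : f.Monic) (hn : f.natDegree = n) (hodd : n % 2 = 1) :
    Filt F (QuadraticAlgebra F[X] f 0) where
  L := degL f n
  tc := degT f n
  zero := by
    rw [eq_bot_iff]
    rintro z ⟨h1, h2⟩
    rw [Submodule.mem_bot]
    apply QuadraticAlgebra.ext
    · ext i
      rw [h1 i (Nat.zero_le _)]
      simp
    · ext i
      rw [h2 i (Nat.zero_le _)]
      simp
  succ d z := by
    constructor
    · intro h
      refine ⟨⟨fun i hi => h.1 i (by omega), fun i hi => h.2 i (by omega)⟩, ?_⟩
      rcases Nat.mod_two_eq_zero_or_one d with hd | hd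
      · rw [degT_even hd]
        exact h.1 _ (by omega)
      · rcases lt_or_ge d n with hdn | hdn
        · exact degT_odd' hd hdn z
        · rw [degT_odd hd hdn]
          exact h.2 _ (by omega)
    · rintro ⟨h, h0⟩
      refine ⟨fun i hi => ?_, fun i hi => ?_⟩
      · rcases Nat.lt_or_ge d (2 * i) with h1 | h1
        · exact h.1 i (by omega)
        · have e : d = 2 * i := by omega
          rw [degT_even (by omega)] at h0
          rw [← h0]
          congr 1
          omega
      · rcases Nat.lt_or_ge d (2 * i + n) with h1 | h1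
        · exact h.2 i (by omega)
        · have e : d = 2 * i + n := by omega
          rw [degT_odd (by omega) (by omega)] at h0
          rw [← h0]
          congr 1
          omega
  top z := by
    refine ⟨2 * (z.re.natDegree + z.im.natDegree) + n + 1, fun i hi => ?_, fun i hi => ?_⟩
    · rcases Nat.lt_or_ge z.re.natDegree i with h | h
      · exact coeff_eq_zero_of_natDegree_lt h
      · by_cases h0 : i = 0 <;> omega
    · exact coeff_eq_zero_of_natDegree_lt (by omega)
  mul_mem d d' z w hz hw := by
    have r1 := re_deg hz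
    have r2 := re_deg hw
    have i1 := im_deg hz
    have i2 := im_deg hw
    refine ⟨fun i hi => ?_, fun i hi => ?_⟩
    · rw [re_mul', coeff_add, coeff_big (natDegree_mul_le_of_le r1 r2) (by omega), zero_add]
      rcases lt_or_ge d n with h | h
      · rw [im_zero hz h, zero_mul, mul_zero, coeff_zero]
      rcases lt_or_ge d' n with h' | h'
      · rw [im_zero hw h', mul_zero, mul_zero, coeff_zero]
      exact coeff_big (natDegree_mul_le_of_le hn.le (natDegree_mul_le_of_le i1 i2)) (by omega)
    · rw [im_mul', coeff_add]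
      have e1 : (z.re * w.im).coeff i = 0 := by
        rcases lt_or_ge d' n with h' | h'
        · rw [im_zero hw h', mul_zero, coeff_zero]
        · exact coeff_big (natDegree_mul_le_of_le r1 i2) (by omega)
      have e2 : (z.im * w.re).coeff i = 0 := by
        rcases lt_or_ge d n with h' | h'
        · rw [im_zero hz h', zero_mul, coeff_zero]
        · exact coeff_big (natDegree_mul_le_of_le i1 r2) (by omega)
      rw [e1, e2, add_zero]
  mul_tc d d' z w hz hw := by
    have r1 := re_deg hz
    have r2 := re_deg hw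
    have i1 := im_deg hz
    have i2 := im_deg hw
    rcases Nat.mod_two_eq_zero_or_one d with hd | hd <;>
      rcases Nat.mod_two_eq_zero_or_one d' with hd' | hd'
    · rw [degT_even (by omega), degT_even hd, degT_even hd', re_mul', coeff_add]
      have e1 : (z.re * w.re).coeff ((d + d') / 2) = z.re.coeff (d / 2) * w.re.coeff (d' / 2) := by
        rw [← coeff_mul_add_eq_of_natDegree_le r1 r2]
        congr 1
        omega
      have e2 : (f * (z.im * w.im)).coeff ((d + d') / 2) = 0 := by
        rcases lt_or_ge d n with h | h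
        · rw [im_zero hz h, zero_mul, mul_zero, coeff_zero]
        rcases lt_or_ge d' n with h' | h'
        · rw [im_zero hw h', mul_zero, mul_zero, coeff_zero]
        exact coeff_big (natDegree_mul_le_of_le hn.le (natDegree_mul_le_of_le i1 i2)) (by omega)
      rw [e1, e2, add_zero]
    · have e2 : ∀ i, (d + d' - n) / 2 ≤ i → (z.im * w.re).coeff i = 0 := by
        intro i hi
        rcases lt_or_ge d n with h | h
        · rw [im_zero hz h, zero_mul, coeff_zero]
        · exact coeff_big (natDegree_mul_le_of_le i1 r2) (by omega)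
      rcases lt_or_ge d' n with h' | h'
      · rw [degT_odd' hd' h', mul_zero]
        rcases lt_or_ge (d + d') n with h | h
        · exact degT_odd' (by omega) h _
        · rw [degT_odd (by omega) h, im_mul', coeff_add, im_zero hw h', mul_zero, coeff_zero,
            e2 _ le_rfl, add_zero]
      · rw [degT_odd hd' h', degT_even hd, degT_odd (by omega) (by omega), im_mul', coeff_add,
          e2 _ le_rfl, add_zero, ← coeff_mul_add_eq_of_natDegree_le r1 i2]
        congr 1
        omega
    · have e2 : ∀ i, (d + d' - n) / 2 ≤ i → (z.re * w.im).coeff i = 0 := by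
        intro i hi
        rcases lt_or_ge d' n with h | h
        · rw [im_zero hw h, mul_zero, coeff_zero]
        · exact coeff_big (natDegree_mul_le_of_le r1 i2) (by omega)
      rcases lt_or_ge d n with h' | h'
      · rw [degT_odd' hd h', zero_mul]
        rcases lt_or_ge (d + d') n with h | h
        · exact degT_odd' (by omega) h _
        · rw [degT_odd (by omega) h, im_mul', coeff_add, im_zero hz h', zero_mul, coeff_zero,
            e2 _ le_rfl, add_zero]
      · rw [degT_odd hd h', degT_even hd', degT_odd (by omega) (by omega), im_mul', coeff_add,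
          e2 _ le_rfl, zero_add, ← coeff_mul_add_eq_of_natDegree_le i1 r2]
        congr 1
        omega
    · rw [degT_even (by omega), re_mul', coeff_add]
      have e1 : (z.re * w.re).coeff ((d + d') / 2) = 0 :=
        coeff_big (natDegree_mul_le_of_le r1 r2) (by omega)
      rw [e1, zero_add]
      rcases lt_or_ge d n with h | h
      · rw [degT_odd' hd h, zero_mul, im_zero hz h, zero_mul, mul_zero, coeff_zero]
      rcases lt_or_ge d' n with h' | h'
      · rw [degT_odd' hd' h', mul_zero, im_zero hw h', mul_zero, mul_zero, coeff_zero]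
      rw [degT_odd hd h, degT_odd hd' h', ← coeff_mul_add_eq_of_natDegree_le i1 i2]
      have e3 : (d + d') / 2 = n + ((d - n) / 2 + (d' - n) / 2) := by omega
      rw [e3, coeff_mul_add_eq_of_natDegree_le hn.le (natDegree_mul_le_of_le i1 i2), ← hn,
        hf.coeff_natDegree, one_mul]
  cof := by
    refine ⟨n, fun d hd => ?_⟩
    rcases Nat.mod_two_eq_zero_or_one d with h | h
    · refine ⟨⟨X ^ (d / 2), 0⟩, ⟨fun i hi => ?_, fun i _ => by simp⟩, ?_⟩
      · change (X ^ (d / 2) : F[X]).coeff i = 0
        rw [coeff_X_pow, if_neg (by omega)]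
      · rw [degT_even h]
        change (X ^ (d / 2) : F[X]).coeff _ = 1
        rw [coeff_X_pow, if_pos rfl]
    · refine ⟨⟨0, X ^ ((d - n) / 2)⟩, ⟨fun i _ => by simp, fun i hi => ?_⟩, ?_⟩
      · change (X ^ ((d - n) / 2) : F[X]).coeff i = 0
        rw [coeff_X_pow, if_neg (by omega)]
      · rw [degT_odd h hd]
        change (X ^ ((d - n) / 2) : F[X]).coeff _ = 1
        rw [coeff_X_pow, if_pos rfl]

end Pool.Agent.SmJ
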