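import Mathlib

/-!
SMITH for Jacobians, block P / Weil pairing: the determinant `dq F u I` of the multiplication by `u`
on `A ⧸ I`, `A` a Dedekind domain which is an algebra over the field `F`.

* `dq_mul`: multiplicativity in `u`;
* `det_exact`: determinants in exact sequences;
* `dq_mul_ideal`: multiplicativity in `I`;
* `dq_ne_zero`: `dq F u I ≠ 0` if `(u) + I = 1`.
-/

set_option autoImplicit false

namespace Pool.Agent.SmJ

section exact

variable {F : Type*} [Field F] {V₁ V V₂ : Type*} [AddCommGroup V₁] [Module F V₁] [AddCommGroup V]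
  [Module F V] [AddCommGroup V₂] [Module F V₂]

/-- Conjugate endomorphisms have the same determinant. -/
theorem det_of_equiv (φ : V ≃ₗ[F] V₂) (e : V →ₗ[F] V) (e' : V₂ →ₗ[F] V₂)
    (h : ∀ x, φ (e x) = e' (φ x)) : LinearMap.det e = LinearMap.det e' := by
  have h1 : e' = (φ : V →ₗ[F] V₂) ∘ₗ e ∘ₗ (φ.symm : V₂ →ₗ[F] V) := by
    ext y
    simp only [LinearMap.comp_apply, LinearEquiv.coe_coe]
    rw [h, LinearEquiv.apply_symm_apply]
  rw [h1, LinearMap.det_conj]

/-- Determinants in an exact sequence. -/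
theorem det_exact [Module.Finite F V] (i : V₁ →ₗ[F] V) (q : V →ₗ[F] V₂)
    (hi : Function.Injective i) (hq : Function.Surjective q) (hex : LinearMap.range i = LinearMap.ker q)
    (e₁ : V₁ →ₗ[F] V₁) (e : V →ₗ[F] V) (e₂ : V₂ →ₗ[F] V₂) (h1 : ∀ x, i (e₁ x) = e (i x))
    (h2 : ∀ x, q (e x) = e₂ (q x)) :
    LinearMap.det e = LinearMap.det e₁ * LinearMap.det e₂ := by
  have he : LinearMap.ker q ≤ (LinearMap.ker q).comap e := by
    intro x hx
    rw [LinearMap.mem_ker] at hx
    rw [Submodule.mem_comap, LinearMap.mem_ker, h2, hx, map_zero]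
  rw [LinearMap.det_eq_det_mul_det (LinearMap.ker q) e he]
  congr 1
  · symm
    refine det_of_equiv ((LinearEquiv.ofInjective i hi).trans (LinearEquiv.ofEq _ _ hex)) _ _ ?_
    intro x
    apply Subtype.ext
    exact h1 x
  · refine det_of_equiv (q.quotKerEquivOfSurjective hq) _ _ ?_
    intro x
    obtain ⟨x, rfl⟩ := Submodule.Quotient.mk_surjective _ x
    exact h2 x

end exact

section dq

variable (F : Type*) {A : Type*} [Field F] [CommRing A] [Algebra F A]

/-- The determinant of the multiplication by `u` on `A ⧸ I`. -/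
noncomputable def dq (u : A) (I : Ideal A) : F := Algebra.norm F (Ideal.Quotient.mk I u)

theorem dq_one (I : Ideal A) : dq F (1 : A) I = 1 := by rw [dq, map_one, map_one]

theorem dq_mul (u v : A) (I : Ideal A) : dq F (u * v) I = dq F u I * dq F v I := by
  rw [dq, map_mul, map_mul, dq, dq]

theorem dq_pow (u : A) (n : ℕ) (I : Ideal A) : dq F (u ^ n) I = dq F u I ^ n := by
  rw [dq, map_pow, map_pow, dq]

theorem dq_top (u : A) : dq F u (⊤ : Ideal A) = 1 := by
  have h : Subsingleton (A ⧸ (⊤ : Ideal A)) := Ideal.Quotient.subsingleton_iff.2 rfl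
  rw [dq, Subsingleton.elim (Ideal.Quotient.mk (⊤ : Ideal A) u) 1, map_one]

theorem dq_congr {u v : A} {I : Ideal A} (h : u - v ∈ I) : dq F u I = dq F v I := by
  rw [dq, dq, Ideal.Quotient.eq.2 h]

theorem dq_ne_zero {u : A} {I : Ideal A} (h : Ideal.span {u} ⊔ I = ⊤) : dq F u I ≠ 0 := by
  have h1 : (1 : A) ∈ Ideal.span {u} ⊔ I := by rw [h]; trivial
  obtain ⟨x, hx, y, hy, hxy⟩ := Submodule.mem_sup.1 h1
  obtain ⟨z, rfl⟩ := Ideal.mem_span_singleton'.1 hx
  have h2 : dq F z I * dq F u I = 1 := by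
    rw [← dq_mul, ← dq_one F I]
    apply dq_congr
    rw [← hxy, sub_add_cancel_left]
    exact I.neg_mem hy
  exact right_ne_zero_of_mul_eq_one h2

theorem dq_eq_det (u : A) (I : Ideal A) :
    dq F u I = LinearMap.det (LinearMap.mulLeft F (Ideal.Quotient.mk I u)) := by
  rw [dq, Algebra.norm_apply]
  rfl

variable [IsDedekindDomain A]

/-- **Multiplicativity in the ideal.** -/
theorem dq_mul_ideal {I J : Ideal A} (hI : I ≠ ⊥) (hJ : J ≠ ⊥) [Module.Finite F (A ⧸ I * J)]
    (u : A) : dq F u (I * J) = dq F u I * dq F u J := by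
  obtain ⟨t, ht⟩ := IsDedekindDomain.exists_sup_span_eq (I := I * J) (J := I) Ideal.mul_le_left
    (mul_ne_zero hI hJ)
  have htI : t ∈ I := by
    rw [← ht]
    exact Ideal.mem_sup_right (Ideal.mem_span_singleton_self t)
  have hle : J ≤ Submodule.comap (LinearMap.mulLeft A t) (I * J) :=
    fun x hx => Ideal.mul_mem_mul htI hx
  set i : (A ⧸ J) →ₗ[A] (A ⧸ I * J) := Submodule.mapQ J (I * J) (LinearMap.mulLeft A t) hle
  set q : (A ⧸ I * J) →ₗ[A] (A ⧸ I) := Submodule.mapQ (I * J) I LinearMap.id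
    (fun x hx => Ideal.mul_le_left hx)
  have hi : ∀ x : A, i (Ideal.Quotient.mk J x) = Ideal.Quotient.mk (I * J) (t * x) := fun _ => rfl
  have hq : ∀ x : A, q (Ideal.Quotient.mk (I * J) x) = Ideal.Quotient.mk I x := fun _ => rfl
  rw [mul_comm (dq F u I), dq_eq_det, dq_eq_det, dq_eq_det]
  refine det_exact (i.restrictScalars F) (q.restrictScalars F) ?_ ?_ ?_ _ _ _ ?_ ?_
  · rw [injective_iff_map_eq_zero]
    intro x hx
    obtain ⟨x, rfl⟩ := Ideal.Quotient.mk_surjective x
    have h1 : t * x ∈ I * J := Ideal.Quotient.eq_zero_iff_mem.1 hx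
    rw [Ideal.Quotient.eq_zero_iff_mem]
    have h2 : I * Ideal.span {x} ≤ I * J := by
      rw [← ht, Ideal.sup_mul, sup_le_iff]
      constructor
      · rw [ht]
        exact Ideal.mul_le_left
      · rw [ht, Ideal.span_singleton_mul_span_singleton, Ideal.span_singleton_le_iff_mem]
        exact h1
    have h3 : Ideal.span {x} ≤ J := by
      rw [← Ideal.dvd_iff_le] at h2 ⊢
      exact (mul_dvd_mul_iff_left hI).1 h2
    exact h3 (Ideal.mem_span_singleton_self x)
  · intro x
    obtain ⟨x, rfl⟩ := Ideal.Quotient.mk_surjective x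
    exact ⟨Ideal.Quotient.mk (I * J) x, rfl⟩
  · ext y
    obtain ⟨y, rfl⟩ := Ideal.Quotient.mk_surjective y
    rw [LinearMap.mem_ker, LinearMap.mem_range]
    change (∃ x, i x = _) ↔ Ideal.Quotient.mk I y = 0
    rw [Ideal.Quotient.eq_zero_iff_mem]
    constructor
    · rintro ⟨x, hx⟩
      obtain ⟨x, rfl⟩ := Ideal.Quotient.mk_surjective x
      rw [hi] at hx
      have h1 : t * x - y ∈ I * J := Ideal.Quotient.eq.1 hx
      have h2 : t * x ∈ I := Ideal.mul_mem_right x I htI
      have h3 := I.sub_mem h2 (Ideal.mul_le_left h1)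
      rwa [sub_sub_cancel] at h3
    · intro hy
      rw [← ht] at hy
      obtain ⟨z, hz, w, hw, hzw⟩ := Submodule.mem_sup.1 hy
      obtain ⟨x, rfl⟩ := Ideal.mem_span_singleton'.1 hw
      refine ⟨Ideal.Quotient.mk J x, ?_⟩
      rw [hi, Ideal.Quotient.eq, ← hzw]
      have : t * x - (z + x * t) = -z := by ring
      rw [this]
      exact (I * J).neg_mem hz
  · intro x
    obtain ⟨x, rfl⟩ := Ideal.Quotient.mk_surjective x
    change Ideal.Quotient.mk (I * J) (t * (u * x)) = Ideal.Quotient.mk (I * J) (u * (t * x))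
    congr 1
    ring
  · intro x
    obtain ⟨x, rfl⟩ := Ideal.Quotient.mk_surjective x
    rfl

end dq

end Pool.Agent.SmJ
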