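import Pool.Agent.Lib.SmJ.P.RedM
import Pool.Agent.Lib.SmJ.G.CT

/-!
# SMITH block P, module LS: the classes of the local cup products

`Sys.LH S al be`: for every place `v` the homomorphisms `al v`, `be v` have the values `(1, 0)`,
`(0, 1)` at `(sg v, phi v)`. `Sys.MFr S M`: `sg v` acts trivially on `M`, `phi v` by the odd number
`q = 2 m + 1`, `eps v = m`, and the tame relation `phi sg phi⁻¹ = sg ^ q` (modulo every `N ∈ NN`).

* `ls`: on `D v` the cup product `S.e (x s) (a t)` is cohomologous to `sy v x a` times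
  `al v ∪ be v`;
* `al_be_ne`: the class of `al v ∪ be v` is not trivial.
-/

set_option autoImplicit false

namespace Pool.Agent.SmJ

variable {G V V1 Pl M : Type*} [Group G] [AddCommGroup V] [DistribMulAction G V]
  [AddCommGroup V1] [Module (ZMod 2) V1]
  [AddCommGroup M] [DistribMulAction G M]

namespace Sys

variable (S : Sys G V V1 Pl)

/-- `z` and `z'` are cohomologous on `D v` (coefficients `ZMod 2`). -/
def CB (v : Pl) (z z' : G → G → ZMod 2) : Prop :=
  ∃ b : G → ZMod 2, S.TFOn (S.D v) b ∧ ∀ s ∈ S.D v, ∀ t ∈ S.D v,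
    z s t = z' s t + (b s + b t + b (s * t))

/-- Homomorphisms with the values `(1, 0)` and `(0, 1)` at `(sg v, phi v)`. -/
structure LH (al be : Pl → G → ZMod 2) : Prop where
  al_hom : ∀ v, S.HomG (al v)
  be_hom : ∀ v, S.HomG (be v)
  al_sg : ∀ v, al v (S.sg v) = 1
  al_phi : ∀ v, al v (S.phi v) = 0
  be_sg : ∀ v, be v (S.sg v) = 0
  be_phi : ∀ v, be v (S.phi v) = 1

/-- The action of `sg v` and `phi v` on `M` and the tame relation. -/
def MFr (M : Type*) [AddCommGroup M] [DistribMulAction G M] : Prop :=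
  ∀ v, ∃ m : ℕ, S.eps v = (m : ZMod 2) ∧ (∀ x : M, S.sg v • x = x) ∧
    (∀ x : M, S.phi v • x = (2 * m + 1) • x) ∧
    ∀ N ∈ S.NN, S.phi v * S.sg v * (S.phi v)⁻¹ * ((S.sg v) ^ (2 * m + 1))⁻¹ ∈ N

variable {S}

section cb

variable {v : Pl} {z z' z'' w w' : G → G → ZMod 2}

theorem LS_two (a : ZMod 2) : a + a = 0 := CharTwo.add_self_eq_zero a

theorem CB.refl (h : S.Ok) (z : G → G → ZMod 2) : S.CB v z z :=
  ⟨fun _ => 0, (TF_const h 0).on _, fun s _ t _ => by simp⟩

theorem CB.of_eq (h : S.Ok) (he : ∀ s ∈ S.D v, ∀ t ∈ S.D v, z s t = z' s t) : S.CB v z z' :=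
  ⟨fun _ => 0, (TF_const h 0).on _, fun s hs t ht => by simp [he s hs t ht]⟩

theorem CB.symm (hz : S.CB v z z') : S.CB v z' z := by
  obtain ⟨b, hb, h1⟩ := hz
  refine ⟨b, hb, fun s hs t ht => ?_⟩
  rw [h1 s hs t ht, add_assoc, LS_two, add_zero]

theorem CB.trans (h : S.Ok) (hz : S.CB v z z') (hz' : S.CB v z' z'') : S.CB v z z'' := by
  obtain ⟨b, hb, h1⟩ := hz
  obtain ⟨b', hb', h2⟩ := hz'
  refine ⟨fun s => b s + b' s, TFOn.comp₂ h hb hb' (fun p q => p + q), fun s hs t ht => ?_⟩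
  beta_reduce
  rw [h1 s hs t ht, h2 s hs t ht]
  ring

theorem CB.add (h : S.Ok) (hz : S.CB v z z') (hw : S.CB v w w') :
    S.CB v (fun s t => z s t + w s t) (fun s t => z' s t + w' s t) := by
  obtain ⟨b, hb, h1⟩ := hz
  obtain ⟨b', hb', h2⟩ := hw
  refine ⟨fun s => b s + b' s, TFOn.comp₂ h hb hb' (fun p q => p + q), fun s hs t ht => ?_⟩
  beta_reduce
  rw [h1 s hs t ht, h2 s hs t ht]
  ring

theorem CB.mul (c : ZMod 2) (hz : S.CB v z z') :
    S.CB v (fun s t => c * z s t) (fun s t => c * z' s t) := by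
  obtain ⟨b, hb, h1⟩ := hz
  refine ⟨fun s => c * b s, hb.comp (fun p => c * p), fun s hs t ht => ?_⟩
  beta_reduce
  rw [h1 s hs t ht]
  ring

end cb

/-- The cup product of `ZMod 2`-valued functions. -/
def cup2 (x a : G → ZMod 2) (s t : G) : ZMod 2 := x s * a t

/-- `x ∪ a ~ a ∪ x`. -/
theorem cup2_comm (h : S.Ok) (v : Pl) {x a : G → ZMod 2} (hx : S.TFOn (S.D v) x)
    (ha : S.TFOn (S.D v) a) (hxc : ∀ s ∈ S.D v, ∀ t ∈ S.D v, x (s * t) = x s + x t)
    (hac : ∀ s ∈ S.D v, ∀ t ∈ S.D v, a (s * t) = a s + a t) :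
    S.CB v (cup2 x a) (cup2 a x) := by
  refine ⟨fun s => x s * a s, TFOn.comp₂ h hx ha (fun p q => p * q), fun s hs t ht => ?_⟩
  beta_reduce
  rw [cup2, cup2, hxc s hs t ht, hac s hs t ht]
  have h2 : ∀ p q p' q' : ZMod 2, p * q' = q * p' + (p * q + p' * q' + (p + p') * (q + q')) := by
    decide
  exact h2 _ _ _ _

/-- A 2-finite homomorphism on `D v` is a combination of `al v`, `be v`. -/
theorem LH.expand (h : S.Ok) {al be : Pl → G → ZMod 2} (hl : S.LH al be) (v : Pl)
    {x : G → ZMod 2} (hx : S.TFOn (S.D v) x)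
    (hxc : ∀ s ∈ S.D v, ∀ t ∈ S.D v, x (s * t) = x s + x t) :
    ∀ s ∈ S.D v, x s = x (S.sg v) * al v s + x (S.phi v) * be v s := by
  have h1 := h.homD v (fun s => x s + (x (S.sg v) * al v s + x (S.phi v) * be v s))
    (TFOn.comp₂ h hx (TFOn.comp₂ h ((hl.al_hom v).1.on _) ((hl.be_hom v).1.on _)
      (fun p q => x (S.sg v) * p + x (S.phi v) * q)) (fun p q => p + q))
    (fun s hs t ht => by
      rw [hxc s hs t ht, (hl.al_hom v).2, (hl.be_hom v).2]
      ring)
    (by
      rw [hl.al_sg, hl.be_sg, mul_one, mul_zero, add_zero, LS_two])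
    (by
      rw [hl.al_phi, hl.be_phi, mul_one, mul_zero, zero_add, LS_two])
  intro s hs
  have h2 := h1 s hs
  have h3 : ∀ p q : ZMod 2, p + q = 0 → p = q := by decide
  exact h3 _ _ h2

section

variable {hf : ZMod 2 →+ M}

/-- `be ∪ be` is trivial. -/
theorem be_be (h : S.Ok) (hM : S.MOk hf) (hF : S.MFr M) {al be : Pl → G → ZMod 2}
    (hl : S.LH al be) (v : Pl) : S.CB v (cup2 (be v) (be v)) (fun _ _ => 0) := by
  obtain ⟨m, -, hsg, hphi, -⟩ := hF v
  set q := 2 * m + 1 with hq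
  -- `2^a` exactly divides `q + 1`
  obtain ⟨a, c, hc, hac⟩ : ∃ a c : ℕ, Odd c ∧ q + 1 = 2 ^ a * c := by
    obtain ⟨a, c, hc, h1⟩ := Nat.exists_eq_two_pow_mul_odd (n := q + 1) (by omega)
    exact ⟨a, c, hc, h1⟩
  have hroot : ∀ (i : ℕ) (x : M), ∃ y : M, (2 : ℕ) ^ i • y = x := by
    intro i
    induction i with
    | zero => exact fun x => ⟨x, by rw [pow_zero, one_smul]⟩
    | succ i ih =>
      intro x
      obtain ⟨y, hy⟩ := ih x
      obtain ⟨y', hy'⟩ := hM.half y
      exact ⟨y', by rw [pow_succ, mul_smul, hy', hy]⟩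
  obtain ⟨z, hz⟩ := hroot a (hf 1)
  have hq1 : z + q • z = hf 1 := by
    have e1 : z + q • z = (q + 1) • z := (fun r : ℕ => by rw [add_smul, one_smul, add_comm] :
      ∀ r : ℕ, z + r • z = (r + 1) • z) q
    obtain ⟨d, rfl⟩ := hc
    rw [e1, hac, mul_comm, mul_smul, hz, add_smul, one_smul, mul_comm 2 d, mul_smul, MOk.two_hf,
      smul_zero, zero_add]
  have hqh : q • hf 1 = hf 1 := by
    rw [hq, add_smul, one_smul, mul_comm 2 m, mul_smul, MOk.two_hf, smul_zero, zero_add]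
  have hq2 : q • q • z = z := by
    have h1 : q • (z + q • z) = z + q • z := by rw [hq1, hqh]
    rw [smul_add, add_comm (q • z)] at h1
    exact add_right_cancel h1
  -- the action of `D v` on `z`
  have hcl : Subgroup.closure {S.phi v, S.sg v} ≤ S.D v := by
    rw [Subgroup.closure_le]
    rintro x (rfl | rfl)
    · exact h.phi_mem v
    · exact h.sg_mem v
  have hb := hl.be_hom v
  have hb1 : be v 1 = 0 := chi_one hb.2
  let E : ZMod 2 → M := fun c => if c = 0 then z else q • z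
  have hE0 : E 0 = z := rfl
  have hE1 : E 1 = q • z := if_neg one_ne_zero
  have hact : ∀ s ∈ Subgroup.closure {S.phi v, S.sg v}, s • z = E (be v s) := by
    intro s hs
    refine Subgroup.closure_induction (p := fun s _ => s • z = E (be v s)) ?_ ?_ ?_ ?_ hs
    · rintro x (rfl | rfl)
      · rw [hl.be_phi, hE1]; exact hphi z
      · rw [hl.be_sg, hE0]; exact hsg z
    · rw [one_smul, hb1, hE0]
    · intro x y _ _ hx hy
      rw [mul_smul, hy, hb.2]
      rcases (show ∀ c : ZMod 2, c = 0 ∨ c = 1 by decide) (be v y) with h0 | h0 <;>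
        rcases (show ∀ c : ZMod 2, c = 0 ∨ c = 1 by decide) (be v x) with h1 | h1 <;>
        rw [h1] at hx <;> rw [h0, h1]
      · rw [hE0, hx, hE0, add_zero, hE0]
      · rw [hE0, hx, hE1, add_zero, hE1]
      · rw [hE1, smul_comm x q z, hx, hE0, zero_add, hE1]
      · rw [hE1, smul_comm x q z, hx, hE1, hq2, LS_two, hE0]
    · intro x _ hx
      have h1 : be v x⁻¹ = be v x := by
        have h2 := hb.2 x⁻¹ x
        rw [inv_mul_cancel, hb1] at h2
        have h3 : ∀ p q : ZMod 2, 0 = p + q → p = q := by decide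
        exact h3 _ _ h2
      rw [h1]
      rcases (show ∀ c : ZMod 2, c = 0 ∨ c = 1 by decide) (be v x) with h0 | h0
      · rw [h0, hE0] at hx ⊢
        rw [inv_smul_eq_iff, hx]
      · rw [h0, hE1] at hx ⊢
        rw [inv_smul_eq_iff, smul_comm x q z, hx, hq2]
  have hactD : ∀ s ∈ S.D v, s • z = E (be v s) := by
    intro s hs
    obtain ⟨N, hN, hN'⟩ := hM.act z
    obtain ⟨N2, hN2, hN2'⟩ := hb.1
    obtain ⟨t, ht, hts⟩ := gen h v (h.inf_mem _ hN _ hN2) hs
    have h1 : s = t * (t⁻¹ * s) := by rw [mul_inv_cancel_left]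
    rw [h1, mul_smul, hN' _ hts.1, hN2' t _ hts.2]
    exact hact t ht
  -- the cochain
  refine coh_zmod2 h hM v ?_
  refine ⟨fun s => if be v s = 0 then 0 else z, (hb.1.on _).comp (fun c => if c = 0 then 0 else z),
    fun s hs t ht => ?_⟩
  beta_reduce
  rw [cup2, hb.2, map_zero, zero_add]
  rcases (show ∀ c : ZMod 2, c = 0 ∨ c = 1 by decide) (be v s) with h0 | h0 <;>
    rcases (show ∀ c : ZMod 2, c = 0 ∨ c = 1 by decide) (be v t) with h1 | h1 <;> rw [h0, h1]
  · simp
  · simp only [zero_add, if_neg one_ne_zero, if_pos, zero_mul, map_zero]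
    rw [hactD s hs, h0, hE0, sub_self]
  · simp only [add_zero, if_neg one_ne_zero, if_pos, mul_zero, map_zero, smul_zero, sub_self]
  · simp only [LS_two, if_neg one_ne_zero, if_pos, mul_one, sub_zero]
    rw [hactD s hs, h0, hE1, hq1]

/-- `al ∪ al ~ eps (al ∪ be)`. -/
theorem al_al (h : S.Ok) (hM : S.MOk hf) (hF : S.MFr M) {al be : Pl → G → ZMod 2}
    (hl : S.LH al be) (v : Pl) :
    S.CB v (cup2 (al v) (al v)) (fun s t => S.eps v * cup2 (al v) (be v) s t) := by
  obtain ⟨m, heps, hsg, hphi, -⟩ := hF v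
  obtain ⟨i, hi⟩ := hM.half (hf 1)
  -- `s i = i + hf (e s)`
  have h1 : ∀ s : G, ∃ a, hf a = s • i - i := fun s => hM.two _ (by
    rw [smul_sub, smul_comm (2 : ℕ) s, hi, hM.fix, sub_self])
  choose e he using h1
  have hec : ∀ s t, e (s * t) = e s + e t := fun s t => hM.inj (by
    have h2 : s • (t • i - i) = t • i - i := by rw [← he, hM.fix]
    rw [map_add, he, he, he, mul_smul]
    rw [smul_sub, sub_eq_iff_eq_add] at h2
    rw [h2]
    abel)
  have heT : S.TF e := by
    obtain ⟨N, hN, hN'⟩ := hM.act i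
    refine ⟨N, hN, fun s n hn => hM.inj ?_⟩
    rw [he, he, mul_smul, hN' n hn]
  have hesg : e (S.sg v) = 0 := hM.inj (by rw [he, hsg, sub_self, map_zero])
  have hephi : e (S.phi v) = S.eps v := hM.inj (by
    rw [he, hphi, heps, add_smul, one_smul, add_sub_cancel_right, mul_comm 2 m, mul_smul, hi,
      ← map_nsmul, nsmul_eq_mul, mul_one])
  have heD : ∀ s ∈ S.D v, e s = S.eps v * be v s := by
    intro s hs
    have := hl.expand h v (heT.on _) (fun s _ t _ => hec s t) s hs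
    rw [this, hesg, hephi, zero_mul, zero_add]
  have ha := hl.al_hom v
  have hb := hl.be_hom v
  -- `al ∪ al ~ e ∪ al`
  have key : S.CB v (cup2 (al v) (al v)) (cup2 e (al v)) := by
    refine coh_zmod2 h hM v ?_
    refine ⟨fun s => if al v s = 0 then 0 else i,
      (ha.1.on _).comp (fun c => if c = 0 then 0 else i), fun s hs t ht => ?_⟩
    beta_reduce
    rw [cup2, cup2, ha.2]
    have h3 : s • i = i + hf (e s) := by rw [he]; abel
    rcases (show ∀ c : ZMod 2, c = 0 ∨ c = 1 by decide) (al v s) with h0 | h0 <;>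
      rcases (show ∀ c : ZMod 2, c = 0 ∨ c = 1 by decide) (al v t) with h1 | h1 <;> rw [h0, h1]
    · simp
    · simp only [zero_add, if_neg one_ne_zero, if_pos, map_zero, mul_one, h3,
        add_sub_cancel_left]
      rw [← two_nsmul, MOk.two_hf]
    · simp only [add_zero, if_neg one_ne_zero, if_pos, mul_zero, map_zero, smul_zero, sub_self]
    · simp only [LS_two, if_neg one_ne_zero, if_pos, mul_one, sub_zero, h3]
      have e4 : hf (e s) + hf (e s) = 0 := by rw [← two_nsmul, MOk.two_hf]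
      have e3 : hf (e s) + (i + (i + hf (e s))) = 2 • i + (hf (e s) + hf (e s)) := by
        rw [two_nsmul]; abel
      rw [e3, hi, e4, add_zero]
  refine key.trans h ((CB.of_eq h fun s hs t ht => ?_).trans h
    ((cup2_comm h v (hb.1.on _) (ha.1.on _) (fun s _ t _ => hb.2 s t)
      (fun s _ t _ => ha.2 s t)).mul (S.eps v)))
  beta_reduce
  rw [cup2, cup2, heD s hs, mul_assoc]

/-- The class of the cup product of two homomorphisms on `D v` to `ZMod 2`. -/
theorem ls1 (h : S.Ok) (hM : S.MOk hf) (hF : S.MFr M) {al be : Pl → G → ZMod 2}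
    (hl : S.LH al be) (v : Pl) {x a : G → ZMod 2} (hx : S.TFOn (S.D v) x)
    (ha : S.TFOn (S.D v) a) (hxc : ∀ s ∈ S.D v, ∀ t ∈ S.D v, x (s * t) = x s + x t)
    (hac : ∀ s ∈ S.D v, ∀ t ∈ S.D v, a (s * t) = a s + a t) :
    S.CB v (cup2 x a) (fun s t => (x (S.sg v) * a (S.phi v) + x (S.phi v) * a (S.sg v) +
      S.eps v * (x (S.sg v) * a (S.sg v))) * cup2 (al v) (be v) s t) := by
  have hA := hl.al_hom v
  have hB := hl.be_hom v
  set p := x (S.sg v) with hp
  set q := x (S.phi v) with hq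
  set p' := a (S.sg v) with hp'
  set q' := a (S.phi v) with hq'
  have h1 := (al_al h hM hF hl v).mul (p * p')
  have h2 := (be_be h hM hF hl v).mul (q * q')
  have h3 := (cup2_comm h v (hB.1.on _) (hA.1.on _) (fun s _ t _ => hB.2 s t)
      (fun s _ t _ => hA.2 s t)).mul (q * p')
  have h4 : S.CB v (fun s t => (p * q') * cup2 (al v) (be v) s t)
      (fun s t => (p * q') * cup2 (al v) (be v) s t) := CB.refl h _
  have h5 := ((h1.add h h2).add h h3).add h h4
  refine ((CB.of_eq h fun s hs t ht => ?_).trans h h5).trans h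
    (CB.of_eq h fun s hs t ht => ?_)
  · rw [cup2, hl.expand h v hx hxc s hs, hl.expand h v ha hac t ht]
    rw [cup2, cup2, cup2, cup2]
    ring
  · ring

/-- LS: the class of the cup product of two homomorphisms on `D v` to `V1`. -/
theorem ls (h : S.Ok) (hM : S.MOk hf) (hF : S.MFr M) {al be : Pl → G → ZMod 2}
    (hl : S.LH al be) (v : Pl) {x a : G → V1} (hx : S.TFOn (S.D v) x)
    (ha : S.TFOn (S.D v) a) (hxc : ∀ s ∈ S.D v, ∀ t ∈ S.D v, x (s * t) = x s + x t)
    (hac : ∀ s ∈ S.D v, ∀ t ∈ S.D v, a (s * t) = a s + a t) :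
    S.CB v (fun s t => S.e (x s) (a t))
      (fun s t => S.sy v (S.loc v x) (S.loc v a) * cup2 (al v) (be v) s t) := by
  have hA := hl.al_hom v
  have hB := hl.be_hom v
  have hexp : ∀ s ∈ S.D v, ∀ t ∈ S.D v, S.e (x s) (a t) =
      (S.e (x (S.sg v)) (a (S.sg v)) * al v t + S.e (x (S.sg v)) (a (S.phi v)) * be v t) * al v s +
      (S.e (x (S.phi v)) (a (S.sg v)) * al v t + S.e (x (S.phi v)) (a (S.phi v)) * be v t) *
        be v s := by
    intro s hs t ht
    have h1 := hl.expand h v (x := fun s => S.e (x s) (a t))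
      (hx.comp (fun w => S.e w (a t)))
      (fun s hs u hu => by rw [hxc s hs u hu, map_add, LinearMap.add_apply]) s hs
    have h2 : ∀ w : V1, S.e w (a t) =
        S.e w (a (S.sg v)) * al v t + S.e w (a (S.phi v)) * be v t := fun w =>
      hl.expand h v (x := fun u => S.e w (a u)) (ha.comp (fun w' => S.e w w'))
        (fun s hs u hu => by rw [hac s hs u hu, map_add]) t ht
    beta_reduce at h1
    rw [h1, ← h2, ← h2]
  have h1 := (al_al h hM hF hl v).mul (S.e (x (S.sg v)) (a (S.sg v)))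
  have h2 := (be_be h hM hF hl v).mul (S.e (x (S.phi v)) (a (S.phi v)))
  have h3 := (cup2_comm h v (hB.1.on _) (hA.1.on _) (fun s _ t _ => hB.2 s t)
      (fun s _ t _ => hA.2 s t)).mul (S.e (x (S.phi v)) (a (S.sg v)))
  have h4 : S.CB v (fun s t => (S.e (x (S.sg v)) (a (S.phi v))) * cup2 (al v) (be v) s t)
      (fun s t => (S.e (x (S.sg v)) (a (S.phi v))) * cup2 (al v) (be v) s t) := CB.refl h _
  have h5 := ((h1.add h h2).add h h3).add h h4
  refine ((CB.of_eq h fun s hs t ht => ?_).trans h h5).trans h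
    (CB.of_eq h fun s hs t ht => ?_)
  · rw [hexp s hs t ht, cup2, cup2, cup2, cup2]
    ring
  · rw [Sys.sy, Sys.loc, Sys.loc, sym]
    ring

/-- L2: the class `al ∪ be` is not trivial. -/
theorem al_be_ne (h : S.Ok) (hF : S.MFr M) {al be : Pl → G → ZMod 2}
    (hl : S.LH al be) (v : Pl) (c : ZMod 2)
    (hc : S.CB v (fun s t => c * cup2 (al v) (be v) s t) (fun _ _ => 0)) : c = 0 := by
  obtain ⟨b, ⟨N, hN, hbN⟩, hb⟩ := hc
  obtain ⟨m, -, -, -, htame⟩ := hF v
  have ha := hl.al_hom v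
  have hbe := hl.be_hom v
  have hs := h.sg_mem v
  have hp := h.phi_mem v
  have hbe1 : be v 1 = 0 := chi_one hbe.2
  have hb' : ∀ s ∈ S.D v, ∀ t ∈ S.D v, b (s * t) = b s + b t + c * (al v s * be v t) := by
    intro s hs t ht
    have h1 := hb s hs t ht
    beta_reduce at h1
    rw [zero_add, cup2] at h1
    rw [h1, ← add_assoc, LS_two, zero_add]
  have hb1 : b 1 = 0 := by
    have h1 := hb' 1 (one_mem _) 1 (one_mem _)
    rw [one_mul, hbe1, mul_zero, mul_zero, add_zero, LS_two] at h1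
    exact h1
  have hpow : ∀ n : ℕ, b (S.sg v ^ (2 * n + 1)) = b (S.sg v) := by
    intro n
    induction n with
    | zero => rw [mul_zero, zero_add, pow_one]
    | succ n ih =>
      have e1 : S.sg v ^ (2 * (n + 1) + 1) = S.sg v ^ (2 * n + 1) * (S.sg v * S.sg v) := by
        rw [← pow_two, ← pow_add]
        congr 1
      have h2 : b (S.sg v * S.sg v) = 0 := by
        rw [hb' _ hs _ hs, hl.be_sg, mul_zero, mul_zero, add_zero, LS_two]
      have h3 : be v (S.sg v * S.sg v) = 0 := by rw [hbe.2, LS_two]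
      rw [e1, hb' _ (pow_mem hs _) _ (mul_mem hs hs), h2, h3, mul_zero, mul_zero, add_zero,
        add_zero, ih]
  have halpow : ∀ n : ℕ, al v (S.sg v ^ (2 * n + 1)) = 1 := by
    intro n
    induction n with
    | zero => rw [mul_zero, zero_add, pow_one, hl.al_sg]
    | succ n ih =>
      have e1 : S.sg v ^ (2 * (n + 1) + 1) = S.sg v ^ (2 * n + 1) * (S.sg v * S.sg v) := by
        rw [← pow_two, ← pow_add]
        congr 1
      rw [e1, ha.2, ha.2, LS_two, ih, add_zero]
  -- the tame relation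
  have hn := htame N hN
  have hnD : S.phi v * S.sg v * (S.phi v)⁻¹ * ((S.sg v) ^ (2 * m + 1))⁻¹ ∈ S.D v :=
    mul_mem (mul_mem (mul_mem hp hs) (inv_mem hp)) (inv_mem (pow_mem hs _))
  set n := S.phi v * S.sg v * (S.phi v)⁻¹ * ((S.sg v) ^ (2 * m + 1))⁻¹ with hndef
  have e2 : S.phi v * S.sg v = (S.sg v) ^ (2 * m + 1) * S.phi v *
      (((S.sg v) ^ (2 * m + 1) * S.phi v)⁻¹ * n * ((S.sg v) ^ (2 * m + 1) * S.phi v)) := by
    rw [hndef]
    group
  have hnorm := h.normal N hN
  have hmem : ((S.sg v) ^ (2 * m + 1) * S.phi v)⁻¹ * n * ((S.sg v) ^ (2 * m + 1) * S.phi v) ∈ N := by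
    have := hnorm.conj_mem n hn ((S.sg v) ^ (2 * m + 1) * S.phi v)⁻¹
    rwa [inv_inv] at this
  have hxD : (S.sg v) ^ (2 * m + 1) * S.phi v ∈ S.D v := mul_mem (pow_mem hs _) hp
  have h5 : b (S.phi v * S.sg v) = b ((S.sg v) ^ (2 * m + 1) * S.phi v) := by
    rw [e2]
    exact hbN _ hxD _ hmem (mul_mem (mul_mem (inv_mem hxD) hnD) hxD)
  rw [hb' _ hp _ hs, hb' _ (pow_mem hs _) _ hp, hl.al_phi, hl.be_phi, hpow, halpow, zero_mul,
    mul_zero, add_zero, mul_one, mul_one, add_comm (b (S.phi v))] at h5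
  exact (left_eq_add.1 h5)

end

end Sys

end Pool.Agent.SmJ
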