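import Pool.Agent.Lib.SmJ.P.Weil
import Pool.Agent.Lib.SmJ.P.Coh

/-!
# SMITH block P, module Ob: the local classes of the obstruction cocycle (P1, P2, P3)

`ob_local`: on `D v` the obstruction cocycle of the lift `hat` of `Psi` (level `i`) is cohomologous to
the cup product of `2^(i-1) Psi` and `xi_v = hat - dl (Q v)`.

PROOF. `Q v = 2 Q1`, `a = dl Q1`, `x = hat - dl (Q v)` (in `V[2]`), `2 l = x`, `R = a + l + r`, `r` in
`V[2]`. `change_alg` removes `r`, `local_alg` gives `B a a' + 2 B a l' + B l l'`. First term: it is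
`e_(m+r) (s Q1 - Q1, s dl Qr (t))`, `2^r Qr = Q1`, a coboundary. Second term: the cup product. Third term:
`0` for `m ≥ 4`, the cup product `x, x` for `m = 3`, the coboundary of `qq x`, `qq` a quadratic refinement.
-/

set_option autoImplicit false

namespace Pool.Agent.SmJ

variable {G V V1 Pl M : Type*} [Group G] [AddCommGroup V] [DistribMulAction G V]
  [AddCommGroup V1] [Module (ZMod 2) V1] [AddCommGroup M]
  [DistribMulAction G M] {S : Sys G V V1 Pl} {e : ℕ → V → V → M} {j : ZMod 2 →+ M}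

/-- The cup product of a coboundary with itself is a coboundary. -/
theorem ob_self (hw : Weil S e j) {chi : G → ZMod 2} (hchi : ∀ s t, chi (s * t) = chi s + chi t)
    {m r : ℕ} {Q Qr : V} (hr : (2 : ℕ) ^ r • Qr = Q) (hQ : (2 : ℕ) ^ (m + r) • Q = 0) (s t : G)
    (hs : (2 : ℕ) ^ m • dl chi Q s = 0) (ht : (2 : ℕ) ^ m • dl chi Q t = 0)
    (hst : (2 : ℕ) ^ m • dl chi Q (s * t) = 0) :
    e m (dl chi Q s) (tw chi s (dl chi Q t)) = e (m + r) Q (dl chi Qr s) +
      s • e (m + r) Q (dl chi Qr t) - e (m + r) Q (dl chi Qr (s * t)) := by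
  have h1 : ∀ u, (2 : ℕ) ^ m • dl chi Q u = 0 → (2 : ℕ) ^ (m + r) • dl chi Qr u = 0 := by
    intro u hu
    rw [pow_add, mul_smul, ← dl_nsmul, hr]
    exact hu
  have h2 : dl chi Q t = (2 : ℕ) ^ r • dl chi Qr t := by rw [← dl_nsmul, hr]
  rw [h2, tw_nsmul, ← hw.comp_pow r hs (pow_smul_tw chi s (h1 t ht))]
  have h3 : dl chi Q s = tw chi s Q - Q := rfl
  rw [h3, hw.sub_left (pow_smul_tw chi s hQ) hQ (pow_smul_tw chi s (h1 t ht)),
    hw.tw_equiv chi _ s hQ (h1 t ht)]
  have h4 : tw chi s (dl chi Qr t) = dl chi Qr (s * t) - dl chi Qr s := by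
    rw [dl_mul hchi]; abel
  rw [h4, hw.sub_right hQ (h1 _ hst) (h1 s hs)]
  abel

theorem ob_local (h : S.Ok) (hw : Weil S e j) {chi : G → ZMod 2} (hchi : S.HomG chi)
    {Psi hat : G → V} {Q : Pl → V} {i : ℕ} (hi : 1 ≤ i) (hP : ∀ s, (2 : ℕ) ^ i • Psi s = 0)
    (hd : S.LiftData chi Psi hat Q) {R : G → V} (hR2 : ∀ s, (2 : ℕ) • R s = hat s) (hT : S.TF R)
    (v : Pl) :
    ∃ g : G → M, S.TFOn (S.D v) g ∧ ∀ s ∈ S.D v, ∀ t ∈ S.D v,
      Ob e chi (i + 2) R s t =
        j (S.e (S.un ((2 : ℕ) ^ (i - 1) • Psi s)) (S.un (hat t - dl chi (Q v) t))) +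
          (g s + s • g t - g (s * t)) := by
  have := h.fin1
  obtain ⟨qq, qq_add⟩ := exists_quad S.e h.e_alt
  obtain ⟨Q1, hQ1⟩ := h.half (Q v)
  choose hf hhf using h.half
  -- the local cocycle `x`, its half `l`, the difference `r`
  let x : G → V := fun s => hat s - dl chi (Q v) s
  let a : G → V := dl chi Q1
  let l : G → V := fun s => hf (x s)
  let r : G → V := fun s => R s - a s - l s
  have hl2 : ∀ s, (2 : ℕ) • l s = x s := fun s => hhf (x s)
  have ha2 : ∀ s, (2 : ℕ) • a s = dl chi (Q v) s := fun s => by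
    change (2 : ℕ) • dl chi Q1 s = _
    rw [← dl_nsmul, hQ1]
  have hr2 : ∀ s, (2 : ℕ) • r s = 0 := fun s => by
    change (2 : ℕ) • (R s - a s - l s) = 0
    rw [smul_sub, smul_sub, hR2, ha2, hl2]
    change hat s - dl chi (Q v) s - (hat s - dl chi (Q v) s) = 0
    exact sub_self _
  have hx2 : ∀ s ∈ S.D v, (2 : ℕ) • x s = 0 := fun s hs => hd.two_sub v hs
  have hxc : ∀ s t, x (s * t) = x s + tw chi s (x t) := fun s t => by
    change hat (s * t) - dl chi (Q v) (s * t) = hat s - dl chi (Q v) s +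
      tw chi s (hat t - dl chi (Q v) t)
    rw [hd.coc, dl_mul hchi.2, tw_sub]
    abel
  have hac : ∀ s t, a (s * t) = a s + tw chi s (a t) := fun s t => dl_mul hchi.2 Q1 s t
  have hd2 : ∀ s t, (2 : ℕ) • (l (s * t) - l s - tw chi s (l t)) = 0 := fun s t => by
    rw [smul_sub, smul_sub, ← tw_nsmul, hl2, hl2, hl2, hxc]
    abel
  have hR : ∀ s, R s = a s + l s + r s := fun s => by
    change R s = a s + l s + (R s - a s - l s)
    abel
  -- levels
  have hl4 : ∀ s ∈ S.D v, (2 : ℕ) ^ 2 • l s = 0 := fun s hs => by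
    rw [pow_two, mul_smul, hl2, hx2 s hs]
  have hlm : ∀ s ∈ S.D v, (2 : ℕ) ^ (i + 2) • l s = 0 := fun s hs =>
    pow_smul_of_le (by omega) (hl4 s hs)
  have hrm : ∀ s, (2 : ℕ) ^ (i + 2) • r s = 0 := fun s =>
    pow_smul_of_le (i := 1) (by omega) (by rw [pow_one]; exact hr2 s)
  have hhat : ∀ s, (2 : ℕ) ^ (i + 1) • hat s = 0 := fun s => by
    rw [pow_succ, mul_smul, hd.two, hP]
  have ham : ∀ s ∈ S.D v, (2 : ℕ) ^ (i + 2) • a s = 0 := fun s hs => by
    have e1 : (2 : ℕ) • a s = hat s - x s := by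
      rw [ha2]
      change _ = hat s - (hat s - dl chi (Q v) s)
      abel
    have e2 : (2 : ℕ) ^ (i + 1) • x s = 0 :=
      pow_smul_of_le (i := 1) (by omega) (by rw [pow_one]; exact hx2 s hs)
    rw [show i + 2 = (i + 1) + 1 from rfl, pow_succ, mul_smul, e1, smul_sub, hhat, e2, sub_zero]
  -- a deeper point
  obtain ⟨k0, hk0⟩ := h.tors Q1
  have hQ1m : (2 : ℕ) ^ (i + 2 + k0) • Q1 = 0 := pow_smul_of_le (by omega) hk0
  have hex : ∀ n : ℕ, ∃ Qr : V, (2 : ℕ) ^ n • Qr = Q1 := by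
    intro n
    induction n with
    | zero => exact ⟨Q1, by rw [pow_zero, one_smul]⟩
    | succ n ih =>
      obtain ⟨Q', hQ'⟩ := ih
      obtain ⟨Q'', hQ''⟩ := h.half Q'
      exact ⟨Q'', by rw [pow_succ, mul_smul, hQ'', hQ']⟩
  obtain ⟨Qr, hQr⟩ := hex k0
  -- the four cochains
  let g0 : G → M := fun s => e (i + 2) (a s + l s) (r s)
  let g1 : G → M := fun s => e (i + 2) (a s) (l s)
  let g2 : G → M := fun s => e (i + 2 + k0) Q1 (dl chi Qr s)
  let g3 : G → M := fun s => if i = 1 then j (qq (S.un (x s))) else 0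
  have hxT : S.TF x := Sys.TF.comp₂ h hd.tf (Sys.dl_tf h hchi (Q v)) (fun p q => p - q)
  have haT : S.TF a := Sys.dl_tf h hchi Q1
  have hlT : S.TF l := hxT.comp hf
  have hrT : S.TF r :=
    Sys.TF.comp₂ h (Sys.TF.comp₂ h hT haT (fun p q => p - q)) hlT (fun p q => p - q)
  have h0T : S.TF g0 := Sys.TF.comp₂ h (Sys.TF.comp₂ h haT hlT (fun p q => p + q)) hrT
    (fun p q => e (i + 2) p q)
  have h1T : S.TF g1 := Sys.TF.comp₂ h haT hlT (fun p q => e (i + 2) p q)
  have h2T : S.TF g2 := (Sys.dl_tf h hchi Qr).comp (fun q => e (i + 2 + k0) Q1 q)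
  have h3T : S.TF g3 := hxT.comp (fun q => if i = 1 then j (qq (S.un q)) else 0)
  refine ⟨fun s => g0 s + g1 s + g2 s + g3 s,
    (Sys.TF.comp₂ h (Sys.TF.comp₂ h (Sys.TF.comp₂ h h0T h1T (fun p q => p + q)) h2T
      (fun p q => p + q)) h3T (fun p q => p + q)).on _, fun s hs t ht => ?_⟩
  have hst : s * t ∈ S.D v := (S.D v).mul_mem hs ht
  have htw : ∀ {u : V}, (2 : ℕ) ^ (i + 2) • u = 0 → (2 : ℕ) ^ (i + 2) • tw chi s u = 0 :=
    fun hu => pow_smul_tw chi s hu
  have htw2 : ∀ {u : V}, (2 : ℕ) • u = 0 → (2 : ℕ) • tw chi s u = 0 := fun hu => by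
    rw [← tw_nsmul, hu, tw_zero]
  -- elements of `V[2^m]`
  let B := hw.B (i + 2)
  let A : Tor V (i + 2) := ⟨a s, ham s hs⟩
  let A' : Tor V (i + 2) := ⟨tw chi s (a t), htw (ham t ht)⟩
  let L : Tor V (i + 2) := ⟨l s, hlm s hs⟩
  let L' : Tor V (i + 2) := ⟨tw chi s (l t), htw (hlm t ht)⟩
  let D : Tor V (i + 2) := ⟨l (s * t) - l s - tw chi s (l t),
    pow_smul_of_le (i := 1) (by omega) (by rw [pow_one]; exact hd2 s t)⟩
  let X : Tor V (i + 2) := ⟨r s, hrm s⟩
  let Y : Tor V (i + 2) := ⟨tw chi s (r t), htw (hrm t)⟩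
  let Z : Tor V (i + 2) := ⟨r (s * t), hrm _⟩
  have key : ∀ p q : Tor V (i + 2), (2 : ℕ) • (p : V) = 0 → (2 : ℕ) ^ 2 • (q : V) = 0 →
      B p q = 0 := fun p q hp hq =>
    hw.small (i := 1) (k := 2) (by omega) (by rw [pow_one]; exact hp) hq
  have key1 : ∀ p q : Tor V (i + 2), (2 : ℕ) • (p : V) = 0 → (2 : ℕ) • (q : V) = 0 →
      B p q = 0 := fun p q hp hq => key p q hp (by rw [pow_two, mul_smul, hq, smul_zero])
  have H1 := change_alg B (hw.B_alt _) (A + L) (A' + L') D X Y Z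
    (fun z => by
      rw [← map_add]
      have : Y + Y = 0 := Subtype.ext (by
        rw [AddSubgroup.coe_add, ← two_nsmul]; exact htw2 (hr2 t))
      rw [this, map_zero])
    (key1 _ _ (hd2 s t) (hr2 s)) (key1 _ _ (hd2 s t) (htw2 (hr2 t)))
    (key1 _ _ (hd2 s t) (hr2 _)) (key1 _ _ (hr2 s) (htw2 (hr2 t)))
    (key1 _ _ (hr2 _) (hr2 s)) (key1 _ _ (hr2 _) (htw2 (hr2 t)))
  have H2 := local_alg B (hw.B_alt _) A A' L L' D
    (key _ _ (hd2 s t) (hl4 s hs)) (key _ _ (hd2 s t) (pow_smul_tw chi s (hl4 t ht)))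
  have e0 : (A + L) + (A' + L') + D = A + A' + (L + L' + D) := by abel
  rw [e0, H2] at H1
  -- translate
  have t1 : ((A + L + X : Tor V (i + 2)) : V) = R s := (hR s).symm
  have t2 : ((A' + L' + Y : Tor V (i + 2)) : V) = tw chi s (R t) := by
    rw [hR t, tw_add, tw_add]; rfl
  have t3 : ((A + A' + (L + L' + D) + Z : Tor V (i + 2)) : V) = R (s * t) := by
    rw [hR (s * t), hac s t]
    change a s + tw chi s (a t) + (l s + tw chi s (l t) +
      (l (s * t) - l s - tw chi s (l t))) + r (s * t) = _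
    abel
  have t4 : ((A + A' : Tor V (i + 2)) : V) = a (s * t) := (hac s t).symm
  have t5 : ((L + L' + D : Tor V (i + 2)) : V) = l (s * t) := by
    change l s + tw chi s (l t) + (l (s * t) - l s - tw chi s (l t)) = _
    abel
  have O1 : obf B (A + L + X) (A' + L' + Y) (A + A' + (L + L' + D) + Z) =
      Ob e chi (i + 2) R s t := by
    change e (i + 2) ((A + A' + (L + L' + D) + Z : Tor V (i + 2)) : V)
      ((A + L + X + (A' + L' + Y) : Tor V (i + 2)) : V) +
      e (i + 2) ((A + L + X : Tor V (i + 2)) : V) ((A' + L' + Y : Tor V (i + 2)) : V) = _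
    rw [AddSubgroup.coe_add _ (A + L + X) (A' + L' + Y), t1, t2, t3]
    rfl
  rw [O1] at H1
  rw [H1]
  -- the pieces
  have p0 : B (A + L) X = g0 s := rfl
  have p0' : B (A' + L') Y = s • g0 t := by
    change e (i + 2) (tw chi s (a t) + tw chi s (l t)) (tw chi s (r t)) = s • e (i + 2) _ _
    rw [← tw_add, hw.tw_equiv chi _ s (by rw [smul_add, ham t ht, hlm t ht, add_zero]) (hrm t)]
  have p0'' : B (A + A' + (L + L' + D)) Z = g0 (s * t) := by
    change e (i + 2) (((A + A' : Tor V (i + 2)) : V) + ((L + L' + D : Tor V (i + 2)) : V))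
      (r (s * t)) = _
    rw [t4, t5]
  have p1 : B A L = g1 s := rfl
  have p1' : B A' L' = s • g1 t := hw.tw_equiv chi _ s (ham t ht) (hlm t ht)
  have p1'' : B (A + A') (L + L' + D) = g1 (s * t) := by
    change e (i + 2) ((A + A' : Tor V (i + 2)) : V) ((L + L' + D : Tor V (i + 2)) : V) = _
    rw [t4, t5]
  have p2 : B A A' = g2 s + s • g2 t - g2 (s * t) :=
    ob_self hw hchi.2 hQr hQ1m s t (ham s hs) (ham t ht) (ham _ hst)
  have hxt : tw chi s (x t) = x t := Sys.tw_of_two h chi s (hx2 t ht)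
  have p3 : B A L' + B A L' =
      j (S.e (S.un ((2 : ℕ) ^ (i - 1) • Psi s)) (S.un (hat t - dl chi (Q v) t))) := by
    rw [← map_add]
    have e1 : ((L' + L' : Tor V (i + 2)) : V) = x t := by
      change tw chi s (l t) + tw chi s (l t) = _
      rw [← tw_add, ← two_nsmul, hl2, hxt]
    change e (i + 2) (a s) ((L' + L' : Tor V (i + 2)) : V) = _
    have e2 : (2 : ℕ) ^ (i + 1) • a s = (2 : ℕ) ^ (i - 1) • Psi s := by
      obtain ⟨i', rfl⟩ := Nat.exists_eq_add_of_le hi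
      have e3 : (2 : ℕ) • a s = hat s - x s := by
        rw [ha2]
        change _ = hat s - (hat s - dl chi (Q v) s)
        abel
      have e4 : (2 : ℕ) ^ (1 + i') • x s = 0 :=
        pow_smul_of_le (i := 1) (by omega) (by rw [pow_one]; exact hx2 s hs)
      rw [pow_succ, mul_smul, e3, smul_sub, e4, sub_zero, add_comm 1 i', pow_succ, mul_smul,
        hd.two, Nat.add_sub_cancel]
    rw [e1, show i + 2 = (i + 1) + 1 from rfl, hw.red (ham s hs) (hx2 t ht), e2]
    have e5 : (2 : ℕ) • ((2 : ℕ) ^ (i - 1) • Psi s) = 0 := by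
      rw [← mul_smul, ← pow_succ', Nat.sub_add_cancel hi, hP]
    conv_lhs => rw [← Sys.iota_un h e5, ← Sys.iota_un h (hx2 t ht)]
    exact hw.one _ _
  have p4 : B L L' = g3 s + s • g3 t - g3 (s * t) := by
    change e (i + 2) (l s) (tw chi s (l t)) = _
    by_cases h1 : i = 1
    · subst h1
      have e1 : (2 : ℕ) ^ 2 • tw chi s (l t) = 0 := pow_smul_tw chi s (hl4 t ht)
      have e2 : (2 : ℕ) • tw chi s (l t) = x t := by rw [← tw_nsmul, hl2, hxt]
      have e3 : g3 s + s • g3 t - g3 (s * t) = j (S.e (S.un (x s)) (S.un (x t))) := by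
        simp only [g3, if_true]
        rw [hw.fix, hxc, hxt, Sys.un_add h (hx2 s hs) (hx2 t ht), qq_add]
        have e4 : ∀ c : ZMod 2, j c + j c = 0 := fun c => by
          rw [← map_add, CharTwo.add_self_eq_zero, map_zero]
        have e5 : -j (S.e (S.un (x s)) (S.un (x t))) = j (S.e (S.un (x s)) (S.un (x t))) :=
          neg_eq_of_add_eq_zero_left (e4 _)
        rw [map_add, map_add]
        conv_rhs => rw [← e5]
        abel
      have e6 := hw.red (m := 1) (hl4 s hs) (hx2 t ht)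
      rw [pow_one, hl2] at e6
      rw [e3, hw.comp 2 (l s) _ (hl4 s hs) (pow_smul_of_le (by omega) e1), e2]
      refine e6.trans ?_
      conv_lhs => rw [← Sys.iota_un h (hx2 s hs), ← Sys.iota_un h (hx2 t ht)]
      exact hw.one _ _
    · have e1 : e (i + 2) (l s) (tw chi s (l t)) = 0 :=
        hw.small (i := 2) (k := 2) (by omega) (hl4 s hs) (pow_smul_tw chi s (hl4 t ht))
      rw [e1]
      simp only [g3, if_neg h1, smul_zero, add_zero, sub_zero]
  rw [p0, p0', p0'', p1, p1', p1'', p2, p3, p4]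
  simp only [smul_add]
  abel

end Pool.Agent.SmJ
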