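import Pool.Agent.Lib.SmJ.G.Crit

/-!
# SMITH block P, module ObAlg: a compatible family of alternating pairings, algebra

`Weil S e j`: `e m` is a bilinear alternating pairing on `V[2^m]` with values in `M`, compatible with
the action of `G` and for different `m`; on `V[2] = V1` it is `j ∘ S.e`.
`coc_alg`, `change_alg`, `local_alg`: the identities behind the cocycle
`F(s,t) = e(R(st), R(s) + s R(t)) + e(R(s), s R(t))`, `2 R` a cocycle.
-/

set_option autoImplicit false

namespace Pool.Agent.SmJ

section alg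

variable {T M : Type*} [AddCommGroup T] [AddCommGroup M] (B : T →+ T →+ M)

theorem alt_neg (hB : ∀ x, B x x = 0) (x y : T) : B x y = -B y x := by
  have h := hB (x + y)
  simp only [map_add, AddMonoidHom.add_apply, hB, zero_add, add_zero] at h
  exact eq_neg_of_add_eq_zero_right h

/-- The expression `B(z, x + y) + B(x, y)`. -/
def obf (x y z : T) : M := B z (x + y) + B x y

/-- `z = x + y + c`: the other form. -/
theorem obf_eq (hB : ∀ x, B x x = 0) (x y c : T) :
    obf B x y (x + y + c) = B x y + B c (x + y) := by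
  simp only [obf, map_add, AddMonoidHom.add_apply, hB, alt_neg B hB y x]
  abel

/-- The cocycle identity: `x = R(s)`, `y = s R(t)`, `w = s t R(u)`, `c1 = c(s,t)`, `c2 = s c(t,u)`,
`c3 = c(s,tu)`, `c4 = c(st,u)`. -/
theorem coc_alg (hB : ∀ x, B x x = 0) (x y w c1 c2 c3 c4 : T)
    (hc : c1 + c4 = c2 + c3) (h13 : B c4 c1 = 0) (h24 : B c3 c2 = 0)
    (h2 : ∀ z, B c2 z + B c2 z = 0) :
    obf B x y (x + y + c1) + obf B (x + y + c1) w (x + y + w + c1 + c4) =
      obf B y w (y + w + c2) + obf B x (y + w + c2) (x + y + w + c2 + c3) := by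
  have e1 : x + y + w + c1 + c4 = (x + y + c1) + w + c4 := by abel
  have e2 : x + y + w + c2 + c3 = x + (y + w + c2) + c3 := by abel
  rw [e1, e2, obf_eq B hB, obf_eq B hB, obf_eq B hB, obf_eq B hB]
  have h4 : c1 = c2 + c3 - c4 := by rw [← hc]; abel
  have h5 := h2 x
  have h6 := alt_neg B hB x c2
  simp only [map_add, AddMonoidHom.add_apply, h13, h24, h6] at h5 ⊢
  have h7 : ∀ z, B c1 z + B c4 z = B c2 z + B c3 z := fun z => by
    rw [← AddMonoidHom.add_apply, ← map_add, hc, map_add, AddMonoidHom.add_apply]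
  have h8 := h7 x
  have h9 := h7 y
  have h10 := h7 w
  have e3 : B x y + (B c1 x + B c1 y) + (B x w + B y w + B c1 w + (B c4 x + B c4 y + 0 + B c4 w)) =
      B x y + (B x w + B y w) + (B c1 x + B c4 x) + (B c1 y + B c4 y) + (B c1 w + B c4 w) := by
    abel
  have e4 : B y w + (B c2 y + B c2 w) + (B x y + B x w + -B c2 x + (B c3 x + (B c3 y + B c3 w + 0))) =
      B x y + (B x w + B y w) + (-B c2 x + B c3 x) + (B c2 y + B c3 y) + (B c2 w + B c3 w) := by
    abel
  have h11 : -B c2 x = B c2 x := neg_eq_of_add_eq_zero_left h5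
  rw [e3, e4, h8, h9, h10, h11]

/-- Change of `R` by `r : G → V[2]`. -/
theorem change_alg (hB : ∀ x, B x x = 0) (x y c rx ry rz : T)
    (h2 : ∀ z, B z ry + B z ry = 0)
    (hcx : B c rx = 0) (hcy : B c ry = 0) (hcz : B c rz = 0) (hxy : B rx ry = 0)
    (hzx : B rz rx = 0) (hzy : B rz ry = 0) :
    obf B (x + rx) (y + ry) (x + y + c + rz) =
      obf B x y (x + y + c) + (B x rx + B y ry - B (x + y + c) rz) := by
  have h3 := h2 x
  have h4 : B rz (x + y + c) = -B (x + y + c) rz := alt_neg B hB _ _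
  simp only [obf, map_add, AddMonoidHom.add_apply, hcx, hcy, hcz, hxy, hzx, hzy, hB] at h4 ⊢
  have h5 := alt_neg B hB rx y
  have h6 := alt_neg B hB y x
  have h7 := alt_neg B hB rz c
  rw [hcz, neg_zero] at h7
  rw [h7] at h4
  rw [h5, h6]
  have h8 : B rz x + B rz y = -(B x rz + B y rz + 0) := by rw [← h4]; abel
  have e1 : ∀ a b : M, a + b = 0 → b = -a := fun a b h => eq_neg_of_add_eq_zero_right h
  have h9 := e1 _ _ h3
  generalize B rz x = p1 at *
  generalize B rz y = p2 at *
  generalize B x ry = p3 at *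
  have h10 : p1 = -(B x rz + B y rz + 0) - p2 := by rw [← h8]; abel
  rw [h10]
  have h11 : p3 + p3 = 0 := h3
  have e5 : ∀ a : M, a = a + (p3 + p3) := fun a => by rw [h11, add_zero]
  rw [e5 (_ + (B x rx + B y ry - _))]
  abel

/-- The local computation: `R = a + h`, `a` a cocycle, `x = a + h`, `y = a' + h'`,
`z = a + a' + (h + h' + d)`. -/
theorem local_alg (hB : ∀ x, B x x = 0) (a a' h h' d : T)
    (hd : B d h = 0) (hd' : B d h' = 0) :
    obf B (a + h) (a' + h') (a + a' + (h + h' + d)) =
      (B a h + B a' h' - B (a + a') (h + h' + d)) + B a a' + (B a h' + B a h') + B h h' := by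
  have h1 := alt_neg B hB a' a
  have h2 := alt_neg B hB h a
  have h3 := alt_neg B hB h a'
  have h4 := alt_neg B hB h' a
  have h5 := alt_neg B hB h' a'
  have h6 := alt_neg B hB h' h
  have h7 := alt_neg B hB d a
  have h8 := alt_neg B hB d a'
  simp only [obf, map_add, AddMonoidHom.add_apply, hB, hd, hd', h1, h2, h3, h4, h5, h6, h7, h8]
  abel

end alg

end Pool.Agent.SmJ
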