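import Pool.Agent.Lib.SmJ.P.Deg
import Pool.Agent.Lib.SmJ.E.Nm

/-!
SMITH for Jacobians, block P / Weil pairing: **Weil reciprocity**.

`recip`: for `h`, `v` in `Co f` with leading coefficient `1` at infinity, one of them of even degree:
`det (h | Co f ⧸ (v)) = det (v | Co f ⧸ (h))`.

* `mon_iff`: `Mon d z ↔ lcc z = 1 ∧ wd z = d`;
* `fin_quot`: the quotients of `Co f` are finite-dimensional;
* `dq_line`: `det (v | Co f ⧸ (x - s)) = v.norm(s)`;
* `dq_yy`: `det (x - s | Co f ⧸ (y)) = - f(s)`.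
-/

set_option autoImplicit false
set_option linter.unusedSectionVars false

open Polynomial

namespace Pool.Agent.SmJ

variable {Om : Type} [Field Om] {f : Om[X]} [Hyp f]

/-- the degree filtration of `Co f` -/
def dgF (f : Om[X]) [Hyp f] : Filt Om (Co f) :=
  degF Hyp.monic rfl (Nat.odd_iff.1 Hyp.odd)

theorem LT_coeff (z : Co f) (d : ℕ) : (LT z).coeff d = (dgF f).tc d z := by
  have hodd : f.natDegree % 2 = 1 := Nat.odd_iff.1 Hyp.odd
  change _ = degT f f.natDegree d z
  rw [LT, coeff_add, coeff_expand two_pos, mul_comm, coeff_mul_X_pow', coeff_expand two_pos]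
  rcases Nat.mod_two_eq_zero_or_one d with hd | hd
  · rw [degT_even hd, if_pos (by omega)]
    split_ifs with h1 h2
    · omega
    · rw [add_zero]
    · rw [add_zero]
  · rw [if_neg (by omega), zero_add]
    rcases lt_or_ge d f.natDegree with h | h
    · rw [degT_odd' hd h, if_neg (by omega)]
    · rw [degT_odd hd h, if_pos h, if_pos (by omega)]

theorem mem_dgF {z : Co f} {d : ℕ} : z ∈ (dgF f).L d ↔ ∀ i, d ≤ i → (LT z).coeff i = 0 := by
  have hodd : f.natDegree % 2 = 1 := Nat.odd_iff.1 Hyp.odd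
  constructor
  · intro h i hi
    rw [LT_coeff]
    exact ((dgF f).succ i z).1 (Filt.mono hi h) |>.2
  · intro h
    obtain ⟨D, hD⟩ := (dgF f).top z
    rcases le_or_gt D d with h1 | h1
    · exact Filt.mono h1 hD
    · have key : ∀ j, z ∈ (dgF f).L (d + j) → z ∈ (dgF f).L d := by
        intro j
        induction j with
        | zero => exact id
        | succ j ih =>
          intro hj
          exact ih (((dgF f).succ _ _).2 ⟨hj, by rw [← LT_coeff]; exact h _ (by omega)⟩)
      exact key (D - d) (by rwa [Nat.add_sub_cancel' h1.le])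

theorem mon_iff {z : Co f} {d : ℕ} : (dgF f).Mon d z ↔ lcc z = 1 ∧ wd z = d := by
  constructor
  · rintro ⟨h1, h2⟩
    rw [← LT_coeff] at h2
    rw [mem_dgF] at h1
    have h3 : (LT z).natDegree = d := by
      apply natDegree_eq_of_le_of_coeff_ne_zero
      · rw [natDegree_le_iff_coeff_eq_zero]
        intro N hN
        exact h1 N hN
      · rw [h2]
        exact one_ne_zero
    refine ⟨?_, by rw [← natDegree_LT, h3]⟩
    rw [lcc, leadingCoeff, h3, h2]
  · rintro ⟨h1, rfl⟩
    rw [← natDegree_LT]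
    refine ⟨?_, ?_⟩
    · rw [mem_dgF]
      intro i hi
      exact coeff_eq_zero_of_natDegree_lt hi
    · rw [← LT_coeff]
      exact h1

theorem mon_wd {z : Co f} (h : lcc z = 1) : (dgF f).Mon (wd z) z := mon_iff.2 ⟨h, rfl⟩

/-- the quotients are finite-dimensional -/
theorem fin_quot {I : Ideal (Co f)} (hI : I ≠ ⊥) : Module.Finite Om (Co f ⧸ I) := by
  obtain ⟨z, hz, hz0⟩ := Submodule.exists_mem_ne_zero_of_ne_bot hI
  have h1 : Ideal.span {z} ≠ ⊥ := by rwa [ne_eq, Ideal.span_singleton_eq_bot]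
  obtain ⟨w, hw, hw1⟩ := exists_gen h1 rfl
  have h2 : Module.Finite Om (Co f ⧸ Ideal.span {w}) := Filt.finite_quot (mon_wd hw1)
  have h3 : Ideal.span {w} ≤ I := by
    rw [← hw, Ideal.span_singleton_le_iff_mem]
    exact hz
  exact Module.Finite.of_surjective
    ((Submodule.mapQ (Ideal.span {w}) I LinearMap.id (fun x hx => h3 hx)).restrictScalars Om)
    (fun x => by
      obtain ⟨x, rfl⟩ := Ideal.Quotient.mk_surjective x
      exact ⟨Ideal.Quotient.mk _ x, rfl⟩)

theorem dq_mulI {I J : Ideal (Co f)} (hI : I ≠ ⊥) (hJ : J ≠ ⊥) (u : Co f) :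
    dq Om u (I * J) = dq Om u I * dq Om u J := by
  have := fin_quot (mul_ne_zero hI hJ)
  exact dq_mul_ideal Om hI hJ u

theorem dq_powI {I : Ideal (Co f)} (hI : I ≠ ⊥) (k : ℕ) (u : Co f) :
    dq Om u (I ^ k) = dq Om u I ^ k := by
  induction k with
  | zero => rw [pow_zero, pow_zero, Ideal.one_eq_top, dq_top]
  | succ k ih => rw [pow_succ, pow_succ, dq_mulI (pow_ne_zero k hI) hI, ih]

/-- `det (v | Co f ⧸ (x - s)) = v.norm(s)` -/
theorem dq_line (v : Co f) (s : Om) :
    dq Om v (Ideal.span {po f (X - C s)}) = v.norm.eval s := by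
  let Ψ : Co f →ₐ[Om] QuadraticAlgebra Om (f.eval s) 0 :=
    { toFun := fun z => ⟨z.re.eval s, z.im.eval s⟩
      map_one' := by
        ext1
        · simp [QuadraticAlgebra.re_one]
        · simp [QuadraticAlgebra.im_one]
      map_mul' := fun z w => by
        ext1
        · simp [QuadraticAlgebra.re_mul]
        · simp [QuadraticAlgebra.im_mul]
      map_zero' := by ext1 <;> simp
      map_add' := fun z w => by ext1 <;> simp
      commutes' := fun c => by
        ext1
        · change (algebraMap Om (Co f) c).re.eval s = _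
          have h1 : (algebraMap Om (Co f) c).re = C c := rfl
          rw [h1, eval_C]
          rfl
        · change (algebraMap Om (Co f) c).im.eval s = _
          have h1 : (algebraMap Om (Co f) c).im = 0 := rfl
          rw [h1, eval_zero]
          rfl }
  have hΨ : ∀ z, Ψ z = ⟨z.re.eval s, z.im.eval s⟩ := fun _ => rfl
  have hsurj : Function.Surjective Ψ := by
    rintro ⟨p, q⟩
    exact ⟨⟨C p, C q⟩, by rw [hΨ]; simp⟩
  have hker : RingHom.ker Ψ = Ideal.span {po f (X - C s)} := by
    ext z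
    rw [RingHom.mem_ker, Ideal.mem_span_singleton, hΨ]
    constructor
    · intro h
      have h1 : z.re.eval s = 0 := congrArg QuadraticAlgebra.re h
      have h2 : z.im.eval s = 0 := congrArg QuadraticAlgebra.im h
      obtain ⟨p, hp⟩ := dvd_iff_isRoot.2 h1
      obtain ⟨q, hq⟩ := dvd_iff_isRoot.2 h2
      refine ⟨⟨p, q⟩, ?_⟩
      ext1
      · rw [QuadraticAlgebra.re_mul, po_re, po_im, hp]
        ring
      · rw [QuadraticAlgebra.im_mul, po_re, po_im, hq]
        ring
    · rintro ⟨w, rfl⟩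
      ext1
      · change eval s (po f (X - C s) * w).re = 0
        rw [QuadraticAlgebra.re_mul, po_re, po_im]
        simp
      · change eval s (po f (X - C s) * w).im = 0
        rw [QuadraticAlgebra.im_mul, po_re, po_im]
        simp
  let e : (Co f ⧸ Ideal.span {po f (X - C s)}) ≃ₐ[Om] QuadraticAlgebra Om (f.eval s) 0 :=
    (Ideal.quotientEquivAlgOfEq Om hker.symm).trans (Ideal.quotientKerAlgEquivOfSurjective hsurj)
  have he : e (Ideal.Quotient.mk _ v) = Ψ v := rfl
  rw [dq, ← Algebra.norm_eq_of_algEquiv e, he, Algebra.norm_apply]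
  have h1 : Algebra.lmul Om (QuadraticAlgebra Om (f.eval s) 0) (Ψ v) =
      DistribSMul.toLinearMap Om (QuadraticAlgebra Om (f.eval s) 0) (Ψ v) := by
    ext1 x
    rfl
  rw [h1, QuadraticAlgebra.det_toLinearMap_eq_norm, hΨ, QuadraticAlgebra.norm_def, norm_eq]
  simp only [eval_sub, eval_pow, eval_mul]
  ring

/-- `det (x - s | Co f ⧸ (y)) = - f(s)` -/
theorem dq_yy (s : Om) : dq Om (po f (X - C s)) (Ideal.span {yy f}) = -f.eval s := by
  have hf0 : f ≠ 0 := f_ne_zero f
  have hmk : AdjoinRoot.mk f f = 0 := AdjoinRoot.mk_self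
  let Ψ : Co f →ₐ[Om] AdjoinRoot f :=
    { toFun := fun z => AdjoinRoot.mk f z.re
      map_one' := by rw [QuadraticAlgebra.re_one, map_one]
      map_mul' := fun z w => by
        rw [QuadraticAlgebra.re_mul, map_add, map_mul, map_mul, map_mul, hmk, zero_mul, zero_mul,
          add_zero]
      map_zero' := by rw [QuadraticAlgebra.re_zero, map_zero]
      map_add' := fun z w => by rw [QuadraticAlgebra.re_add, map_add]
      commutes' := fun c => by
        have h1 : (algebraMap Om (Co f) c).re = C c := rfl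
        rw [h1]
        rfl }
  have hΨ : ∀ z, Ψ z = AdjoinRoot.mk f z.re := fun _ => rfl
  have hsurj : Function.Surjective Ψ := by
    intro x
    obtain ⟨p, rfl⟩ := AdjoinRoot.mk_surjective x
    exact ⟨po f p, rfl⟩
  have hker : RingHom.ker Ψ = Ideal.span {yy f} := by
    ext z
    rw [RingHom.mem_ker, Ideal.mem_span_singleton, hΨ, AdjoinRoot.mk_eq_zero]
    constructor
    · rintro ⟨p, hp⟩
      refine ⟨⟨z.im, p⟩, ?_⟩
      ext1
      · rw [QuadraticAlgebra.re_mul, hp]
        simp [yy]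
      · rw [QuadraticAlgebra.im_mul]
        simp [yy]
    · rintro ⟨w, rfl⟩
      rw [QuadraticAlgebra.re_mul]
      simp [yy]
  let e : (Co f ⧸ Ideal.span {yy f}) ≃ₐ[Om] AdjoinRoot f :=
    (Ideal.quotientEquivAlgOfEq Om hker.symm).trans (Ideal.quotientKerAlgEquivOfSurjective hsurj)
  have he : e (Ideal.Quotient.mk _ (po f (X - C s))) = AdjoinRoot.mk f (X - C s) := rfl
  rw [dq, ← Algebra.norm_eq_of_algEquiv e, he]
  set pb := AdjoinRoot.powerBasis hf0 with hpb
  have hgen : pb.gen = AdjoinRoot.root f := AdjoinRoot.powerBasis_gen hf0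
  rw [Algebra.norm_eq_matrix_det pb.basis]
  have h1 : AdjoinRoot.mk f (X - C s) = pb.gen - algebraMap Om (AdjoinRoot f) s := by
    rw [hgen, map_sub, AdjoinRoot.mk_X, AdjoinRoot.mk_C]
    rfl
  have h2 : Algebra.leftMulMatrix pb.basis (AdjoinRoot.mk f (X - C s)) =
      -(Matrix.scalar (Fin pb.dim) s - Algebra.leftMulMatrix pb.basis pb.gen) := by
    rw [h1, map_sub, AlgHom.commutes, neg_sub]
    rfl
  rw [h2, Matrix.det_neg, ← Matrix.eval_charpoly, charpoly_leftMulMatrix, hgen,
    AdjoinRoot.minpoly_root hf0, (Hyp.monic (f := f)).leadingCoeff, inv_one, C_1, mul_one,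
    Fintype.card_fin, AdjoinRoot.powerBasis_dim, (Hyp.odd (f := f)).neg_one_pow, neg_one_mul]

section sign

/-- the sign of a pair with known determinants -/
theorem sg_of_eq {h v : Co f} {a b : ℕ} (hh : (dgF f).Mon a h) (hv : (dgF f).Mon b v)
    (he : dq Om h (Ideal.span {v}) = dq Om v (Ideal.span {h}))
    (hne : dq Om v (Ideal.span {h}) ≠ 0) : (((dgF f).sg hh.gam hv.gam : ℤ) : Om) = 1 := by
  have h1 := Filt.recip_sign hh hv
  rw [he] at h1
  have h2 : (1 - (((dgF f).sg hh.gam hv.gam : ℤ) : Om)) * dq Om v (Ideal.span {h}) = 0 := by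
    linear_combination h1
  rcases mul_eq_zero.1 h2 with h3 | h3
  · linear_combination -h3
  · exact absurd h3 hne

theorem lcc_lin (s : Om) : lcc (po f (X - C s)) = 1 := by
  rw [po_eq, lcc_poly, leadingCoeff_X_sub_C]

theorem wd_lin (s : Om) : wd (po f (X - C s)) = 2 := by
  rw [po_eq, wd_poly, natDegree_X_sub_C]

theorem norm_yy : (yy f).norm = -f := by
  rw [norm_eq]
  simp [yy]

theorem wd_yy : wd (yy f) = f.natDegree := by
  rw [wd, norm_yy, natDegree_neg]

theorem lcc_yy : lcc (yy f) = 1 := by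
  have h : LT (yy f) = X ^ f.natDegree := by
    rw [LT]
    simp [yy]
  rw [lcc, h, leadingCoeff_X_pow]

variable [Infinite Om]

/-- the sign for an even degree -/
theorem sg_even {k b : ℕ} (ha : (dgF f).Gam (2 * k)) (hb : (dgF f).Gam b) :
    (((dgF f).sg ha hb : ℤ) : Om) = 1 := by
  classical
  have hodd : f.natDegree % 2 = 1 := Nat.odd_iff.1 Hyp.odd
  -- `s` with `f(s) ≠ 0`, `s' ≠ s`
  obtain ⟨s, hs⟩ : ∃ s, f.eval s ≠ 0 := by
    by_contra hcon
    push Not at hcon
    exact f_ne_zero f (Polynomial.funext fun s => by rw [hcon s, eval_zero])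
  obtain ⟨s', hs'⟩ := exists_ne s
  have hss : (s - s') ^ 2 ≠ 0 := pow_ne_zero 2 (sub_ne_zero.2 hs'.symm)
  have e1 : dq Om (po f (X - C s)) (Ideal.span {po f (X - C s')}) = (s - s') ^ 2 := by
    rw [dq_line, po_eq, norm_poly, eval_pow, eval_sub, eval_X, eval_C]
    ring
  have hne : ∀ s, Ideal.span {po f (X - C s)} ≠ ⊥ := fun s => by
    rw [ne_eq, Ideal.span_singleton_eq_bot]
    exact po_ne_zero (X_sub_C_ne_zero s)
  have hney : Ideal.span {yy f} ≠ ⊥ := by
    rw [ne_eq, Ideal.span_singleton_eq_bot]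
    exact lcc_ne_zero_of_one lcc_yy
  set h : Co f := po f (X - C s) ^ k with hh
  have hhm : (dgF f).Mon (2 * k) h := mon_iff.2 ⟨by rw [hh, lcc_pow, lcc_lin, one_pow],
    by rw [hh, wd_pow, wd_lin, mul_comm]⟩
  -- `v`
  obtain ⟨v, hv, hv1, hv2⟩ : ∃ v : Co f, (dgF f).Mon b v ∧
      dq Om (po f (X - C s)) (Ideal.span {v}) = v.norm.eval s ∧ v.norm.eval s ≠ 0 := by
    have key : ∀ l : ℕ, dq Om (po f (X - C s)) (Ideal.span {po f (X - C s')} ^ l) =
        ((s - s') ^ 2) ^ l := fun l => by rw [dq_powI (hne s'), e1]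
    rcases Nat.even_or_odd' b with ⟨l, hl | hl⟩
    · refine ⟨po f (X - C s') ^ l, mon_iff.2 ⟨by rw [lcc_pow, lcc_lin, one_pow],
        by rw [wd_pow, wd_lin, hl, mul_comm]⟩, ?_, ?_⟩
      · rw [← Ideal.span_singleton_pow, key, map_pow, eval_pow, po_eq, norm_poly, eval_pow,
          eval_sub, eval_X, eval_C]
      · rw [map_pow, eval_pow, po_eq, norm_poly, eval_pow, eval_sub, eval_X, eval_C]
        exact pow_ne_zero l hss
    · obtain ⟨z, hz⟩ := hb
      have hbn : f.natDegree ≤ b := by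
        by_contra hcon
        have h0 := degT_odd' (f := f) (n := f.natDegree) (d := b) (by omega) (by omega) z
        have h1 : degT f f.natDegree b z = 1 := hz.2
        rw [h0] at h1
        exact zero_ne_one h1
      obtain ⟨l', hl'⟩ : ∃ l', b = l' * 2 + f.natDegree := ⟨(b - f.natDegree) / 2, by omega⟩
      refine ⟨po f (X - C s') ^ l' * yy f, mon_iff.2 ⟨by rw [lcc_mul, lcc_pow, lcc_lin, one_pow,
        lcc_yy, mul_one], ?_⟩, ?_, ?_⟩
      · rw [wd_mul (pow_ne_zero _ (po_ne_zero (X_sub_C_ne_zero s')))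
          (lcc_ne_zero_of_one lcc_yy), wd_pow, wd_lin, wd_yy, hl']
      · rw [← Ideal.span_singleton_mul_span_singleton, dq_mulI (by
          rw [← Ideal.span_singleton_pow]
          exact pow_ne_zero l' (hne s')) hney, ← Ideal.span_singleton_pow, key, dq_yy, map_mul,
          map_pow, eval_mul, eval_pow, po_eq, norm_poly, eval_pow, eval_sub, eval_X, eval_C,
          norm_yy, eval_neg]
      · rw [map_mul, map_pow, eval_mul, eval_pow, po_eq, norm_poly, eval_pow, eval_sub, eval_X,
          eval_C, norm_yy, eval_neg]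
        exact mul_ne_zero (pow_ne_zero l' hss) (neg_ne_zero.2 hs)
  have e2 : dq Om v (Ideal.span {h}) = v.norm.eval s ^ k := by
    rw [hh, ← Ideal.span_singleton_pow, dq_powI (hne s), dq_line]
  have e3 : dq Om h (Ideal.span {v}) = v.norm.eval s ^ k := by
    rw [hh, dq_pow, hv1]
  exact sg_of_eq hhm hv (e3.trans e2.symm) (by rw [e2]; exact pow_ne_zero k hv2)

/-- **Weil reciprocity.** -/
theorem recip {h v : Co f} (hh : lcc h = 1) (hv : lcc v = 1) (he : Even (wd h) ∨ Even (wd v)) :
    dq Om h (Ideal.span {v}) = dq Om v (Ideal.span {h}) := by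
  have key : ∀ h v : Co f, lcc h = 1 → lcc v = 1 → Even (wd h) →
      dq Om h (Ideal.span {v}) = dq Om v (Ideal.span {h}) := by
    intro h v hh hv he
    obtain ⟨k, hk⟩ := he
    have h1 := Filt.recip_sign (mon_wd hh) (mon_wd hv)
    have hk' : wd h = 2 * k := by omega
    have hm : (dgF f).Mon (2 * k) h := hk' ▸ mon_wd hh
    have h2 := Filt.recip_sign hm (mon_wd hv)
    rw [sg_even hm.gam (mon_wd hv).gam, one_mul] at h2
    exact h2
  rcases he with he | he
  · exact key h v hh hv he
  · exact (key v h hv hh he).symm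

end sign

end Pool.Agent.SmJ
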