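import Pool.Agent.Lib.SmJ.P.Stair

/-!
SMITH for Jacobians, block P / Weil pairing: reciprocity up to a sign which depends only on the
degrees. `recip_sign`: for `h` monic of degree `a`, `v` monic of degree `b`:
`det (h | A ⧸ (v)) = sg a b * det (v | A ⧸ (h))`, `sg a b` the sign of the permutation
`perm a b` of `S (a + b)`.
-/

set_option autoImplicit false

namespace Pool.Agent.SmJ

section block

variable {F : Type*} [Field F] {M N : Type*} [AddCommGroup M] [Module F M] [AddCommGroup N]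
  [Module F N] {ι₁ ι₂ : Type*} [Fintype ι₁] [Fintype ι₂] [DecidableEq ι₁] [DecidableEq ι₂]

/-- The determinant of a family which agrees with a basis on the first block. -/
theorem det_block (q : M →ₗ[F] N) (B : Module.Basis (ι₁ ⊕ ι₂) F M) (C : Module.Basis ι₂ F N)
    (hq1 : ∀ i, q (B (Sum.inl i)) = 0) (hq2 : ∀ i, q (B (Sum.inr i)) = C i) (w : ι₁ ⊕ ι₂ → M)
    (T : N →ₗ[F] N) (hw1 : ∀ i, w (Sum.inl i) = B (Sum.inl i))
    (hw2 : ∀ i, q (w (Sum.inr i)) = T (C i)) : B.det w = LinearMap.det T := by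
  have hrepr : ∀ (x : M) (i : ι₂), C.repr (q x) i = B.repr x (Sum.inr i) := by
    intro x i
    have h1 : q x = ∑ j, B.repr x (Sum.inr j) • C j := by
      conv_lhs => rw [← B.sum_repr x]
      rw [Fintype.sum_sum_type, map_add, map_sum, map_sum]
      simp only [map_smul, hq1, hq2, smul_zero, Finset.sum_const_zero, zero_add]
    rw [h1, map_sum, Finsupp.finsetSum_apply]
    simp only [map_smul, Module.Basis.repr_self, Finsupp.smul_apply, Finsupp.single_apply,
      smul_eq_mul, mul_ite, mul_one, mul_zero]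
    rw [Finset.sum_ite_eq' Finset.univ i]
    simp
  rw [Module.Basis.det_apply, ← LinearMap.det_toMatrix C]
  have h2 : B.toMatrix w = Matrix.fromBlocks 1
      (Matrix.of fun i j => B.repr (w (Sum.inr j)) (Sum.inl i)) 0 (LinearMap.toMatrix C C T) := by
    ext i j
    rcases i with i | i <;> rcases j with j | j
    · rw [Matrix.fromBlocks_apply₁₁, Module.Basis.toMatrix_apply, hw1, Module.Basis.repr_self,
        Finsupp.single_apply, Matrix.one_apply]
      simp only [Sum.inl.injEq, eq_comm]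
    · rw [Matrix.fromBlocks_apply₁₂, Module.Basis.toMatrix_apply]
      rfl
    · rw [Matrix.fromBlocks_apply₂₁, Module.Basis.toMatrix_apply, hw1, Module.Basis.repr_self,
        Finsupp.single_apply, if_neg (by simp)]
      rfl
    · rw [Matrix.fromBlocks_apply₂₂, Module.Basis.toMatrix_apply, LinearMap.toMatrix_apply,
        ← hrepr, hw2]
  rw [h2, Matrix.det_fromBlocks_zero₂₁, Matrix.det_one, one_mul]

end block

namespace Filt

variable {F A : Type*} [Field F] [CommRing A] [Algebra F A] (Φ : Filt F A)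

/-- `inl γ ↦ a + γ`, `inr γ ↦ γ` -/
noncomputable def E1 {a b : ℕ} (ha : Φ.Gam a) (hb : Φ.Gam b) : Φ.S b ⊕ Φ.S a ≃ Φ.S (a + b) :=
  Equiv.ofBijective (Sum.elim
    (fun i => ⟨a + i.1, ha.add i.2.1, by
      rintro ⟨d, hd, h⟩
      exact i.2.2 ⟨d, hd, by omega⟩⟩)
    (fun i => ⟨i.1, i.2.1, by
      rintro ⟨d, hd, h⟩
      exact i.2.2 ⟨b + d, hb.add hd, by omega⟩⟩)) (by
    constructor
    · rintro (i | i) (j | j) h
      · have h1 : a + i.1 = a + j.1 := congrArg Subtype.val h
        congr 1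
        exact Subtype.ext (by omega)
      · have h1 : a + i.1 = j.1 := congrArg Subtype.val h
        exact absurd ⟨i.1, i.2.1, h1.symm⟩ j.2.2
      · have h1 : i.1 = a + j.1 := congrArg Subtype.val h
        exact absurd ⟨j.1, j.2.1, h1⟩ i.2.2
      · have h1 : i.1 = j.1 := congrArg (fun x : Φ.S (a + b) => x.1) h
        congr 1
        exact Subtype.ext h1
    · intro k
      by_cases hk : ∃ d, Φ.Gam d ∧ k.1 = a + d
      · obtain ⟨d, hd, h⟩ := hk
        refine ⟨Sum.inl ⟨d, hd, ?_⟩, Subtype.ext h.symm⟩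
        rintro ⟨d', hd', h'⟩
        exact k.2.2 ⟨d', hd', by omega⟩
      · exact ⟨Sum.inr ⟨k.1, k.2.1, hk⟩, Subtype.ext rfl⟩)

/-- `inl γ ↦ γ`, `inr γ ↦ b + γ` -/
noncomputable def E2 {a b : ℕ} (ha : Φ.Gam a) (hb : Φ.Gam b) : Φ.S b ⊕ Φ.S a ≃ Φ.S (a + b) :=
  Equiv.ofBijective (Sum.elim
    (fun i => ⟨i.1, i.2.1, by
      rintro ⟨d, hd, h⟩
      exact i.2.2 ⟨a + d, ha.add hd, by omega⟩⟩)
    (fun i => ⟨b + i.1, hb.add i.2.1, by
      rintro ⟨d, hd, h⟩
      exact i.2.2 ⟨d, hd, by omega⟩⟩)) (by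
    constructor
    · rintro (i | i) (j | j) h
      · have h1 : i.1 = j.1 := congrArg (fun x : Φ.S (a + b) => x.1) h
        congr 1
        exact Subtype.ext h1
      · have h1 : i.1 = b + j.1 := congrArg Subtype.val h
        exact absurd ⟨j.1, j.2.1, h1⟩ i.2.2
      · have h1 : b + i.1 = j.1 := congrArg Subtype.val h
        exact absurd ⟨i.1, i.2.1, h1.symm⟩ j.2.2
      · have h1 : b + i.1 = b + j.1 := congrArg Subtype.val h
        congr 1
        exact Subtype.ext (by omega)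
    · intro k
      by_cases hk : ∃ d, Φ.Gam d ∧ k.1 = b + d
      · obtain ⟨d, hd, h⟩ := hk
        refine ⟨Sum.inr ⟨d, hd, ?_⟩, Subtype.ext h.symm⟩
        rintro ⟨d', hd', h'⟩
        exact k.2.2 ⟨d', hd', by omega⟩
      · exact ⟨Sum.inl ⟨k.1, k.2.1, hk⟩, Subtype.ext rfl⟩)

/-- The sign. -/
noncomputable def sg {a b : ℕ} (ha : Φ.Gam a) (hb : Φ.Gam b) : ℤˣ :=
  Equiv.Perm.sign ((Φ.E2 ha hb).symm.trans (Φ.E1 ha hb))

variable {Φ}

theorem recip_sign {a b : ℕ} {h v : A} (hh : Φ.Mon a h) (hv : Φ.Mon b v) :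
    dq F h (Ideal.span {v}) = ((Φ.sg hh.gam hv.gam : ℤ) : F) * dq F v (Ideal.span {h}) := by
  classical
  set ha := hh.gam
  set hb := hv.gam
  have hhv : Φ.Mon (a + b) (h * v) := hh.mul hv
  set mk := Ideal.Quotient.mk (Ideal.span {h * v}) with hmk
  -- the families
  set f1 : Φ.S b ⊕ Φ.S a → A := Sum.elim (fun i => h * Φ.e i.1) (fun i => Φ.e i.1) with hf1
  set f2 : Φ.S b ⊕ Φ.S a → A := Sum.elim (fun i => Φ.e i.1) (fun i => v * Φ.e i.1) with hf2
  set f3 : Φ.S b ⊕ Φ.S a → A := Sum.elim (fun i => h * Φ.e i.1) (fun i => v * Φ.e i.1) with hf3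
  have m1 : ∀ k, Φ.Mon (k : Φ.S (a + b)).1 (f1 ((Φ.E1 ha hb).symm k)) := by
    intro k
    obtain ⟨x, rfl⟩ := (Φ.E1 ha hb).surjective k
    rw [Equiv.symm_apply_apply]
    rcases x with i | i
    · exact hh.mul (e_mon i.2.1)
    · exact e_mon i.2.1
  have m2 : ∀ k, Φ.Mon (k : Φ.S (a + b)).1 (f2 ((Φ.E2 ha hb).symm k)) := by
    intro k
    obtain ⟨x, rfl⟩ := (Φ.E2 ha hb).surjective k
    rw [Equiv.symm_apply_apply]
    rcases x with i | i
    · exact e_mon i.2.1
    · exact hv.mul (e_mon i.2.1)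
  set B0 := stair hhv (fun i : Φ.S (a + b) => Φ.e i.1) (fun i => e_mon i.2.1) with hB0
  set B1 := (stair hhv _ m1).reindex (Φ.E1 ha hb).symm with hB1
  set B2 := (stair hhv _ m2).reindex (Φ.E2 ha hb).symm with hB2
  have a1 : ∀ x, B1 x = mk (f1 x) := by
    intro x
    rw [hB1, Module.Basis.reindex_apply, stair_apply, Equiv.symm_symm, Equiv.symm_apply_apply]
  have a2 : ∀ x, B2 x = mk (f2 x) := by
    intro x
    rw [hB2, Module.Basis.reindex_apply, stair_apply, Equiv.symm_symm, Equiv.symm_apply_apply]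
  set w : Φ.S b ⊕ Φ.S a → A ⧸ Ideal.span {h * v} := fun x => mk (f3 x) with hw
  -- the projections
  have le1 : Ideal.span {h * v} ≤ Ideal.span {h} := by
    rw [Ideal.span_singleton_le_iff_mem]
    exact Ideal.mul_mem_right _ _ (Ideal.mem_span_singleton_self h)
  have le2 : Ideal.span {h * v} ≤ Ideal.span {v} := by
    rw [Ideal.span_singleton_le_iff_mem]
    exact Ideal.mul_mem_left _ _ (Ideal.mem_span_singleton_self v)
  set q1 : (A ⧸ Ideal.span {h * v}) →ₗ[F] (A ⧸ Ideal.span {h}) :=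
    (Submodule.mapQ (Ideal.span {h * v}) (Ideal.span {h}) LinearMap.id
      (fun x hx => le1 hx)).restrictScalars F with hq1
  set q2 : (A ⧸ Ideal.span {h * v}) →ₗ[F] (A ⧸ Ideal.span {v}) :=
    (Submodule.mapQ (Ideal.span {h * v}) (Ideal.span {v}) LinearMap.id
      (fun x hx => le2 hx)).restrictScalars F with hq2
  have q1a : ∀ x, q1 (mk x) = Ideal.Quotient.mk (Ideal.span {h}) x := fun _ => rfl
  have q2a : ∀ x, q2 (mk x) = Ideal.Quotient.mk (Ideal.span {v}) x := fun _ => rfl
  -- first determinant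
  have d1 : B1.det w = dq F v (Ideal.span {h}) := by
    rw [dq_eq_det]
    refine det_block q1 B1 (stair hh (fun i => Φ.e i.1) fun i => e_mon i.2.1) ?_ ?_ w _ ?_ ?_
    · intro i
      rw [a1, q1a, Ideal.Quotient.eq_zero_iff_mem]
      exact Ideal.mul_mem_right _ _ (Ideal.mem_span_singleton_self h)
    · intro i
      rw [a1, q1a, stair_apply]
      rfl
    · intro i
      rw [a1]
      rfl
    · intro i
      rw [hw]
      beta_reduce
      rw [q1a, stair_apply]
      rfl
  -- second determinant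
  have d2 : B2.det w = dq F h (Ideal.span {v}) := by
    rw [dq_eq_det]
    have h1 : B2.det w = (B2.reindex (Equiv.sumComm _ _)).det (w ∘ (Equiv.sumComm _ _)) := by
      rw [Module.Basis.det_reindex B2 (w ∘ (Equiv.sumComm (Φ.S a) (Φ.S b)))
        (Equiv.sumComm (Φ.S b) (Φ.S a))]
      congr 1
      funext x
      rcases x with x | x <;> rfl
    rw [h1]
    refine det_block q2 _ (stair hv (fun i => Φ.e i.1) fun i => e_mon i.2.1) ?_ ?_ _ _ ?_ ?_
    · intro i
      rw [Module.Basis.reindex_apply]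
      change q2 (B2 (Sum.inr i)) = 0
      rw [a2, q2a, Ideal.Quotient.eq_zero_iff_mem]
      exact Ideal.mul_mem_right _ _ (Ideal.mem_span_singleton_self v)
    · intro i
      rw [Module.Basis.reindex_apply]
      change q2 (B2 (Sum.inl i)) = _
      rw [a2, q2a, stair_apply]
      rfl
    · intro i
      rw [Module.Basis.reindex_apply]
      change w (Sum.inr i) = B2 (Sum.inr i)
      rw [a2]
      rfl
    · intro i
      change q2 (w (Sum.inl i)) = _
      rw [hw]
      beta_reduce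
      rw [q2a, stair_apply]
      rfl
  -- comparison with `B0`
  have c1 : (B0.reindex (Φ.E1 ha hb).symm).det w = B1.det w := by
    have h1 := (B0.reindex (Φ.E1 ha hb).symm).det.eq_smul_basis_det B1
    have h2 : (B0.reindex (Φ.E1 ha hb).symm).det B1 = 1 := by
      rw [Module.Basis.det_reindex]
      have h3 : (⇑B1 ∘ (Φ.E1 ha hb).symm) =
          fun k => mk (f1 ((Φ.E1 ha hb).symm k)) := by
        funext k
        exact a1 _
      rw [h3]
      exact stair_det hhv _ _ _ m1
    rw [h2, one_smul] at h1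
    rw [h1]
  have c2 : (B0.reindex (Φ.E2 ha hb).symm).det w = B2.det w := by
    have h1 := (B0.reindex (Φ.E2 ha hb).symm).det.eq_smul_basis_det B2
    have h2 : (B0.reindex (Φ.E2 ha hb).symm).det B2 = 1 := by
      rw [Module.Basis.det_reindex]
      have h3 : (⇑B2 ∘ (Φ.E2 ha hb).symm) =
          fun k => mk (f2 ((Φ.E2 ha hb).symm k)) := by
        funext k
        exact a2 _
      rw [h3]
      exact stair_det hhv _ _ _ m2
    rw [h2, one_smul] at h1
    rw [h1]
  rw [Module.Basis.det_reindex] at c1 c2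
  have h4 : (w ∘ (Φ.E2 ha hb).symm) = (w ∘ (Φ.E1 ha hb).symm) ∘
      ((Φ.E2 ha hb).symm.trans (Φ.E1 ha hb)) := by
    funext k
    simp only [Function.comp_apply, Equiv.trans_apply, Equiv.symm_apply_apply]
  rw [h4, AlternatingMap.map_perm, c1, d1] at c2
  rw [← d2, ← c2, sg]
  rcases Int.units_eq_one_or (Equiv.Perm.sign ((Φ.E2 ha hb).symm.trans (Φ.E1 ha hb))) with h5 | h5
  · rw [h5]
    simp
  · rw [h5]
    simp

end Filt

end Pool.Agent.SmJ
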