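import Pool.Agent.Lib.SmJ.P.DetQ

/-!
SMITH for Jacobians, block P / Weil pairing: degree filtrations and monic bases.

`Filt F A`: a filtration `L d` (elements of degree `< d`) of the `F`-algebra `A` with the linear
forms `tc d` (the coefficient of degree `d`), multiplicative, almost all degrees occurring.
`Mon d z`: `z` is monic of degree `d`. `S c`: the degrees which are not `c` + a degree.

* `stair`: for `w` monic of degree `c` and `b γ` monic of degree `γ ∈ S c`: the classes of the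
  `b γ` are a basis of `A ⧸ (w)`;
* `stair_det`: the determinant of the change of two such bases is `1`.
-/

set_option autoImplicit false

namespace Pool.Agent.SmJ

/-- A degree filtration. -/
structure Filt (F A : Type*) [Field F] [CommRing A] [Algebra F A] where
  L : ℕ → Submodule F A
  tc : ℕ → (A →ₗ[F] F)
  zero : L 0 = ⊥
  succ : ∀ d z, z ∈ L d ↔ z ∈ L (d + 1) ∧ tc d z = 0
  top : ∀ z, ∃ d, z ∈ L d
  mul_mem : ∀ d d' z w, z ∈ L (d + 1) → w ∈ L (d' + 1) → z * w ∈ L (d + d' + 1)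
  mul_tc : ∀ d d' z w, z ∈ L (d + 1) → w ∈ L (d' + 1) → tc (d + d') (z * w) = tc d z * tc d' w
  cof : ∃ G, ∀ d, G ≤ d → ∃ z ∈ L (d + 1), tc d z = 1

namespace Filt

variable {F A : Type*} [Field F] [CommRing A] [Algebra F A] (Φ : Filt F A)

/-- `z` is monic of degree `d` -/
def Mon (d : ℕ) (z : A) : Prop := z ∈ Φ.L (d + 1) ∧ Φ.tc d z = 1

/-- the set of degrees -/
def Gam (d : ℕ) : Prop := ∃ z, Φ.Mon d z

variable {Φ}

theorem mono {d d' : ℕ} (h : d ≤ d') : Φ.L d ≤ Φ.L d' := by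
  induction d', h using Nat.le_induction with
  | base => exact le_rfl
  | succ n _ ih => exact ih.trans fun z hz => ((Φ.succ n z).1 hz).1

theorem Mon.mul {d d' : ℕ} {z w : A} (hz : Φ.Mon d z) (hw : Φ.Mon d' w) :
    Φ.Mon (d + d') (z * w) :=
  ⟨Φ.mul_mem d d' z w hz.1 hw.1, by rw [Φ.mul_tc d d' z w hz.1 hw.1, hz.2, hw.2, mul_one]⟩

theorem Gam.add {d d' : ℕ} (h : Φ.Gam d) (h' : Φ.Gam d') : Φ.Gam (d + d') := by
  obtain ⟨z, hz⟩ := h
  obtain ⟨w, hw⟩ := h'
  exact ⟨z * w, hz.mul hw⟩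

theorem Mon.gam {d : ℕ} {z : A} (hz : Φ.Mon d z) : Φ.Gam d := ⟨z, hz⟩

theorem Mon.sub_mem {d : ℕ} {z w : A} (hz : Φ.Mon d z) (hw : Φ.Mon d w) : z - w ∈ Φ.L d := by
  rw [Φ.succ]
  exact ⟨(Φ.L _).sub_mem hz.1 hw.1, by rw [map_sub, hz.2, hw.2, sub_self]⟩

theorem gam_of_tc {d : ℕ} {z : A} (hz : z ∈ Φ.L (d + 1)) (h : Φ.tc d z ≠ 0) : Φ.Gam d :=
  ⟨(Φ.tc d z)⁻¹ • z, (Φ.L _).smul_mem _ hz, by
    rw [map_smul, smul_eq_mul, inv_mul_cancel₀ h]⟩

/-- the degree of a nonzero element -/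
theorem exists_deg {z : A} (hz : z ≠ 0) : ∃ d, z ∈ Φ.L (d + 1) ∧ Φ.tc d z ≠ 0 := by
  classical
  have h := Φ.top z
  have h1 := Nat.find_spec h
  rcases hd : Nat.find h with _ | d
  · rw [hd, Φ.zero] at h1
    exact absurd h1 hz
  · rw [hd] at h1
    refine ⟨d, h1, fun h0 => ?_⟩
    have h2 : z ∈ Φ.L d := (Φ.succ d z).2 ⟨h1, h0⟩
    exact Nat.find_min h (by omega) h2

theorem deg_unique {z : A} {d d' : ℕ} (h1 : z ∈ Φ.L (d + 1)) (h2 : Φ.tc d z ≠ 0)
    (h1' : z ∈ Φ.L (d' + 1)) (h2' : Φ.tc d' z ≠ 0) : d = d' := by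
  rcases lt_trichotomy d d' with h | h | h
  · exact absurd ((Φ.succ d' z).1 (mono (by omega : d + 1 ≤ d') h1)).2 h2'
  · exact h
  · exact absurd ((Φ.succ d z).1 (mono (by omega : d' + 1 ≤ d) h1')).2 h2

variable (Φ)

open Classical in
/-- chosen monic elements -/
noncomputable def e (d : ℕ) : A := if h : Φ.Gam d then h.choose else 0

variable {Φ}

theorem e_mon {d : ℕ} (h : Φ.Gam d) : Φ.Mon d (Φ.e d) := by
  rw [e, dif_pos h]
  exact h.choose_spec

variable (Φ)

/-- the degrees which are not `c` plus a degree -/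
def S (c : ℕ) : Type := {d : ℕ // Φ.Gam d ∧ ¬ ∃ d', Φ.Gam d' ∧ d = c + d'}

noncomputable instance (c : ℕ) : LinearOrder (Φ.S c) :=
  inferInstanceAs (LinearOrder {d : ℕ // Φ.Gam d ∧ ¬ ∃ d', Φ.Gam d' ∧ d = c + d'})

variable {Φ}

theorem S.lt_iff {c : ℕ} (i j : Φ.S c) : i < j ↔ i.1 < j.1 := Iff.rfl

instance (c : ℕ) : Finite (Φ.S c) := by
  obtain ⟨G, hG⟩ := Φ.cof
  have h : ∀ i : Φ.S c, i.1 < c + G := by
    intro i
    by_contra hcon
    push Not at hcon
    refine i.2.2 ⟨i.1 - c, ?_, by omega⟩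
    obtain ⟨z, hz, hz'⟩ := hG (i.1 - c) (by omega)
    exact ⟨z, hz, hz'⟩
  exact Finite.of_injective (fun i : Φ.S c => (⟨i.1, h i⟩ : Fin (c + G)))
    fun i j hij => Subtype.ext (congrArg Fin.val hij)

noncomputable instance (c : ℕ) : Fintype (Φ.S c) := Fintype.ofFinite _

section basis

variable {c : ℕ} {w : A} (hw : Φ.Mon c w) (b : Φ.S c → A) (hb : ∀ i, Φ.Mon i.1 (b i))

include hw hb

/-- elements of degree `< d` are combinations of the `b γ`, `γ < d`, modulo `w` -/
theorem mem_span_lt (d : ℕ) (z : A) (hz : z ∈ Φ.L d) :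
    Ideal.Quotient.mk (Ideal.span {w}) z ∈
      Submodule.span F {x | ∃ i : Φ.S c, i.1 < d ∧ x = Ideal.Quotient.mk (Ideal.span {w}) (b i)} := by
  induction d generalizing z with
  | zero =>
    rw [Φ.zero] at hz
    rw [(Submodule.mem_bot F).1 hz, map_zero]
    exact Submodule.zero_mem _
  | succ d ih =>
    have hmono : Submodule.span F {x | ∃ i : Φ.S c, i.1 < d ∧
        x = Ideal.Quotient.mk (Ideal.span {w}) (b i)} ≤ Submodule.span F {x | ∃ i : Φ.S c,
        i.1 < d + 1 ∧ x = Ideal.Quotient.mk (Ideal.span {w}) (b i)} := by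
      apply Submodule.span_mono
      rintro x ⟨i, hi, hx⟩
      exact ⟨i, by omega, hx⟩
    by_cases h0 : Φ.tc d z = 0
    · exact hmono (ih z ((Φ.succ d z).2 ⟨hz, h0⟩))
    · have hG : Φ.Gam d := gam_of_tc hz h0
      have key : ∀ m, Φ.Mon d m → z - Φ.tc d z • m ∈ Φ.L d := by
        intro m hm
        rw [Φ.succ]
        refine ⟨(Φ.L _).sub_mem hz ((Φ.L _).smul_mem _ hm.1), ?_⟩
        rw [map_sub, map_smul, hm.2, smul_eq_mul, mul_one, sub_self]
      by_cases hc : ∃ d', Φ.Gam d' ∧ d = c + d'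
      · obtain ⟨d', hd', rfl⟩ := hc
        have h1 := ih _ (key _ (hw.mul (e_mon hd')))
        have h2 : Ideal.Quotient.mk (Ideal.span {w}) (z - Φ.tc (c + d') z • (w * Φ.e d')) =
            Ideal.Quotient.mk (Ideal.span {w}) z := by
          rw [Ideal.Quotient.eq, sub_sub_cancel_left]
          refine (Ideal.span {w}).neg_mem ?_
          rw [Algebra.smul_def]
          exact Ideal.mul_mem_left _ _ (Ideal.mul_mem_right _ _ (Ideal.mem_span_singleton_self w))
        rw [h2] at h1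
        exact hmono h1
      · have h1 := hmono (ih _ (key _ (hb ⟨d, hG, hc⟩)))
        have h2 : Ideal.Quotient.mk (Ideal.span {w}) z =
            Ideal.Quotient.mk (Ideal.span {w}) (z - Φ.tc d z • b ⟨d, hG, hc⟩) +
              Φ.tc d z • Ideal.Quotient.mk (Ideal.span {w}) (b ⟨d, hG, hc⟩) := by
          have h3 : Φ.tc d z • Ideal.Quotient.mk (Ideal.span {w}) (b ⟨d, hG, hc⟩) =
              Ideal.Quotient.mk (Ideal.span {w}) (Φ.tc d z • b ⟨d, hG, hc⟩) := rfl
          rw [h3, ← map_add, sub_add_cancel]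
        rw [h2]
        refine Submodule.add_mem _ h1 (Submodule.smul_mem _ _ (Submodule.subset_span ?_))
        exact ⟨⟨d, hG, hc⟩, Nat.lt_succ_self d, rfl⟩

omit hw in
/-- the top term of a combination of the `b γ` -/
theorem comb_deg (a : Φ.S c → F) {j : Φ.S c} (hj : a j ≠ 0) (hmax : ∀ i, j < i → a i = 0) :
    (∑ i, a i • b i) ∈ Φ.L (j.1 + 1) ∧ Φ.tc j.1 (∑ i, a i • b i) ≠ 0 := by
  classical
  have hL : ∀ i, i ≠ j → a i • b i ∈ Φ.L j.1 := by
    intro i hi
    rcases lt_trichotomy i j with h | h | h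
    · exact (Φ.L _).smul_mem _ (mono (Nat.succ_le_of_lt h) (hb i).1)
    · exact absurd h hi
    · rw [hmax i h, zero_smul]
      exact Submodule.zero_mem _
  have h1 : ∑ i, a i • b i = a j • b j + ∑ i ∈ Finset.univ.erase j, a i • b i :=
    (Finset.add_sum_erase _ _ (Finset.mem_univ j)).symm
  have h2 : ∑ i ∈ Finset.univ.erase j, a i • b i ∈ Φ.L j.1 :=
    Submodule.sum_mem _ fun i hi => hL i (Finset.ne_of_mem_erase hi)
  have h3 := (Φ.succ _ _).1 h2
  rw [h1]
  refine ⟨(Φ.L _).add_mem ((Φ.L _).smul_mem _ (hb j).1) h3.1, ?_⟩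
  rw [map_add, h3.2, map_smul, (hb j).2, add_zero, smul_eq_mul, mul_one]
  exact hj

theorem stair_indep : LinearIndependent F (fun i => Ideal.Quotient.mk (Ideal.span {w}) (b i)) := by
  classical
  rw [Fintype.linearIndependent_iff]
  intro a ha
  by_contra hcon
  push Not at hcon
  set T : Finset (Φ.S c) := Finset.univ.filter fun i => a i ≠ 0 with hT
  have hTn : T.Nonempty := by
    obtain ⟨i, hi⟩ := hcon
    exact ⟨i, by rw [hT, Finset.mem_filter]; exact ⟨Finset.mem_univ _, hi⟩⟩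
  set j := T.max' hTn with hj
  have hmem : ∀ i ∈ T, a i ≠ 0 := fun i hi => by
    rw [hT, Finset.mem_filter] at hi
    exact hi.2
  have hj1 : a j ≠ 0 := hmem j (T.max'_mem hTn)
  have hmax : ∀ i, j < i → a i = 0 := by
    intro i hi
    by_contra h0
    have h1 : i ∈ T := by rw [hT, Finset.mem_filter]; exact ⟨Finset.mem_univ _, h0⟩
    exact absurd (T.le_max' i h1) (not_le.2 hi)
  obtain ⟨h1, h2⟩ := comb_deg b hb a hj1 hmax
  have h3 : (∑ i, a i • b i) ∈ Ideal.span {w} := by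
    rw [← Ideal.Quotient.eq_zero_iff_mem, map_sum]
    exact ha
  obtain ⟨t, ht⟩ := Ideal.mem_span_singleton'.1 h3
  have ht0 : t ≠ 0 := by
    rintro rfl
    rw [zero_mul] at ht
    rw [← ht, map_zero] at h2
    exact h2 rfl
  obtain ⟨d, hd1, hd2⟩ := exists_deg (Φ := Φ) ht0
  have h4 := Φ.mul_mem c d w t hw.1 hd1
  have h5 := Φ.mul_tc c d w t hw.1 hd1
  rw [mul_comm w t, ht] at h4 h5
  rw [hw.2, one_mul] at h5
  have h6 := deg_unique h1 h2 h4 (by rw [h5]; exact hd2)
  exact j.2.2 ⟨d, gam_of_tc hd1 hd2, h6⟩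

theorem stair_span :
    ⊤ ≤ Submodule.span F (Set.range fun i => Ideal.Quotient.mk (Ideal.span {w}) (b i)) := by
  intro x _
  obtain ⟨x, rfl⟩ := Ideal.Quotient.mk_surjective x
  obtain ⟨d, hd⟩ := Φ.top x
  refine Submodule.span_mono ?_ (mem_span_lt hw b hb d x hd)
  rintro y ⟨i, -, rfl⟩
  exact ⟨i, rfl⟩

/-- The monic basis. -/
noncomputable def stair : Module.Basis (Φ.S c) F (A ⧸ Ideal.span {w}) :=
  Module.Basis.mk (stair_indep hw b hb) (stair_span hw b hb)

theorem stair_apply (i : Φ.S c) : stair hw b hb i = Ideal.Quotient.mk (Ideal.span {w}) (b i) := by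
  rw [stair, Module.Basis.mk_apply]

omit hb in
/-- the quotient is finite-dimensional -/
theorem finite_quot : Module.Finite F (A ⧸ Ideal.span {w}) :=
  Module.Finite.of_basis (stair hw (fun i => Φ.e i.1) fun i => e_mon i.2.1)

/-- coordinates of an element of degree `< d` vanish at the indices `≥ d` -/
theorem repr_eq_zero {d : ℕ} {z : A} (hz : z ∈ Φ.L d) {i : Φ.S c} (hi : d ≤ i.1) :
    (stair hw b hb).repr (Ideal.Quotient.mk (Ideal.span {w}) z) i = 0 := by
  have key : ∀ x ∈ Submodule.span F {x | ∃ i : Φ.S c, i.1 < d ∧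
      x = Ideal.Quotient.mk (Ideal.span {w}) (b i)}, (stair hw b hb).repr x i = 0 := by
    intro x hx
    induction hx using Submodule.span_induction with
    | mem x hx =>
      obtain ⟨j, hj, rfl⟩ := hx
      rw [← stair_apply hw b hb j, Module.Basis.repr_self, Finsupp.single_apply, if_neg]
      rintro rfl
      omega
    | zero => simp
    | add x y _ _ hx hy => rw [map_add, Finsupp.add_apply, hx, hy, add_zero]
    | smul a x _ hx => rw [map_smul, Finsupp.smul_apply, hx, smul_zero]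
  exact key _ (mem_span_lt hw b hb d z hz)

/-- **Two monic bases differ by a unitriangular matrix.** -/
theorem stair_det (b' : Φ.S c → A) (hb' : ∀ i, Φ.Mon i.1 (b' i)) :
    (stair hw b hb).det (fun i => Ideal.Quotient.mk (Ideal.span {w}) (b' i)) = 1 := by
  classical
  rw [Module.Basis.det_apply]
  have hent : ∀ i j, (stair hw b hb).toMatrix
      (fun i => Ideal.Quotient.mk (Ideal.span {w}) (b' i)) i j =
      (if j = i then 1 else 0) + (stair hw b hb).repr
        (Ideal.Quotient.mk (Ideal.span {w}) (b' j - b j)) i := by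
    intro i j
    rw [Module.Basis.toMatrix_apply]
    have h1 : Ideal.Quotient.mk (Ideal.span {w}) (b' j) = stair hw b hb j +
        Ideal.Quotient.mk (Ideal.span {w}) (b' j - b j) := by
      rw [stair_apply, ← map_add, add_sub_cancel]
    rw [h1, map_add, Finsupp.add_apply, Module.Basis.repr_self, Finsupp.single_apply]
  rw [Matrix.det_of_isUpperTriangular]
  · refine Finset.prod_eq_one fun i _ => ?_
    rw [hent, if_pos rfl, repr_eq_zero hw b hb ((hb' i).sub_mem (hb i)) le_rfl, add_zero]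
  · intro i j hij
    have hij' : j < i := hij
    rw [hent, if_neg hij'.ne, repr_eq_zero hw b hb ((hb' j).sub_mem (hb j))
      (le_of_lt hij'), add_zero]

end basis

end Filt

end Pool.Agent.SmJ
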