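import Pool.Agent.Lib.SmJ.P.Recip
import Pool.Agent.Lib.SmJ.E.Cop

/-!
# SMITH for Jacobians, block P, module WJ: the Weil pairing on the Jacobian

`gn I` = the generator with leading coefficient `1` of a principal ideal. For ideals `I`, `J` prime
to each other with `I ^ N`, `J ^ N` principal, `N` even,
`wv N I J = dq (gn (I ^ N)) J / dq (gn (J ^ N)) I` depends only on the classes (Weil reciprocity
`recip`); `wn N x y` is the value for the classes `x`, `y`: bilinear, `wn N y x = (wn N x y)⁻¹`,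
`wn (2 N) x y = wn N x (2 y)` for `N x = 0`, `wn N x x = 1` for `x = 2 y`, `2 N y = 0`.
-/

set_option autoImplicit false
set_option linter.unusedSectionVars false

open Polynomial

namespace Pool.Agent.SmJ

variable {Om : Type} [Field Om] {f : Om[X]} [Hyp f]

open Classical in
/-- The generator with leading coefficient `1`. -/
noncomputable def gn (I : Ideal (Co f)) : Co f :=
  if h : ∃ w : Co f, I = Ideal.span {w} ∧ lcc w = 1 then h.choose else 1

theorem gn_span {z : Co f} (hz : lcc z = 1) : gn (Ideal.span {z}) = z := by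
  have h : ∃ w : Co f, Ideal.span {z} = Ideal.span {w} ∧ lcc w = 1 := ⟨z, rfl, hz⟩
  rw [gn, dif_pos h]
  exact gen_unique h.choose_spec.1.symm h.choose_spec.2 hz

theorem exists_gn {I : Ideal (Co f)} (hI : I ≠ ⊥) (h : cls I = 0) :
    ∃ w : Co f, I = Ideal.span {w} ∧ lcc w = 1 ∧ gn I = w := by
  obtain ⟨z, hz⟩ := (cls_eq_zero_iff hI).1 h
  obtain ⟨w, hw, h1⟩ := exists_gen hI hz
  exact ⟨w, hw, h1, by rw [hw]; exact gn_span h1⟩

theorem span_gn {I : Ideal (Co f)} (hI : I ≠ ⊥) (h : cls I = 0) :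
    Ideal.span {gn I} = I := by
  obtain ⟨w, hw, h1, h2⟩ := exists_gn hI h
  rw [h2, hw]

theorem lcc_gn {I : Ideal (Co f)} (hI : I ≠ ⊥) (h : cls I = 0) : lcc (gn I) = 1 := by
  obtain ⟨w, hw, h1, h2⟩ := exists_gn hI h
  rw [h2, h1]

theorem gn_mul {I J : Ideal (Co f)} (hI : I ≠ ⊥) (hJ : J ≠ ⊥) (h : cls I = 0) (h' : cls J = 0) :
    gn (I * J) = gn I * gn J := by
  obtain ⟨w, hw, h1, h2⟩ := exists_gn hI h
  obtain ⟨w', hw', h1', h2'⟩ := exists_gn hJ h'
  rw [h2, h2', hw, hw', Ideal.span_singleton_mul_span_singleton, gn_span]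
  rw [lcc_mul, h1, h1', one_mul]

theorem gn_pow {I : Ideal (Co f)} (hI : I ≠ ⊥) (h : cls I = 0) (n : ℕ) :
    gn (I ^ n) = gn I ^ n := by
  obtain ⟨w, hw, h1, h2⟩ := exists_gn hI h
  rw [h2, hw, Ideal.span_singleton_pow, gn_span]
  rw [lcc_pow, h1, one_pow]

theorem cls_pow_zero {N : ℕ} {I : Ideal (Co f)} (hI : I ≠ ⊥) (h : N • cls I = 0) :
    cls (I ^ N) = 0 := by rw [cls_pow hI, h]

theorem wd_gn_even {N : ℕ} (hN : Even N) {I : Ideal (Co f)} (hI : I ≠ ⊥) (h : N • cls I = 0) :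
    Even (wd (gn (I ^ N))) := by
  obtain ⟨p, hp⟩ := exists_isNm hI
  have h1 := hp.pow N
  have h0 := pow_ne_zero N hI
  rw [← span_gn h0 (cls_pow_zero hI h)] at h1
  rw [(IsNm.norm_eq (lcc_gn h0 (cls_pow_zero hI h)) h1).1, natDegree_pow]
  exact hN.mul_right _

/-- The Weil pairing of two ideals prime to each other. -/
noncomputable def wv (N : ℕ) (I J : Ideal (Co f)) : Om :=
  dq Om (gn (I ^ N)) J / dq Om (gn (J ^ N)) I

/-- The hypotheses for one ideal. -/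
structure GI (N : ℕ) (I : Ideal (Co f)) : Prop where
  ne : I ≠ ⊥
  tor : N • cls I = 0

theorem GI.cl {N : ℕ} {I : Ideal (Co f)} (h : GI N I) : cls (I ^ N) = 0 :=
  cls_pow_zero h.ne h.tor

theorem GI.pn {N : ℕ} {I : Ideal (Co f)} (h : GI N I) : I ^ N ≠ ⊥ := pow_ne_zero N h.ne

theorem GI.mul {N : ℕ} {I J : Ideal (Co f)} (h : GI N I) (h' : GI N J) : GI N (I * J) :=
  ⟨mul_ne_zero h.ne h'.ne, by rw [cls_mul h.ne h'.ne, smul_add, h.tor, h'.tor, add_zero]⟩

theorem GI.span {N : ℕ} {z : Co f} (hz : lcc z = 1) : GI N (Ideal.span {z}) :=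
  ⟨by
    rw [Ne, Ideal.span_singleton_eq_bot]
    exact lcc_ne_zero_of_one hz, by rw [cls_span, smul_zero]⟩

theorem sup_pow_top {I J : Ideal (Co f)} (h : I ⊔ J = ⊤) (N : ℕ) : I ^ N ⊔ J = ⊤ := by
  rw [← Ideal.isCoprime_iff_sup_eq] at h ⊢
  exact h.pow_left

theorem sup_mul_top {I J J' : Ideal (Co f)} (h : I ⊔ J = ⊤) (h' : I ⊔ J' = ⊤) :
    I ⊔ J * J' = ⊤ := by
  rw [← Ideal.isCoprime_iff_sup_eq] at h h' ⊢
  exact h.mul_right h'

theorem dq_gn_ne {N : ℕ} {I J : Ideal (Co f)} (hI : GI N I) (h : I ⊔ J = ⊤) :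
    dq Om (gn (I ^ N)) J ≠ 0 := by
  apply dq_ne_zero
  rw [span_gn hI.pn hI.cl]
  exact sup_pow_top h N

theorem wv_ne_zero {N : ℕ} {I J : Ideal (Co f)} (hI : GI N I) (hJ : GI N J) (h : I ⊔ J = ⊤) :
    wv N I J ≠ 0 :=
  div_ne_zero (dq_gn_ne hI h) (dq_gn_ne hJ (by rw [sup_comm]; exact h))

theorem wv_swap (N : ℕ) (I J : Ideal (Co f)) : wv N J I = (wv N I J)⁻¹ := by
  rw [wv, wv, inv_div]

theorem wv_mul_right {N : ℕ} {I J J' : Ideal (Co f)} (hJ : GI N J) (hJ' : GI N J') :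
    wv N I (J * J') = wv N I J * wv N I J' := by
  rw [wv, wv, wv, dq_mulI hJ.ne hJ'.ne, mul_pow, gn_mul hJ.pn hJ'.pn hJ.cl hJ'.cl, dq_mul,
    mul_div_mul_comm]

theorem wv_mul_left {N : ℕ} {I I' J : Ideal (Co f)} (hI : GI N I) (hI' : GI N I') :
    wv N (I * I') J = wv N I J * wv N I' J := by
  rw [wv_swap, wv_mul_right hI hI', mul_inv, ← wv_swap, ← wv_swap]

variable [Infinite Om]

theorem wv_span {N : ℕ} (hN : Even N) {I : Ideal (Co f)} (hI : GI N I) {z : Co f}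
    (hz : lcc z = 1) (h : I ⊔ Ideal.span {z} = ⊤) : wv N I (Ideal.span {z}) = 1 := by
  have h1 : dq Om (gn (I ^ N)) (Ideal.span {z}) = dq Om z (I ^ N) := by
    rw [recip (lcc_gn hI.pn hI.cl) hz (Or.inl (wd_gn_even hN hI.ne hI.tor)),
      span_gn hI.pn hI.cl]
  have h2 : dq Om (gn (Ideal.span {z} ^ N)) I = dq Om z (I ^ N) := by
    rw [Ideal.span_singleton_pow, gn_span (by rw [lcc_pow, hz, one_pow]), dq_pow, dq_powI hI.ne]
  have h3 : dq Om z (I ^ N) ≠ 0 := by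
    apply dq_ne_zero
    rw [sup_comm]
    exact sup_pow_top h N
  rw [wv, h1, h2, div_self h3]

/-- Change of the second ideal. -/
theorem wv_congr_right {N : ℕ} (hN : Even N) {I J J' : Ideal (Co f)} (hI : GI N I) (hJ : GI N J)
    (hJ' : GI N J') (h : I ⊔ J = ⊤) (h' : I ⊔ J' = ⊤) (hc : cls J = cls J') :
    wv N I J = wv N I J' := by
  obtain ⟨K, hK, hK1, hK2⟩ := exists_coprime (-cls J) hI.ne
  have hK3 : GI N K := ⟨hK, by rw [hK1, smul_neg, hJ.tor, neg_zero]⟩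
  have hK4 : I ⊔ K = ⊤ := by rw [sup_comm]; exact hK2
  have key : ∀ L : Ideal (Co f), GI N L → I ⊔ L = ⊤ → cls L = cls J →
      wv N I L * wv N I K = 1 := by
    intro L hL hL1 hL2
    have e : cls (L * K) = 0 := by rw [cls_mul hL.ne hK, hK1, hL2, add_neg_cancel]
    have e0 : L * K ≠ ⊥ := mul_ne_zero hL.ne hK
    rw [← wv_mul_right hL hK3, ← span_gn e0 e]
    refine wv_span hN hI (lcc_gn e0 e) ?_
    rw [span_gn e0 e]
    exact sup_mul_top hL1 hK4
  have h1 := key J hJ h rfl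
  have h2 := key J' hJ' h' hc.symm
  exact mul_right_cancel₀ (wv_ne_zero hI hK3 hK4) (h1.trans h2.symm)

theorem wv_congr_left {N : ℕ} (hN : Even N) {I I' J : Ideal (Co f)} (hI : GI N I) (hI' : GI N I')
    (hJ : GI N J) (h : I ⊔ J = ⊤) (h' : I' ⊔ J = ⊤) (hc : cls I = cls I') :
    wv N I J = wv N I' J := by
  rw [wv_swap N J I, wv_swap N J I', wv_congr_right hN hJ hI hI' (by rw [sup_comm]; exact h)
    (by rw [sup_comm]; exact h') hc]

/-- The pairing depends only on the classes. -/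
theorem wv_congr {N : ℕ} (hN : Even N) {I I' J J' : Ideal (Co f)} (hI : GI N I) (hI' : GI N I')
    (hJ : GI N J) (hJ' : GI N J') (h : I ⊔ J = ⊤) (h' : I' ⊔ J' = ⊤) (hc : cls I = cls I')
    (hc' : cls J = cls J') : wv N I J = wv N I' J' := by
  obtain ⟨K, hK, hK1, hK2⟩ := exists_coprime (cls J) (mul_ne_zero hI.ne hI'.ne)
  have hK3 : GI N K := ⟨hK, by rw [hK1, hJ.tor]⟩
  have e1 : I ⊔ K = ⊤ := by
    rw [eq_top_iff, ← hK2]
    exact sup_le le_sup_right (le_sup_of_le_left Ideal.mul_le_left)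
  have e2 : I' ⊔ K = ⊤ := by
    rw [eq_top_iff, ← hK2]
    exact sup_le le_sup_right (le_sup_of_le_left Ideal.mul_le_right)
  rw [wv_congr_right hN hI hJ hK3 h e1 hK1.symm, wv_congr_left hN hI hI' hK3 e1 e2 hc,
    wv_congr_right hN hI' hK3 hJ' e2 h' (hK1.trans hc')]

/-- The pairing of two classes. -/
noncomputable def wn (N : ℕ) (x y : JJ f) : Om :=
  wv N (exists_cls x).choose (exists_coprime y (exists_cls x).choose_spec.1).choose

theorem wn_eq {N : ℕ} (hN : Even N) {I J : Ideal (Co f)} (hI : GI N I) (hJ : GI N J)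
    (h : I ⊔ J = ⊤) : wn N (cls I) (cls J) = wv N I J := by
  have h1 := (exists_cls (cls I)).choose_spec
  have h2 := (exists_coprime (cls J) (exists_cls (cls I)).choose_spec.1).choose_spec
  rw [wn]
  exact wv_congr hN ⟨h1.1, by rw [h1.2, hI.tor]⟩ hI ⟨h2.1, by rw [h2.2.1, hJ.tor]⟩ hJ
    (by rw [sup_comm]; exact h2.2.2) h h1.2 h2.2.1

/-- Representatives. -/
theorem exists_rep {N : ℕ} (x y : JJ f) (hx : N • x = 0) (hy : N • y = 0) :
    ∃ I J : Ideal (Co f), GI N I ∧ GI N J ∧ I ⊔ J = ⊤ ∧ cls I = x ∧ cls J = y := by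
  obtain ⟨I, hI, rfl⟩ := exists_cls x
  obtain ⟨J, hJ, rfl, h⟩ := exists_coprime y hI
  exact ⟨I, J, ⟨hI, hx⟩, ⟨hJ, hy⟩, by rw [sup_comm]; exact h, rfl, rfl⟩

theorem wn_ne_zero {N : ℕ} (hN : Even N) {x y : JJ f} (hx : N • x = 0) (hy : N • y = 0) :
    wn N x y ≠ 0 := by
  obtain ⟨I, J, hI, hJ, h, rfl, rfl⟩ := exists_rep x y hx hy
  rw [wn_eq hN hI hJ h]
  exact wv_ne_zero hI hJ h

theorem wn_swap {N : ℕ} (hN : Even N) {x y : JJ f} (hx : N • x = 0) (hy : N • y = 0) :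
    wn N y x = (wn N x y)⁻¹ := by
  obtain ⟨I, J, hI, hJ, h, rfl, rfl⟩ := exists_rep x y hx hy
  rw [wn_eq hN hI hJ h, wn_eq hN hJ hI (by rw [sup_comm]; exact h), wv_swap]

theorem wn_add_right {N : ℕ} (hN : Even N) {x y y' : JJ f} (hx : N • x = 0) (hy : N • y = 0)
    (hy' : N • y' = 0) : wn N x (y + y') = wn N x y * wn N x y' := by
  obtain ⟨I, hI, rfl⟩ := exists_cls x
  obtain ⟨J, hJ, rfl, h⟩ := exists_coprime y hI
  obtain ⟨J', hJ', rfl, h'⟩ := exists_coprime y' hI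
  rw [sup_comm] at h h'
  have g1 : GI N I := ⟨hI, hx⟩
  have g2 : GI N J := ⟨hJ, hy⟩
  have g3 : GI N J' := ⟨hJ', hy'⟩
  rw [← cls_mul hJ hJ', wn_eq hN g1 (g2.mul g3) (sup_mul_top h h'), wn_eq hN g1 g2 h,
    wn_eq hN g1 g3 h', wv_mul_right g2 g3]

theorem wn_add_left {N : ℕ} (hN : Even N) {x x' y : JJ f} (hx : N • x = 0) (hx' : N • x' = 0)
    (hy : N • y = 0) : wn N (x + x') y = wn N x y * wn N x' y := by
  have h : N • (x + x') = 0 := by rw [smul_add, hx, hx', add_zero]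
  rw [wn_swap hN hy h, wn_add_right hN hy hx hx', mul_inv, ← wn_swap hN hy hx,
    ← wn_swap hN hy hx']

theorem wn_zero_right {N : ℕ} (hN : Even N) {x : JJ f} (hx : N • x = 0) : wn N x 0 = 1 := by
  have h0 : N • (0 : JJ f) = 0 := smul_zero _
  have h := wn_add_right hN hx h0 h0
  rw [add_zero] at h
  exact mul_left_cancel₀ (wn_ne_zero hN hx h0) (by rw [mul_one]; exact h.symm)

theorem wn_nsmul_right {N : ℕ} (hN : Even N) {x y : JJ f} (hx : N • x = 0) (hy : N • y = 0)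
    (k : ℕ) : wn N x (k • y) = wn N x y ^ k := by
  induction k with
  | zero => rw [zero_smul, pow_zero, wn_zero_right hN hx]
  | succ k ih =>
    rw [succ_nsmul, wn_add_right hN hx (by rw [smul_comm, hy, smul_zero]) hy, ih, pow_succ]

/-- The values are roots of unity. -/
theorem wn_pow {N : ℕ} (hN : Even N) {x y : JJ f} (hx : N • x = 0) (hy : N • y = 0) :
    wn N x y ^ N = 1 := by
  rw [← wn_nsmul_right hN hx hy, hy, wn_zero_right hN hx]

/-- Compatibility of the levels. -/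
theorem wn_comp {N k : ℕ} (hN : Even N) {x y : JJ f} (hx : N • x = 0) (hy : (N * k) • y = 0) :
    wn (N * k) x y = wn N x (k • y) := by
  have hNk : Even (N * k) := hN.mul_right k
  have hx' : (N * k) • x = 0 := by rw [mul_comm, mul_smul, hx, smul_zero]
  have hy' : N • (k • y) = 0 := by rw [← mul_smul, hy]
  obtain ⟨I, hI, rfl⟩ := exists_cls x
  obtain ⟨J, hJ, rfl, h⟩ := exists_coprime y hI
  rw [sup_comm] at h
  have h1 : I ⊔ J ^ k = ⊤ := by
    rw [sup_comm]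
    exact sup_pow_top (by rw [sup_comm]; exact h) k
  have g1 : GI N I := ⟨hI, hx⟩
  have g2 : GI N (J ^ k) := ⟨pow_ne_zero k hJ, by rw [cls_pow hJ]; exact hy'⟩
  rw [wn_eq hNk ⟨hI, hx'⟩ ⟨hJ, hy⟩ h, ← cls_pow hJ, wn_eq hN g1 g2 h1, wv, wv, pow_mul I,
    gn_pow g1.pn g1.cl, dq_pow, dq_powI hJ, ← pow_mul, mul_comm N k]

theorem wn_self {N : ℕ} (hN : Even N) {x : JJ f} (hx : N • x = 0) : wn N x x ^ 2 = 1 := by
  have h := wn_swap hN hx hx
  have h0 := wn_ne_zero hN hx hx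
  rw [sq]
  nth_rewrite 1 [h]
  exact inv_mul_cancel₀ h0

/-- The pairing is alternating on the elements divisible by `2`. -/
theorem wn_alt {N : ℕ} (hN : Even N) {x y : JJ f} (hxy : 2 • y = x) (hx : N • x = 0) :
    wn N x x = 1 := by
  have hy : (N * 2) • y = 0 := by rw [mul_smul, hxy, hx]
  have hx' : (N * 2) • x = 0 := by rw [mul_comm, mul_smul, hx, smul_zero]
  have h2 : Even (N * 2) := hN.mul_right 2
  have e1 : wn N x x = wn (N * 2) x y := by rw [wn_comp hN hx hy, hxy]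
  have e2 : wn (N * 2) x y = wn (N * 2) y y ^ 2 := by
    rw [← hxy, wn_swap h2 hy (by rw [hxy]; exact hx'), wn_nsmul_right h2 hy hy, ← inv_pow,
      ← wn_swap h2 hy hy]
  rw [e1, e2, wn_self h2 hy]

end Pool.Agent.SmJ
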