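import Pool.Agent.Lib.SmJ.P.WJ
import Pool.Agent.Lib.SmJ.P.Weil
import Pool.Agent.Lib.SmJ.L.LapDefs
import Pool.Agent.Lib.Sm.P.Mu

/-!
# SMITH for Jacobians, block P, module WJ2: the Weil pairing, equivariance and the values on `J[2]`

`wn_act`: `wn N (act σ x) (act σ y) = σ (wn N x y)`;
`wn_ee`: `wn 2 (ee i) (ee j)` is `1` for `i = j` and `-1` for `i ≠ j`;
`wn_two`: the values on the even vectors.
`wM Om m x y : MuT Om` is the pairing on the `2 ^ m`-torsion, written additively.
-/

set_option autoImplicit false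
set_option linter.unusedSectionVars false

open Polynomial

namespace Pool.Agent.SmJ

variable {Om : Type} [Field Om]

section act

variable {f : Om[X]} [Hyp f]

omit [Hyp f] in
theorem dq_map (σ : Om ≃+* Om) (h : f.map (σ : Om →+* Om) = f) (u : Co f)
    (J : Ideal (Co f)) :
    dq Om (coMap σ h u) (J.map (coMap σ h : Co f →+* Co f)) = σ (dq Om u J) := by
  have he : RingHom.comp (algebraMap Om (Co f ⧸ J.map (coMap σ h : Co f →+* Co f)))
      (σ : Om →+* Om) =
      RingHom.comp ((Ideal.quotientEquiv J (J.map (coMap σ h : Co f →+* Co f)) (coMap σ h)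
        rfl : (Co f ⧸ J) ≃+* _) : (Co f ⧸ J) →+* (Co f ⧸ J.map (coMap σ h : Co f →+* Co f)))
        (algebraMap Om (Co f ⧸ J)) := by
    ext r
    change Ideal.Quotient.mk _ (algebraMap Om (Co f) (σ r)) =
      Ideal.Quotient.mk _ (coMap σ h (algebraMap Om (Co f) r))
    congr 1
    refine QuadraticAlgebra.ext ?_ ?_
    · change (C (σ r) : Om[X]) = (C r : Om[X]).map (σ : Om →+* Om)
      rw [map_C]
      rfl
    · change (0 : Om[X]) = (0 : Om[X]).map (σ : Om →+* Om)
      rw [Polynomial.map_zero]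
  have h1 := Algebra.norm_eq_of_equiv_equiv σ
    (Ideal.quotientEquiv J (J.map (coMap σ h : Co f →+* Co f)) (coMap σ h) rfl) he
    (Ideal.Quotient.mk J u)
  rw [dq, dq, h1, RingEquiv.apply_symm_apply]
  rfl

theorem gn_map (σ : Om ≃+* Om) (h : f.map (σ : Om →+* Om) = f) {I : Ideal (Co f)} (hI : I ≠ ⊥)
    (h0 : cls I = 0) : gn (I.map (coMap σ h : Co f →+* Co f)) = coMap σ h (gn I) := by
  have e : I.map (coMap σ h : Co f →+* Co f) = Ideal.span {coMap σ h (gn I)} := by
    conv_lhs => rw [← span_gn hI h0]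
    rw [Ideal.map_span, Set.image_singleton]
    rfl
  rw [e, gn_span]
  rw [lcc_coMap, lcc_gn hI h0, map_one]

theorem wv_map {N : ℕ} (σ : Om ≃+* Om) (h : f.map (σ : Om →+* Om) = f) {I J : Ideal (Co f)}
    (hI : GI N I) (hJ : GI N J) :
    wv N (I.map (coMap σ h : Co f →+* Co f)) (J.map (coMap σ h : Co f →+* Co f)) =
      σ (wv N I J) := by
  rw [wv, wv, map_div₀, ← Ideal.map_pow, ← Ideal.map_pow, gn_map σ h hI.pn hI.cl,
    gn_map σ h hJ.pn hJ.cl, dq_map, dq_map]

theorem GI.map {N : ℕ} (σ : Om ≃+* Om) (h : f.map (σ : Om →+* Om) = f) {I : Ideal (Co f)}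
    (hI : GI N I) : GI N (I.map (coMap σ h : Co f →+* Co f)) :=
  ⟨map_ne_bot _ hI.ne, by rw [← act_cls, ← map_nsmul, hI.tor, map_zero]⟩

variable [Infinite Om]

theorem wn_act {N : ℕ} (hN : Even N) (σ : Om ≃+* Om) (h : f.map (σ : Om →+* Om) = f) {x y : JJ f}
    (hx : N • x = 0) (hy : N • y = 0) : wn N (act σ h x) (act σ h y) = σ (wn N x y) := by
  obtain ⟨I, J, hI, hJ, hc, rfl, rfl⟩ := exists_rep x y hx hy
  rw [act_cls, act_cls, wn_eq hN (hI.map σ h) (hJ.map σ h), wn_eq hN hI hJ hc, wv_map σ h hI hJ]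
  rw [← Ideal.map_sup, hc, Ideal.map_top]

end act

section pt

variable {f : Om[X]} [Hyp f]

/-- Evaluation at a point as a homomorphism of algebras. -/
noncomputable def evA (P : Pnt f) : Co f →ₐ[Om] Om :=
  { P.ev with
    commutes' := fun r => by
      change P.ev (algebraMap Om (Co f) r) = r
      rw [Pnt.ev_apply]
      change (C r : Om[X]).eval P.x + (0 : Om[X]).eval P.x * P.y = r
      simp }

theorem evA_apply (P : Pnt f) (u : Co f) : evA P u = P.ev u := rfl

theorem dq_pt (P : Pnt f) (u : Co f) : dq Om u P.idl = P.ev u := by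
  have hs : Function.Surjective (evA P) := fun r => ⟨algebraMap Om (Co f) r, (evA P).commutes r⟩
  have h := Algebra.norm_eq_of_algEquiv (Ideal.quotientKerAlgEquivOfSurjective hs)
    (Ideal.Quotient.mk (RingHom.ker (evA P)) u)
  rw [dq]
  change Algebra.norm Om (Ideal.Quotient.mk (RingHom.ker (evA P)) u) = _
  rw [← h, Algebra.norm_self]
  rfl

end pt

section two

variable {g : ℕ} (a : Fin (2 * g + 1) → Om) [HypA a]

theorem br_sq (i : Fin (2 * g + 1)) :
    (br a i).idl ^ 2 = Ideal.span {po (ff a) (X - C (a i))} := by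
  have h := (br a i).isNm.eq
  rw [cj_br] at h
  rw [sq]
  exact h

theorem wj_two_ee (i : Fin (2 * g + 1)) : 2 • ee a i = 0 := by
  rw [ee, Pnt.cl, ← cls_pow (br a i).idl_ne_bot, br_sq, cls_span]

theorem gi_br (i : Fin (2 * g + 1)) : GI 2 (br a i).idl :=
  ⟨(br a i).idl_ne_bot, wj_two_ee a i⟩

theorem gn_br (i : Fin (2 * g + 1)) : gn ((br a i).idl ^ 2) = po (ff a) (X - C (a i)) := by
  rw [br_sq, gn_span (lcc_lin _)]

theorem dq_br (i j : Fin (2 * g + 1)) :
    dq Om (gn ((br a i).idl ^ 2)) (br a j).idl = a j - a i := by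
  rw [gn_br, dq_pt, Pnt.ev_po, eval_sub, eval_X, eval_C]
  rfl

theorem br_cop {i j : Fin (2 * g + 1)} (h : i ≠ j) : (br a i).idl ⊔ (br a j).idl = ⊤ := by
  refine Ideal.IsMaximal.coprime_of_ne (br a i).idl_isMaximal (br a j).idl_isMaximal ?_
  intro he
  have h1 : po (ff a) (X - C (a i)) ∈ (br a j).idl := by
    rw [← he]
    change (br a i).ev _ = 0
    rw [Pnt.ev_po, eval_sub, eval_X, eval_C]
    exact sub_self _
  change (br a j).ev _ = 0 at h1
  rw [Pnt.ev_po, eval_sub, eval_X, eval_C, sub_eq_zero] at h1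
  exact h (HypA.inj (a := a) h1).symm

theorem sum_ee : ∑ i, ee a i = 0 := by
  rw [← cls_PS, PS_univ, cls_span]

variable [Infinite Om]

theorem wn_ee_ne {i j : Fin (2 * g + 1)} (h : i ≠ j) : wn 2 (ee a i) (ee a j) = -1 := by
  have h1 := wn_eq even_two (gi_br a i) (gi_br a j) (br_cop a h)
  have h2 : a i - a j ≠ 0 := sub_ne_zero.2 fun he => h (HypA.inj (a := a) he)
  rw [ee, ee, Pnt.cl, Pnt.cl, h1, wv, dq_br, dq_br, div_eq_iff h2]
  ring

theorem wn_sum_right {f : Om[X]} [Hyp f] {N : ℕ} (hN : Even N) {ι : Type} (S : Finset ι) {x : JJ f}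
    (hx : N • x = 0) {y : ι → JJ f} (hy : ∀ i, N • y i = 0) :
    wn N x (∑ i ∈ S, y i) = ∏ i ∈ S, wn N x (y i) := by
  classical
  induction S using Finset.induction_on with
  | empty => rw [Finset.sum_empty, Finset.prod_empty, wn_zero_right hN hx]
  | insert i S hi ih =>
    have h1 : N • ∑ i ∈ S, y i = 0 := by
      rw [Finset.smul_sum]
      exact Finset.sum_eq_zero fun i _ => hy i
    rw [Finset.sum_insert hi, Finset.prod_insert hi, wn_add_right hN hx (hy i) h1, ih]

theorem wn_sum_left {f : Om[X]} [Hyp f] {N : ℕ} (hN : Even N) {ι : Type} (S : Finset ι)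
    {x : ι → JJ f} {y : JJ f} (hx : ∀ i, N • x i = 0) (hy : N • y = 0) :
    wn N (∑ i ∈ S, x i) y = ∏ i ∈ S, wn N (x i) y := by
  have h1 : N • ∑ i ∈ S, x i = 0 := by
    rw [Finset.smul_sum]
    exact Finset.sum_eq_zero fun i _ => hx i
  rw [wn_swap hN hy h1, wn_sum_right hN S hy hx, ← Finset.prod_inv_distrib]
  exact Finset.prod_congr rfl fun i _ => (wn_swap hN hy (hx i)).symm

theorem wn_ee_self (i : Fin (2 * g + 1)) : wn 2 (ee a i) (ee a i) = 1 := by
  have h := wn_sum_right even_two Finset.univ (wj_two_ee a i) (wj_two_ee a)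
  rw [sum_ee, wn_zero_right even_two (wj_two_ee a i), ← Finset.mul_prod_erase _ _
    (Finset.mem_univ i), Finset.prod_congr rfl (g := fun _ => (-1 : Om)) fun j hj =>
      wn_ee_ne a (Finset.ne_of_mem_erase hj).symm, Finset.prod_const,
    Finset.card_erase_of_mem (Finset.mem_univ i), Finset.card_univ, Fintype.card_fin,
    Nat.add_sub_cancel, pow_mul, neg_one_sq, one_pow, mul_one] at h
  exact h.symm

/-- The values on the even vectors. -/
theorem wn_two (S T : Finset (Fin (2 * g + 1))) (hT : Even T.card) :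
    wn 2 (∑ i ∈ S, ee a i) (∑ j ∈ T, ee a j) = (-1) ^ (S ∩ T).card := by
  have hT2 : 2 • ∑ j ∈ T, ee a j = 0 := by
    rw [Finset.smul_sum]
    exact Finset.sum_eq_zero fun j _ => wj_two_ee a j
  have key : ∀ i, wn 2 (ee a i) (∑ j ∈ T, ee a j) = if i ∈ T then -1 else 1 := by
    intro i
    rw [wn_sum_right even_two T (wj_two_ee a i) (wj_two_ee a)]
    by_cases hi : i ∈ T
    · rw [if_pos hi, ← Finset.mul_prod_erase _ _ hi, wn_ee_self, one_mul,
        Finset.prod_congr rfl (g := fun _ => (-1 : Om)) fun j hj =>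
          wn_ee_ne a (Finset.ne_of_mem_erase hj).symm, Finset.prod_const,
        Finset.card_erase_of_mem hi]
      refine Odd.neg_one_pow ?_
      have h0 : 0 < T.card := Finset.card_pos.2 ⟨i, hi⟩
      exact Nat.Even.sub_odd h0 hT odd_one
    · rw [if_neg hi, Finset.prod_congr rfl (g := fun _ => (-1 : Om)) fun j hj =>
        wn_ee_ne a (i := i) (j := j) (fun he => hi (by rw [he]; exact hj)), Finset.prod_const,
        hT.neg_one_pow]
  rw [wn_sum_left even_two S (wj_two_ee a) hT2, Finset.prod_congr rfl fun i _ => key i,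
    Finset.prod_ite, Finset.prod_const, Finset.prod_const_one, mul_one,
    Finset.filter_mem_eq_inter]

end two

end Pool.Agent.SmJ
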